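import Pool.Agent.TreeFPP.Agl2

/-!
# Counting and the limit
-/

open Finset PowerSeries

namespace Pool.Agent.TreeFPP

section Count

variable {F : Type} [Field F]

/-- pairs with prescribed first coefficient -/
lemma ncard_fst (n : ℕ) (c : F) :
    {p : (Fin (n + 1) → F) × (Fin (n + 1) → F) | p.1 0 = c}.ncard = Nat.card F ^ (2 * n + 1) := by
  have h1 : {p : (Fin (n + 1) → F) × (Fin (n + 1) → F) | p.1 0 = c} =
      (fun q : (Fin n → F) × (Fin (n + 1) → F) => ((Fin.cons c q.1 : Fin (n + 1) → F), q.2)) ''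
        Set.univ := by
    ext p
    constructor
    · intro hp
      refine ⟨(Fin.tail p.1, p.2), trivial, ?_⟩
      have h2 : (Fin.cons c (Fin.tail p.1) : Fin (n + 1) → F) = p.1 := by
        rw [← (show p.1 0 = c from hp)]
        exact Fin.cons_self_tail p.1
      simp only [h2]
    · rintro ⟨q, _, rfl⟩
      simp
  rw [h1, Set.ncard_image_of_injective, Set.ncard_univ, Nat.card_prod, Nat.card_fun, Nat.card_fun,
    Nat.card_fin, Nat.card_fin, ← pow_add]
  · congr 1; ring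
  · rintro ⟨q1, q2⟩ ⟨r1, r2⟩ h
    simp only [Prod.mk.injEq, Fin.cons_inj, true_and] at h
    exact Prod.ext h.1 h.2

lemma card_pairs (n : ℕ) :
    (Set.univ : Set ((Fin (n + 1) → F) × (Fin (n + 1) → F))).ncard = Nat.card F ^ (2 * n + 2) := by
  rw [Set.ncard_univ, Nat.card_prod, Nat.card_fun, Nat.card_fin, ← pow_add]
  congr 1; ring

/-- number of pairs satisfying the fixed point condition -/
noncomputable def CC (F : Type) [Field F] (n : ℕ) : ℕ :=
  {p : (Fin n → F) × (Fin n → F) | FixC p}.ncard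

lemma ncard_fst_fix (n : ℕ) :
    {p : (Fin (n + 1) → F) × (Fin (n + 1) → F) | p.1 0 = 0 ∧ FixC p}.ncard = CC F n := by
  have h1 : {p : (Fin (n + 1) → F) × (Fin (n + 1) → F) | p.1 0 = 0 ∧ FixC p} =
      (fun q : (Fin n → F) × (Fin n → F) => ((Fin.cons 0 q.1 : Fin (n + 1) → F),
        (Fin.cons 0 q.2 : Fin (n + 1) → F))) '' {q | FixC q} := by
    ext p
    constructor
    · rintro ⟨hp0, hp⟩
      have hb0 : p.2 0 = 0 := hp 0 (fun j hj => by rw [Fin.le_zero_iff.mp hj]; exact hp0)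
      refine ⟨(Fin.tail p.1, Fin.tail p.2), ?_, ?_⟩
      · intro i hi
        refine hp i.succ (fun j hj => ?_)
        refine Fin.cases (fun _ => hp0) (fun j' hj' => ?_) j hj
        exact hi j' (Fin.succ_le_succ_iff.mp hj')
      · have h2 : (Fin.cons 0 (Fin.tail p.1) : Fin (n + 1) → F) = p.1 := by
          conv_lhs => rw [← hp0]
          exact Fin.cons_self_tail p.1
        have h3 : (Fin.cons 0 (Fin.tail p.2) : Fin (n + 1) → F) = p.2 := by
          conv_lhs => rw [← hb0]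
          exact Fin.cons_self_tail p.2
        simp only [h2, h3]
    · rintro ⟨q, hq, rfl⟩
      refine ⟨by simp, ?_⟩
      intro i
      refine Fin.cases (fun _ => by simp) (fun i' hi' => ?_) i
      simp only [Fin.cons_succ]
      refine hq i' (fun j hj => ?_)
      have := hi' j.succ (Fin.succ_le_succ_iff.mpr hj)
      simpa using this
  rw [h1, Set.ncard_image_of_injective, CC]
  rintro ⟨q1, q2⟩ ⟨r1, r2⟩ h
  simp only [Prod.mk.injEq, Fin.cons_inj, true_and] at h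
  exact Prod.ext h.1 h.2

lemma fixC_of_ne {n : ℕ} {p : (Fin (n + 1) → F) × (Fin (n + 1) → F)} (h : p.1 0 ≠ 0) :
    FixC p := fun i hi => absurd (hi 0 (Fin.zero_le i)) h

/-- recursion -/
lemma CC_succ [Finite F] (n : ℕ) : CC F (n + 1) + Nat.card F ^ (2 * n + 1) =
    Nat.card F ^ (2 * n + 2) + CC F n := by
  have h1 : {p : (Fin (n + 1) → F) × (Fin (n + 1) → F) | FixC p} =
      {p | p.1 0 = 0}ᶜ ∪ {p | p.1 0 = 0 ∧ FixC p} := by
    ext p
    simp only [Set.mem_ofPred_eq, Set.mem_union, Set.mem_compl_iff]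
    constructor
    · intro h
      by_cases h0 : p.1 0 = 0
      · exact Or.inr ⟨h0, h⟩
      · exact Or.inl h0
    · rintro (h | h)
      · exact fixC_of_ne h
      · exact h.2
  have h2 : Disjoint ({p : (Fin (n + 1) → F) × (Fin (n + 1) → F) | p.1 0 = 0}ᶜ)
      {p | p.1 0 = 0 ∧ FixC p} := by
    rw [Set.disjoint_left]
    rintro p hp ⟨h0, _⟩
    exact hp h0
  have h3 := Set.ncard_add_ncard_compl {p : (Fin (n + 1) → F) × (Fin (n + 1) → F) | p.1 0 = 0}
  have h4 := card_pairs (F := F) n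
  rw [Set.ncard_univ] at h4
  rw [ncard_fst, h4] at h3
  unfold CC
  rw [h1, Set.ncard_union_eq h2, ncard_fst_fix]
  unfold CC
  omega

lemma CC_zero : CC F 0 = 1 := by
  unfold CC
  have : {p : (Fin 0 → F) × (Fin 0 → F) | FixC p} = Set.univ := by
    ext p
    simp only [Set.mem_ofPred_eq, Set.mem_univ, iff_true]
    intro i
    exact i.elim0
  rw [this, Set.ncard_univ]
  simp

/-- closed form -/
lemma CC_eq [Finite F] (n : ℕ) : ((Nat.card F : ℝ) + 1) * (CC F n : ℝ) =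
    1 + (Nat.card F : ℝ) ^ (2 * n + 1) := by
  induction n with
  | zero => rw [CC_zero]; push_cast; ring
  | succ n ih =>
    have h := CC_succ (F := F) n
    have h' : (CC F (n + 1) : ℝ) + (Nat.card F : ℝ) ^ (2 * n + 1) =
        (Nat.card F : ℝ) ^ (2 * n + 2) + (CC F n : ℝ) := by exact_mod_cast h
    have e1 : (Nat.card F : ℝ) ^ (2 * (n + 1) + 1) =
        (Nat.card F : ℝ) ^ (2 * n + 1) * (Nat.card F : ℝ) ^ 2 := by ring
    have e2 : (Nat.card F : ℝ) ^ (2 * n + 2) = (Nat.card F : ℝ) ^ (2 * n + 1) * Nat.card F := by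
      ring
    rw [e2] at h'
    rw [e1]
    linear_combination ((Nat.card F : ℝ) + 1) * h' + ih

end Count

section Levels

variable {d : ℕ} {F : Type} [Field F] (e : F ≃ Fin d)

/-- every pair with `p.1 0 ≠ -1` comes from a group element -/
lemma cf_surj {n : ℕ} {p : (Fin (n + 1) → F) × (Fin (n + 1) → F)} (h : p.1 0 ≠ -1) :
    ∃ x : (PowerSeries F)ˣ × PowerSeries F, cf (n + 1) x = p := by
  let a : PowerSeries F := 1 + PowerSeries.mk (fun i => if hi : i < n + 1 then p.1 ⟨i, hi⟩ else 0)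
  let b : PowerSeries F := PowerSeries.mk (fun i => if hi : i < n + 1 then p.2 ⟨i, hi⟩ else 0)
  have ha : IsUnit a := by
    rw [isUnit_iff_constantCoeff, isUnit_iff_ne_zero]
    intro h0
    apply h
    have h1 : constantCoeff a = 1 + p.1 0 := by
      simp only [a, map_add, map_one]
      congr 1
    rw [h1] at h0
    linear_combination h0
  refine ⟨(ha.unit, b), ?_⟩
  unfold cf
  refine Prod.ext ?_ ?_
  · funext i
    simp only [IsUnit.unit_spec, a, add_sub_cancel_left, coeff_mk, i.2, dif_pos]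
  · funext i
    simp only [b, coeff_mk, i.2, dif_pos]

lemma cf_ne {n : ℕ} (x : (PowerSeries F)ˣ × PowerSeries F) : (cf (n + 1) x).1 0 ≠ -1 := by
  intro h
  have h1 : coeff 0 ((x.1 : PowerSeries F) - 1) = -1 := h
  rw [map_sub] at h1
  have h2 : coeff 0 (x.1 : PowerSeries F) = 0 := by
    have : coeff 0 (1 : PowerSeries F) = 1 := by simp
    rw [this] at h1
    linear_combination h1
  have h3 : IsUnit (x.1 : PowerSeries F) := x.1.isUnit
  rw [isUnit_iff_constantCoeff, isUnit_iff_ne_zero] at h3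
  apply h3
  simpa using h2

lemma cf_image_univ (n : ℕ) : cf (n + 1) '' Set.univ =
    {p : (Fin (n + 1) → F) × (Fin (n + 1) → F) | p.1 0 = -1}ᶜ := by
  ext p
  constructor
  · rintro ⟨x, _, rfl⟩
    exact cf_ne x
  · intro hp
    obtain ⟨x, hx⟩ := cf_surj hp
    exact ⟨x, trivial, hx⟩

lemma cf_image_fix (n : ℕ) : cf (n + 1) '' {p | ∃ w, alvl e (n + 1) p w = w} =
    {p : (Fin (n + 1) → F) × (Fin (n + 1) → F) | p.1 0 ≠ -1 ∧ FixC p} := by
  ext p
  constructor
  · rintro ⟨x, hx, rfl⟩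
    exact ⟨cf_ne x, (fix_iff e x).mp hx⟩
  · rintro ⟨hp, hp2⟩
    obtain ⟨x, rfl⟩ := cf_surj hp
    exact ⟨x, (fix_iff e x).mpr hp2, rfl⟩

lemma ncard_fixed [Finite F] (n : ℕ) :
    {p : (Fin (n + 1) → F) × (Fin (n + 1) → F) | p.1 0 ≠ -1 ∧ FixC p}.ncard +
      2 * Nat.card F ^ (2 * n + 1) = Nat.card F ^ (2 * n + 2) + CC F n := by
  have hne : (0 : F) ≠ -1 := by
    intro h
    have : (1 : F) = 0 := by linear_combination h
    exact one_ne_zero this
  have h1 : {p : (Fin (n + 1) → F) × (Fin (n + 1) → F) | p.1 0 ≠ -1 ∧ FixC p} =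
      ({p | p.1 0 = 0} ∪ {p | p.1 0 = -1})ᶜ ∪ {p | p.1 0 = 0 ∧ FixC p} := by
    ext p
    simp only [Set.mem_ofPred_eq, Set.mem_union, Set.mem_compl_iff, not_or]
    constructor
    · rintro ⟨h2, h3⟩
      by_cases h0 : p.1 0 = 0
      · exact Or.inr ⟨h0, h3⟩
      · exact Or.inl ⟨h0, h2⟩
    · rintro (h | h)
      · exact ⟨h.2, fixC_of_ne h.1⟩
      · exact ⟨by rw [h.1]; exact hne, h.2⟩
  have h2 : Disjoint (({p : (Fin (n + 1) → F) × (Fin (n + 1) → F) | p.1 0 = 0} ∪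
      {p | p.1 0 = -1})ᶜ) {p | p.1 0 = 0 ∧ FixC p} := by
    rw [Set.disjoint_left]
    rintro p hp ⟨h0, _⟩
    exact hp (Or.inl h0)
  have h3 : Disjoint {p : (Fin (n + 1) → F) × (Fin (n + 1) → F) | p.1 0 = 0}
      {p | p.1 0 = -1} := by
    rw [Set.disjoint_left]
    intro p hp hp'
    exact hne (hp.symm.trans hp')
  have h4 := card_pairs (F := F) n
  rw [Set.ncard_univ] at h4
  have h5 := Set.ncard_add_ncard_compl ({p : (Fin (n + 1) → F) × (Fin (n + 1) → F) | p.1 0 = 0} ∪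
      {p | p.1 0 = -1})
  rw [Set.ncard_union_eq h3, ncard_fst, ncard_fst, h4] at h5
  rw [h1, Set.ncard_union_eq h2, ncard_fst_fix]
  omega

lemma fixRatio_agl [Finite F] (hd : 2 ≤ d) (n : ℕ) :
    fixRatio (aglGroup e) (n + 1) = ((d : ℝ) ^ 2 - d - 1) / ((d : ℝ) ^ 2 - 1) +
      (1 / (((d : ℝ) ^ 2 - 1) * d)) * (1 / (d : ℝ) ^ 2) ^ n := by
  have hF : Nat.card F = d := by rw [Nat.card_congr e, Nat.card_fin]
  have c1 : (levelPerms (aglGroup e) (n + 1)).ncard + d ^ (2 * n + 1) = d ^ (2 * n + 2) := by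
    rw [← image_alvl, ncard_image_eq (alvl e (n + 1)) (cf (n + 1)) Set.univ
      (fun x _ y _ => alvl_eq_iff e), cf_image_univ]
    have h5 := Set.ncard_add_ncard_compl
      {p : (Fin (n + 1) → F) × (Fin (n + 1) → F) | p.1 0 = -1}
    have h4 := card_pairs (F := F) n
    rw [Set.ncard_univ] at h4
    rw [ncard_fst, h4, hF] at h5
    omega
  have c2 : {σ ∈ levelPerms (aglGroup e) (n + 1) | ∃ w, σ w = w}.ncard + 2 * d ^ (2 * n + 1) =
      d ^ (2 * n + 2) + CC F n := by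
    rw [← image_alvl_fix, ncard_image_eq (alvl e (n + 1)) (cf (n + 1)) _
      (fun x _ y _ => alvl_eq_iff e), cf_image_fix]
    have := ncard_fixed (F := F) n
    rw [hF] at this
    exact this
  have c3 := CC_eq (F := F) n
  rw [hF] at c3
  unfold fixRatio
  set T := (levelPerms (aglGroup e) (n + 1)).ncard with hT
  set N := {σ ∈ levelPerms (aglGroup e) (n + 1) | ∃ w, σ w = w}.ncard with hN
  have hd' : (2 : ℝ) ≤ d := by exact_mod_cast hd
  have c1' : (T : ℝ) = ((d : ℝ) - 1) * (d : ℝ) ^ (2 * n + 1) := by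
    have : (T : ℝ) + (d : ℝ) ^ (2 * n + 1) = (d : ℝ) ^ (2 * n + 2) := by exact_mod_cast c1
    rw [pow_succ (d : ℝ) (2 * n + 1)] at this
    linarith
  have c2' : (N : ℝ) = ((d : ℝ) - 2) * (d : ℝ) ^ (2 * n + 1) + CC F n := by
    have : (N : ℝ) + 2 * (d : ℝ) ^ (2 * n + 1) = (d : ℝ) ^ (2 * n + 2) + CC F n := by
      exact_mod_cast c2
    rw [pow_succ (d : ℝ) (2 * n + 1)] at this
    linarith
  have c3' : (CC F n : ℝ) = (1 + (d : ℝ) ^ (2 * n + 1)) / ((d : ℝ) + 1) := by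
    rw [eq_div_iff (by positivity)]
    linarith
  rw [c1', c2', c3']
  have e1 : (1 / (d : ℝ) ^ 2) ^ n = 1 / (d : ℝ) ^ (2 * n) := by
    rw [one_div, inv_pow, ← pow_mul, one_div]
  rw [e1, pow_succ (d : ℝ) (2 * n)]
  have h1 : (d : ℝ) - 1 ≠ 0 := by linarith
  have h2 : (d : ℝ) + 1 ≠ 0 := by linarith
  have h3 : (d : ℝ) ≠ 0 := by linarith
  have h4 : (d : ℝ) ^ 2 - 1 ≠ 0 := by
    have : (d : ℝ) ^ 2 - 1 = ((d : ℝ) - 1) * ((d : ℝ) + 1) := by ring
    rw [this]; exact mul_ne_zero h1 h2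
  have h5 : (d : ℝ) ^ (2 * n) ≠ 0 := pow_ne_zero _ h3
  field_simp
  ring

theorem agl_hasFPP [Finite F] (hd : 2 ≤ d) :
    HasFPP (aglGroup e) (((d : ℝ) ^ 2 - d - 1) / ((d : ℝ) ^ 2 - 1)) := by
  unfold HasFPP
  have hd' : (2 : ℝ) ≤ d := by exact_mod_cast hd
  rw [← Filter.tendsto_add_atTop_iff_nat 1]
  have h1 : Filter.Tendsto (fun n : ℕ => ((d : ℝ) ^ 2 - d - 1) / ((d : ℝ) ^ 2 - 1) +
      (1 / (((d : ℝ) ^ 2 - 1) * d)) * (1 / (d : ℝ) ^ 2) ^ n) Filter.atTop
      (nhds (((d : ℝ) ^ 2 - d - 1) / ((d : ℝ) ^ 2 - 1) + (1 / (((d : ℝ) ^ 2 - 1) * d)) * 0)) := by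
    apply Filter.Tendsto.add tendsto_const_nhds
    apply Filter.Tendsto.const_mul
    apply tendsto_pow_atTop_nhds_zero_of_lt_one
    · positivity
    · rw [div_lt_one (by positivity)]
      nlinarith
  rw [mul_zero, add_zero] at h1
  exact h1.congr (fun n => (fixRatio_agl e hd n).symm)

/-- for a prime power `d` the value `(d^2-d-1)/(d^2-1)` is a fixed-point proportion -/
theorem mem_spectrum_max (d : ℕ) (hp : IsPrimePow d) :
    ((d : ℝ) ^ 2 - d - 1) / ((d : ℝ) ^ 2 - 1) ∈ fppSpectrum d := by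
  classical
  have hd : 2 ≤ d := hp.one_lt
  obtain ⟨p, k, hprime, hk, rfl⟩ := hp
  have : Fact p.Prime := ⟨hprime.nat_prime⟩
  have : Fintype (GaloisField p k) := Fintype.ofFinite _
  have hcard : Fintype.card (GaloisField p k) = p ^ k := by
    rw [← Nat.card_eq_fintype_card]
    exact GaloisField.card p k hk.ne'
  let e : GaloisField p k ≃ Fin (p ^ k) := Fintype.equivFinOfCardEq hcard
  exact ⟨aglGroup e, aglGroup_le e, aglGroup_transitive e, agl_hasFPP e hd⟩

end Levels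

end Pool.Agent.TreeFPP
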