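import Pool.Agent.TreeFPP.Tree2

open Finset

namespace Pool.Agent.TreeFPP

variable {d : ℕ}

/-- children of a vertex -/
def Xw (w : List (Fin d)) : Finset (List (Fin d)) := univ.image (fun i : Fin d => w ++ [i])

/-- grandchildren of a vertex -/
def Yw (w : List (Fin d)) : Finset (List (Fin d)) :=
  univ.image (fun p : Fin d × Fin d => (w ++ [p.1]) ++ [p.2])

lemma mem_Xw {w u : List (Fin d)} : u ∈ Xw w ↔ u.dropLast = w ∧ u.length = w.length + 1 := by
  simp only [Xw, mem_image, mem_univ, true_and]
  constructor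
  · rintro ⟨i, rfl⟩
    simp
  · rintro ⟨h1, h2⟩
    have hne : u ≠ [] := by
      rintro rfl
      simp at h2
    exact ⟨u.getLast hne, by rw [← h1]; exact List.dropLast_append_getLast hne⟩

lemma mem_Yw {w u : List (Fin d)} :
    u ∈ Yw w ↔ u.dropLast.dropLast = w ∧ u.length = w.length + 2 := by
  constructor
  · intro h
    simp only [Yw, mem_image, mem_univ, true_and] at h
    obtain ⟨p, rfl⟩ := h
    rw [List.dropLast_concat, List.dropLast_concat]
    simp
  · rintro ⟨h1, h2⟩
    have hX1 : u.dropLast ∈ Xw w := by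
      rw [mem_Xw, List.length_dropLast]
      exact ⟨h1, by omega⟩
    have hX2 : u ∈ Xw u.dropLast := by
      rw [mem_Xw, List.length_dropLast]
      exact ⟨rfl, by omega⟩
    simp only [Xw, mem_image, mem_univ, true_and] at hX1 hX2
    obtain ⟨i, hi⟩ := hX1
    obtain ⟨j, hj⟩ := hX2
    simp only [Yw, mem_image, mem_univ, true_and]
    exact ⟨(i, j), by rw [hi, hj]⟩

lemma card_Xw (w : List (Fin d)) : (Xw w).card = d := by
  unfold Xw
  rw [card_image_of_injective, card_univ, Fintype.card_fin]
  intro i j h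
  simpa using h

lemma Fb_eq {w x : List (Fin d)} (hx : x ∈ Xw w) : Fb (Yw w) List.dropLast x = Xw x := by
  ext y
  rw [mem_Fb, mem_Yw, mem_Xw]
  rw [mem_Xw] at hx
  constructor
  · rintro ⟨⟨h1, h2⟩, h3⟩
    exact ⟨h3, by omega⟩
  · rintro ⟨h1, h2⟩
    exact ⟨⟨by rw [h1, hx.1], by omega⟩, h1⟩

/-- level transitivity of the truncated group -/
lemma trunc_trans {G : Subgroup (Equiv.Perm (List (Fin d)))} (hG : G ≤ TreeAut d)
    (ht : LevelTransitive G) {N : ℕ} {u w : List (Fin d)} (h : u.length = w.length)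
    (hN : u.length ≤ N) : ∃ γ : truncGroup G N, γ • u = w := by
  obtain ⟨g, hg, hgu⟩ := ht u w h
  refine ⟨⟨truncHom d N ⟨g, hG hg⟩, mem_truncGroup.mpr ⟨⟨g, hG hg⟩, hg, rfl⟩⟩, ?_⟩
  show truncHom d N ⟨g, hG hg⟩ u = w
  rw [truncHom_of_le _ hN]
  exact hgu

lemma smul_dropLast {G : Subgroup (Equiv.Perm (List (Fin d)))} {N : ℕ} (γ : truncGroup G N)
    (u : List (Fin d)) : γ • u.dropLast = (γ • u).dropLast :=
  truncGroup_le G N γ.2 u

lemma smul_length {G : Subgroup (Equiv.Perm (List (Fin d)))} {N : ℕ} (γ : truncGroup G N)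
    (u : List (Fin d)) : (γ • u).length = u.length :=
  aut_length (truncGroup_le G N γ.2) u

lemma smul_take {G : Subgroup (Equiv.Perm (List (Fin d)))} {N : ℕ} (γ : truncGroup G N)
    (u : List (Fin d)) (n : ℕ) : γ • u.take n = (γ • u).take n :=
  aut_take (truncGroup_le G N γ.2) u n

/-- the two-level structure below a vertex -/
lemma two_at {G : Subgroup (Equiv.Perm (List (Fin d)))} (hG : G ≤ TreeAut d)
    (ht : LevelTransitive G) {N : ℕ} (w : List (Fin d)) (hN : w.length + 2 ≤ N) :
    Two (MulAction.stabilizer (truncGroup G N) w) (Xw w) (Yw w) List.dropLast d where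
  invX := by
    intro s x hx
    have hs : (s : truncGroup G N) • w = w := s.2
    rw [mem_Xw] at hx ⊢
    show ((s : truncGroup G N) • x).dropLast = w ∧ ((s : truncGroup G N) • x).length = _
    rw [← smul_dropLast, hx.1, hs, smul_length, hx.2]
    exact ⟨rfl, rfl⟩
  invY := by
    intro s y hy
    have hs : (s : truncGroup G N) • w = w := s.2
    rw [mem_Yw] at hy ⊢
    show ((s : truncGroup G N) • y).dropLast.dropLast = w ∧
      ((s : truncGroup G N) • y).length = _
    rw [← smul_dropLast, ← smul_dropLast, hy.1, hs, smul_length, hy.2]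
    exact ⟨rfl, rfl⟩
  trY := by
    intro y hy y' hy'
    rw [mem_Yw] at hy hy'
    obtain ⟨γ, hγ⟩ := trunc_trans hG ht (N := N) (hy.2.trans hy'.2.symm) (by rw [hy.2]; exact hN)
    refine ⟨⟨γ, ?_⟩, hγ⟩
    rw [MulAction.mem_stabilizer_iff]
    calc γ • w = γ • y.dropLast.dropLast := by rw [hy.1]
      _ = (γ • y).dropLast.dropLast := by rw [smul_dropLast, smul_dropLast]
      _ = w := by rw [hγ, hy'.1]
  fX := by
    intro y hy
    rw [mem_Yw] at hy
    rw [mem_Xw, List.length_dropLast]
    exact ⟨hy.1, by omega⟩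
  feq := by
    intro s y _
    exact (smul_dropLast (s : truncGroup G N) y).symm
  cX := card_Xw w
  cF := by
    intro x hx
    rw [Fb_eq hx]
    exact card_Xw x

/-- union bound over a level -/
lemma union_bound {G : Subgroup (Equiv.Perm (List (Fin d)))} (hG : G ≤ TreeAut d)
    (ht : LevelTransitive G) {N : ℕ} (w : List (Fin d)) (hN : w.length + 2 ≤ N)
    [Fintype (truncGroup G N)] [Fintype (MulAction.stabilizer (truncGroup G N) w)]
    [DecidablePred (fun γ : truncGroup G N => ∃ u : List (Fin d), u.length = w.length + 2 ∧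
      (γ : Equiv.Perm (List (Fin d))) u = u)] :
    (univ.filter (fun γ : truncGroup G N => ∃ u : List (Fin d), u.length = w.length + 2 ∧
      (γ : Equiv.Perm (List (Fin d))) u = u)).card *
        Fintype.card (MulAction.stabilizer (truncGroup G N) w) ≤
      Fintype.card (truncGroup G N) *
        (EE (MulAction.stabilizer (truncGroup G N) w) (Yw w)).card := by
  classical
  let E' : List (Fin d) → Finset (truncGroup G N) := fun w' =>
    univ.filter (fun γ : truncGroup G N => γ • w' = w' ∧ ∃ y ∈ Yw w', γ • y = y)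
  have hsub : univ.filter (fun γ : truncGroup G N => ∃ u : List (Fin d), u.length = w.length + 2 ∧
      (γ : Equiv.Perm (List (Fin d))) u = u) ⊆ (orb (truncGroup G N) w).biUnion E' := by
    intro γ hγ
    rw [mem_filter] at hγ
    obtain ⟨_, u, hu, hγu⟩ := hγ
    have hγu' : γ • u = u := hγu
    rw [mem_biUnion]
    refine ⟨u.dropLast.dropLast, ?_, ?_⟩
    · rw [mem_orb]
      exact trunc_trans hG ht (by rw [List.length_dropLast, List.length_dropLast]; omega)
        (by omega)
    · rw [mem_filter]
      refine ⟨mem_univ _, ?_, u, ?_, hγu'⟩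
      · rw [smul_dropLast, smul_dropLast, hγu']
      · rw [mem_Yw, List.length_dropLast, List.length_dropLast]
        exact ⟨rfl, by omega⟩
  have hconj : ∀ w' ∈ orb (truncGroup G N) w, (E' w').card ≤ (E' w).card := by
    intro w' hw'
    obtain ⟨t, rfl⟩ := mem_orb.mp hw'
    apply Finset.card_le_card_of_injOn (fun s => t⁻¹ * s * t)
    · intro s hs
      rw [mem_coe, mem_filter] at hs ⊢
      obtain ⟨_, hs1, y, hy, hsy⟩ := hs
      refine ⟨mem_univ _, ?_, t⁻¹ • y, ?_, ?_⟩
      · rw [mul_smul, mul_smul, hs1, inv_smul_smul]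
      · rw [mem_Yw] at hy ⊢
        rw [← smul_dropLast, ← smul_dropLast, hy.1, inv_smul_smul, smul_length, hy.2, smul_length]
        exact ⟨rfl, rfl⟩
      · rw [mul_smul, mul_smul, smul_inv_smul, hsy]
    · intro a _ b _ hab
      simpa using hab
  have hEE : (E' w).card = (EE (MulAction.stabilizer (truncGroup G N) w) (Yw w)).card := by
    unfold EE
    refine Eq.symm ?_
    have := card_sub (H := MulAction.stabilizer (truncGroup G N) w)
      (fun γ : truncGroup G N => ∃ y ∈ Yw w, γ • y = y)
    convert! this using 2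
  have h1 := (card_le_card hsub).trans card_biUnion_le
  have h2 : ∑ w' ∈ orb (truncGroup G N) w, (E' w').card ≤ (orb (truncGroup G N) w).card * (E' w).card := by
    rw [← smul_eq_mul]
    exact sum_le_card_nsmul _ _ _ hconj
  have h3 := h1.trans h2
  rw [card_stab_eq, ← orb_mul_stb (S := truncGroup G N) w, ← hEE]
  calc _ ≤ (orb (truncGroup G N) w).card * (E' w).card * (stb (truncGroup G N) w).card := Nat.mul_le_mul_right _ h3
    _ = _ := by ring

/-- the proportions decrease -/
lemma fixRatio_antitone {G : Subgroup (Equiv.Perm (List (Fin d)))} (hG : G ≤ TreeAut d) :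
    Antitone (fixRatio G) := by
  classical
  apply antitone_nat_of_succ_le
  intro n
  have : Fintype (truncGroup G (n + 1)) := Fintype.ofFinite _
  rw [fixRatio_eq hG (le_refl (n + 1)), fixRatio_eq hG (Nat.le_succ n)]
  apply div_le_div_of_nonneg_right _ (by positivity)
  have : (univ.filter (fun γ : truncGroup G (n + 1) => ∃ u : List (Fin d), u.length = n + 1 ∧
      (γ : Equiv.Perm (List (Fin d))) u = u)).card ≤
      (univ.filter (fun γ : truncGroup G (n + 1) => ∃ u : List (Fin d), u.length = n ∧
      (γ : Equiv.Perm (List (Fin d))) u = u)).card := by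
    apply card_le_card
    intro γ hγ
    rw [mem_filter] at hγ ⊢
    obtain ⟨_, u, hu, h⟩ := hγ
    refine ⟨mem_univ _, u.dropLast, by rw [List.length_dropLast, hu]; rfl, ?_⟩
    rw [truncGroup_le G (n + 1) γ.2, h]
  exact_mod_cast this

end Pool.Agent.TreeFPP
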