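import Pool.Agent.TreeFPP.SharpPP
import Pool.Agent.TreeFPP.Tree3

open Finset

namespace Pool.Agent.TreeFPP

variable {d : ℕ}

/-- the first level when the degree is not a prime power -/
theorem fixRatio_one_le {G : Subgroup (Equiv.Perm (List (Fin d)))} (hG : G ≤ TreeAut d)
    (ht : LevelTransitive G) (hd : 3 ≤ d) (hpp : ¬ IsPrimePow d) :
    fixRatio G 1 ≤ 1 - ((d : ℝ) - 1) / (d * (d - 2)) := by
  classical
  have : Fintype (truncGroup G 1) := Fintype.ofFinite _
  set X := Xw ([] : List (Fin d)) with hX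
  have hcX : X.card = d := card_Xw _
  have hinv : ∀ γ : truncGroup G 1, ∀ x ∈ X, γ • x ∈ X := by
    intro γ x hx
    rw [hX, mem_Xw] at hx ⊢
    rw [← smul_dropLast, hx.1, smul_length, hx.2]
    exact ⟨aut_nil (truncGroup_le G 1 γ.2), rfl⟩
  have htr : ∀ x ∈ X, ∀ y ∈ X, ∃ γ : truncGroup G 1, γ • x = y := by
    intro x hx y hy
    rw [hX, mem_Xw] at hx hy
    exact trunc_trans hG ht (by rw [hx.2, hy.2]) (by rw [hx.2]; simp)
  have h1 : (X.card - 1) * Fintype.card (truncGroup G 1) ≤
      X.card * (X.card - 2) * (der (truncGroup G 1) X).card := by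
    rcases lemma_one hinv htr (by rw [hcX]; exact hd) with h | h
    · exact h
    · exfalso
      apply hpp
      have := prime_pow_of_sharp hinv (by rw [hcX]; omega) h
      rwa [hcX] at this
  rw [hcX] at h1
  rw [fixRatio_eq hG (le_refl 1)]
  set E := univ.filter (fun γ : truncGroup G 1 => ∃ u : List (Fin d), u.length = 1 ∧
      (γ : Equiv.Perm (List (Fin d))) u = u) with hE
  have hdisj : Disjoint E (der (truncGroup G 1) X) := by
    rw [Finset.disjoint_left]
    intro γ hγ hγ'
    rw [hE, mem_filter] at hγ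
    obtain ⟨_, u, hu, hγu⟩ := hγ
    rw [mem_der] at hγ'
    apply hγ' u _ hγu
    rw [hX, mem_Xw]
    refine ⟨?_, by simpa using hu⟩
    apply List.eq_nil_of_length_eq_zero
    rw [List.length_dropLast, hu]
  have h2 : E.card + (der (truncGroup G 1) X).card ≤ Fintype.card (truncGroup G 1) := by
    rw [← card_union_of_disjoint hdisj]
    exact card_le_univ _
  have hΓ : (0 : ℝ) < Fintype.card (truncGroup G 1) := by exact_mod_cast Fintype.card_pos
  have hd' : (3 : ℝ) ≤ d := by exact_mod_cast hd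
  have e1 : ((d - 1 : ℕ) : ℝ) = (d : ℝ) - 1 := by
    rw [Nat.cast_sub (by omega)]; simp
  have e2 : ((d - 2 : ℕ) : ℝ) = (d : ℝ) - 2 := by
    rw [Nat.cast_sub (by omega)]; simp
  have h1' : ((d : ℝ) - 1) * Fintype.card (truncGroup G 1) ≤
      d * (d - 2) * (der (truncGroup G 1) X).card := by
    rw [← e1, ← e2]
    exact_mod_cast h1
  have h2' : (E.card : ℝ) + (der (truncGroup G 1) X).card ≤ Fintype.card (truncGroup G 1) := by
    exact_mod_cast h2
  have hpos : (0 : ℝ) < d * (d - 2) := by nlinarith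
  rw [div_le_iff₀ hΓ]
  have h3 : ((d : ℝ) - 1) / (d * (d - 2)) * Fintype.card (truncGroup G 1) ≤
      (der (truncGroup G 1) X).card := by
    rw [div_mul_eq_mul_div, div_le_iff₀ hpos]
    linarith
  linarith

/-- the sharp bound is not attained when the degree is not a prime power -/
theorem strict {G : Subgroup (Equiv.Perm (List (Fin d)))} (hG : G ≤ TreeAut d)
    (ht : LevelTransitive G) (hd : 2 ≤ d) (hpp : ¬ IsPrimePow d) {a : ℝ} (ha : HasFPP G a) :
    a < 1 - (d : ℝ) / ((d : ℝ) ^ 2 - 1) := by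
  have hd3 : 3 ≤ d := by
    rcases Nat.lt_or_ge d 3 with h | h
    · exfalso
      have : d = 2 := by omega
      subst this
      exact hpp Nat.prime_two.isPrimePow
    · exact h
  have h1 : a ≤ fixRatio G 1 := (fixRatio_antitone hG).le_of_tendsto ha 1
  have h2 := fixRatio_one_le hG ht hd3 hpp
  have hd' : (3 : ℝ) ≤ d := by exact_mod_cast hd3
  have hpos : (0 : ℝ) < d * (d - 2) := by nlinarith
  have hpos2 : (0 : ℝ) < (d : ℝ) ^ 2 - 1 := by nlinarith
  have h3 : (d : ℝ) / ((d : ℝ) ^ 2 - 1) < ((d : ℝ) - 1) / (d * (d - 2)) := by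
    rw [div_lt_div_iff₀ hpos2 hpos]
    nlinarith
  linarith

end Pool.Agent.TreeFPP
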