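import Mathlib
import Pool.Agent.Helper84.Fpp.PoDefs

set_option autoImplicit false

/-!
# Coding of `[0, 2/3]` by words in the maps `x ↦ 1/2 + x/4` and `x ↦ x - x^2/4`
-/

namespace Pool.Agent.TreeFPP

open Pool.Agent.Helper84.Fpp

/-- the orbit map of the coding -/
noncomputable def cT (x : ℝ) : ℝ := if 5 / 9 < x then 4 * x - 2 else 2 - 2 * Real.sqrt (1 - x)

/-- the word of a point -/
noncomputable def cW (x : ℝ) : ℕ → Bool := fun n => decide (5 / 9 < cT^[n] x)

/-- the number of letters `true` among the first `j` -/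
noncomputable def cN : ℕ → ℝ → ℕ
  | 0, _ => 0
  | j + 1, x => (if 5 / 9 < x then 1 else 0) + cN j (cT x)

lemma cW_shift (x : ℝ) : (fun n => cW x (n + 1)) = cW (cT x) := by
  funext n
  simp [cW, Function.iterate_succ_apply]

lemma cW_zero (x : ℝ) : cW x 0 = decide (5 / 9 < x) := by simp [cW]

lemma cT_false {x : ℝ} (h0 : 0 ≤ x) (h : ¬ 5 / 9 < x) :
    0 ≤ cT x ∧ cT x ≤ 2 / 3 ∧ cT x - cT x ^ 2 / 4 = x := by
  push Not at h
  have hs := Real.sq_sqrt (show (0:ℝ) ≤ 1 - x by linarith)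
  have hs0 := Real.sqrt_nonneg (1 - x)
  have h1 : Real.sqrt (1 - x) ≤ 1 := by
    have h3 := Real.sqrt_le_sqrt (show 1 - x ≤ 1 by linarith)
    simpa using h3
  have h2 : 2 / 3 ≤ Real.sqrt (1 - x) := by
    apply Real.le_sqrt_of_sq_le
    norm_num
    linarith
  rw [cT, if_neg (by linarith)]
  refine ⟨by linarith, by linarith, by nlinarith⟩

lemma cT_mem {x : ℝ} (h0 : 0 ≤ x) (h1 : x ≤ 2 / 3) : 0 ≤ cT x ∧ cT x ≤ 2 / 3 := by
  by_cases h : 5 / 9 < x
  · rw [cT, if_pos h]
    constructor <;> linarith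
  · exact ⟨(cT_false h0 h).1, (cT_false h0 h).2.1⟩

lemma cT_pos {x : ℝ} (h0 : 0 < x) (_h1 : x ≤ 2 / 3) : 0 < cT x := by
  by_cases h : 5 / 9 < x
  · rw [cT, if_pos h]
    linarith
  · obtain ⟨a, _, c⟩ := cT_false h0.le h
    rcases a.lt_or_eq with h2 | h2
    · exact h2
    · rw [← h2] at c
      norm_num at c
      linarith

lemma iter_mem {x : ℝ} (h0 : 0 < x) (h1 : x ≤ 2 / 3) (n : ℕ) :
    0 < cT^[n] x ∧ cT^[n] x ≤ 2 / 3 := by
  induction n generalizing x with
  | zero => exact ⟨h0, h1⟩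
  | succ n ih =>
    rw [Function.iterate_succ_apply]
    exact ih (cT_pos h0 h1) (cT_mem h0.le h1).2

lemma main_bound (j : ℕ) : ∀ x : ℝ, 0 ≤ x → x ≤ 2 / 3 →
    0 ≤ pv j (cW x) - x ∧ pv j (cW x) ≤ 1 ∧ pv j (cW x) - x ≤ (1 / 4) ^ (cN j x) := by
  induction j with
  | zero =>
    intro x h0 h1
    simp only [pv, cN, pow_zero]
    refine ⟨by linarith, le_refl _, by linarith⟩
  | succ j ih =>
    intro x h0 h1
    obtain ⟨t0, t1⟩ := cT_mem h0 h1
    obtain ⟨a, b, c⟩ := ih (cT x) t0 t1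
    simp only [pv, cN, cW_shift, cW_zero, decide_eq_true_eq]
    by_cases h : 5 / 9 < x
    · rw [if_pos h, if_pos h, pow_add, pow_one]
      have hx : cT x = 4 * x - 2 := by rw [cT, if_pos h]
      rw [hx] at a b c ⊢
      refine ⟨by linarith, by linarith, by linarith⟩
    · rw [if_neg h, if_neg h, zero_add]
      obtain ⟨_, _, e⟩ := cT_false h0 h
      set p := pv j (cW (cT x)) with hp
      set y := cT x with hy
      have hd : p - p ^ 2 / 4 - x = (p - y) * (1 - (p + y) / 4) := by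
        rw [← e]; ring
      have hq : 0 ≤ (1 - (p + y) / 4) := by linarith
      have hq1 : (1 - (p + y) / 4) ≤ 1 := by linarith
      refine ⟨?_, ?_, ?_⟩
      · rw [hd]; exact mul_nonneg a hq
      · nlinarith [sq_nonneg p]
      · rw [hd]
        calc (p - y) * (1 - (p + y) / 4) ≤ (p - y) * 1 := mul_le_mul_of_nonneg_left hq1 a
          _ = p - y := mul_one _
          _ ≤ _ := c

lemma cN_add (n m : ℕ) : ∀ x, cN (n + m) x = cN n x + cN m (cT^[n] x) := by
  induction n with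
  | zero => intro x; simp [cN]
  | succ n ih =>
    intro x
    rw [Nat.add_right_comm]
    simp only [cN]
    rw [ih, Function.iterate_succ_apply]
    ring

lemma exists_big {x : ℝ} (h0 : 0 < x) (h1 : x ≤ 2 / 3) : ∃ n, 5 / 9 < cT^[n] x := by
  by_contra hcon
  push Not at hcon
  have key : ∀ n : ℕ, x + n * (x ^ 2 / 4) ≤ cT^[n] x := by
    intro n
    induction n with
    | zero => simp
    | succ n ih =>
      rw [Function.iterate_succ_apply']
      obtain ⟨a, _⟩ := iter_mem h0 h1 n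
      obtain ⟨p, q, r⟩ := cT_false a.le (not_lt.mpr (hcon n))
      have hxn : x ≤ cT^[n] x := by
        have : (0:ℝ) ≤ n * (x ^ 2 / 4) := by positivity
        linarith
      have hle : cT^[n] x ≤ cT (cT^[n] x) := by nlinarith [sq_nonneg (cT (cT^[n] x))]
      have hsq : x ^ 2 ≤ cT (cT^[n] x) ^ 2 := by
        apply pow_le_pow_left₀ h0.le
        linarith
      push_cast
      linarith
  obtain ⟨n, hn⟩ := exists_nat_gt (1 / (x ^ 2 / 4))
  have hpos : 0 < x ^ 2 / 4 := by positivity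
  rw [div_lt_iff₀ hpos] at hn
  have h2 := key n
  have h3 := (iter_mem h0 h1 n).2
  linarith

lemma exists_cN (K : ℕ) : ∀ x : ℝ, 0 < x → x ≤ 2 / 3 → ∃ n, K ≤ cN n x := by
  induction K with
  | zero => intro x _ _; exact ⟨0, Nat.zero_le _⟩
  | succ K ih =>
    intro x h0 h1
    obtain ⟨n, hn⟩ := exists_big h0 h1
    obtain ⟨a, b⟩ := iter_mem h0 h1 (n + 1)
    obtain ⟨m, hm⟩ := ih _ a b
    refine ⟨n + 1 + m, ?_⟩
    rw [cN_add, cN_add]
    have : cN 1 (cT^[n] x) = 1 := by simp [cN, hn]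
    omega

lemma cN_mono (x : ℝ) : Monotone (fun j => cN j x) := by
  apply monotone_nat_of_le_succ
  intro n
  show cN n x ≤ cN (n + 1) x
  rw [cN_add]
  omega

lemma pv_false (j : ℕ) :
    0 ≤ pv j (fun _ => false) ∧ pv j (fun _ => false) ≤ 4 / (j + 4) := by
  induction j with
  | zero => simp [pv]
  | succ j ih =>
    obtain ⟨a, b⟩ := ih
    simp only [pv, Bool.false_eq_true, if_false]
    set p := pv j (fun _ => false) with hp
    have hj : (0:ℝ) < j + 4 := by positivity
    have hj' : (0:ℝ) < j + 5 := by positivity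
    have hle : 4 / ((j:ℝ) + 4) ≤ 1 := by
      rw [div_le_one hj]
      have : (0:ℝ) ≤ j := Nat.cast_nonneg j
      linarith
    refine ⟨by nlinarith, ?_⟩
    have h1 : p - p ^ 2 / 4 ≤ 4 / ((j:ℝ) + 4) - (4 / ((j:ℝ) + 4)) ^ 2 / 4 := by
      nlinarith
    refine h1.trans ?_
    push_cast
    rw [show (j:ℝ) + 1 + 4 = j + 5 by ring]
    have e : 4 / ((j:ℝ) + 4) - (4 / ((j:ℝ) + 4)) ^ 2 / 4 = 4 * (j + 3) / (j + 4) ^ 2 := by
      field_simp
      ring
    rw [e, div_le_div_iff₀ (by positivity) hj']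
    nlinarith

/-- Every point of `[0, 2/3]` is coded by a word. -/
theorem coding (x : ℝ) (h0 : 0 ≤ x) (h1 : x ≤ 2 / 3) :
    ∃ w : ℕ → Bool, Filter.Tendsto (fun j => Pool.Agent.Helper84.Fpp.pv j w)
      Filter.atTop (nhds x) := by
  rcases h0.lt_or_eq with h | h
  · refine ⟨cW x, ?_⟩
    have hN : Filter.Tendsto (fun j => cN j x) Filter.atTop Filter.atTop := by
      apply Filter.tendsto_atTop_atTop_of_monotone (cN_mono x)
      intro K
      exact exists_cN K x h h1
    have hp : Filter.Tendsto (fun j => ((1:ℝ) / 4) ^ (cN j x)) Filter.atTop (nhds 0) :=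
      (tendsto_pow_atTop_nhds_zero_of_lt_one (by norm_num) (by norm_num)).comp hN
    have hd : Filter.Tendsto (fun j => pv j (cW x) - x) Filter.atTop (nhds 0) :=
      tendsto_of_tendsto_of_tendsto_of_le_of_le tendsto_const_nhds hp
        (fun j => (main_bound j x h0 h1).1) (fun j => (main_bound j x h0 h1).2.2)
    have := hd.add_const x
    simpa using this
  · subst h
    refine ⟨fun _ => false, ?_⟩
    have hb : Filter.Tendsto (fun j : ℕ => 4 / ((j:ℝ) + 4)) Filter.atTop (nhds 0) := by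
      apply Filter.Tendsto.const_div_atTop
      exact Filter.tendsto_atTop_add_const_right _ _ tendsto_natCast_atTop_atTop
    exact tendsto_of_tendsto_of_tendsto_of_le_of_le tendsto_const_nhds hb
      (fun j => (pv_false j).1) (fun j => (pv_false j).2)

end Pool.Agent.TreeFPP
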