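import Pool.Agent.TreeFPP.Aff

open Finset

namespace Pool.Agent.TreeFPP

variable {d : ℕ} {F : Type} [Field F] (e : F ≃ Fin d)

/-- the permutation of level `n` attached to `(a, b)` -/
def lvl (n : ℕ) (p : Fˣ × (Fin n → F)) : Equiv.Perm {w : List (Fin d) // w.length = n} :=
  levelHom d n ⟨letterPerm (fun k => affPerm e p.1 (if hk : k < n then p.2 ⟨k, hk⟩ else 0)),
    letterPerm_mem _⟩

lemma lvl_apply (n : ℕ) (p : Fˣ × (Fin n → F)) (w : {w : List (Fin d) // w.length = n}) :
    (lvl e n p w : List (Fin d)) = (w : List (Fin d)).mapIdx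
      (fun k i => affPerm e p.1 (if hk : k < n then p.2 ⟨k, hk⟩ else 0) i) := rfl

lemma range_lvl (n : ℕ) : Set.range (lvl e n) = levelPerms (affGroup e) n := by
  ext σ
  constructor
  · rintro ⟨p, rfl⟩
    exact ⟨_, ⟨p.1, _, rfl⟩, fun w => rfl⟩
  · rintro ⟨g, ⟨a, b, rfl⟩, h⟩
    refine ⟨(a, fun k => b k), ?_⟩
    ext1 w
    apply Subtype.ext
    rw [lvl_apply, h w, letterPerm_apply]
    apply List.ext_getElem
    · simp
    · intro k h1 h2
      have hk : k < n := by
        have := w.2
        simp at h2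
        omega
      simp [hk]

lemma lvl_injective {n : ℕ} (hn : 1 ≤ n) : Function.Injective (lvl e n) := by
  rintro ⟨a, b⟩ ⟨a', b'⟩ h
  have key : ∀ (x : F) (k : Fin n), (a : F) * x + b k = a' * x + b' k := by
    intro x k
    let w : {w : List (Fin d) // w.length = n} := ⟨List.replicate n (e x), by simp⟩
    have h1 := congrArg Subtype.val (congrArg (fun σ => σ w) h)
    simp only [lvl_apply] at h1
    have h2 := List.getElem_of_eq h1 (i := k) (by simp [w])
    simp [w, affPerm_apply] at h2
    exact h2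
  have hb : b = b' := by
    funext k
    have := key 0 k
    simpa using this
  have ha : a = a' := by
    have := key 1 ⟨0, hn⟩
    rw [hb] at this
    apply Units.ext
    simpa using this
  rw [ha, hb]

lemma lvl_fixed {n : ℕ} (hd : 0 < d) (p : Fˣ × (Fin n → F)) :
    (∃ w, lvl e n p w = w) ↔ (p.1 ≠ 1 ∨ p.2 = 0) := by
  constructor
  · rintro ⟨w, hw⟩
    by_cases ha : p.1 = 1
    · right
      funext k
      have h1 := congrArg Subtype.val hw
      rw [lvl_apply] at h1
      have hk : (k : ℕ) < (w : List (Fin d)).length := by rw [w.2]; exact k.2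
      have h2 := List.getElem_of_eq h1 (i := k) (by simpa using hk)
      simp only [List.getElem_mapIdx, affPerm_apply, ha, Units.val_one, one_mul, k.2, dif_pos,
        Fin.eta] at h2
      have h3 := congrArg e.symm h2
      rw [Equiv.symm_apply_apply] at h3
      simpa using h3
    · exact Or.inl ha
  · rintro (ha | hb)
    · have ha' : (1 : F) - (p.1 : F) ≠ 0 := by
        intro h
        apply ha
        apply Units.ext
        rw [Units.val_one]
        exact (sub_eq_zero.mp h).symm
      refine ⟨⟨List.ofFn (fun k : Fin n => e (p.2 k / (1 - p.1))), by simp⟩, ?_⟩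
      apply Subtype.ext
      rw [lvl_apply]
      apply List.ext_getElem
      · simp
      · intro k h1 h2
        have hk : k < n := by simpa using h2
        simp only [List.getElem_mapIdx, List.getElem_ofFn, affPerm_apply,
          Equiv.symm_apply_apply, hk, dif_pos]
        congr 1
        field_simp
        ring
    · refine ⟨⟨List.replicate n (e 0), by simp⟩, ?_⟩
      apply Subtype.ext
      rw [lvl_apply]
      apply List.ext_getElem
      · simp
      · intro k h1 h2
        simp [affPerm_apply, hb]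

lemma fixRatio_aff [Fintype F] (hd : 2 ≤ d) {n : ℕ} (hn : 1 ≤ n) :
    fixRatio (affGroup e) n = ((d : ℝ) - 2) / (d - 1) + 1 / (((d : ℝ) - 1) * (d : ℝ) ^ n) := by
  classical
  have hF : Fintype.card F = d := by rw [Fintype.card_congr e, Fintype.card_fin]
  have hU : Fintype.card Fˣ = d - 1 := by rw [Fintype.card_units, hF]
  have c1 : (levelPerms (affGroup e) n).ncard = (d - 1) * d ^ n := by
    rw [← range_lvl, ← Set.image_univ, Set.ncard_image_of_injective _ (lvl_injective e hn),
      Set.ncard_univ, Nat.card_eq_fintype_card, Fintype.card_prod, hU, Fintype.card_fun, hF,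
      Fintype.card_fin]
  have c2 : {σ ∈ levelPerms (affGroup e) n | ∃ w, σ w = w}.ncard =
      (d - 1) * d ^ n - (d ^ n - 1) := by
    have e1 : {σ ∈ levelPerms (affGroup e) n | ∃ w, σ w = w} =
        lvl e n '' {p | ¬ (p.1 = 1 ∧ p.2 ≠ 0)} := by
      ext σ
      rw [← range_lvl]
      constructor
      · rintro ⟨⟨p, rfl⟩, hw⟩
        refine ⟨p, ?_, rfl⟩
        have := (lvl_fixed e (by omega) p).mp hw
        simp only [Set.mem_setOf_eq]
        tauto
      · rintro ⟨p, hp, rfl⟩
        refine ⟨⟨p, rfl⟩, (lvl_fixed e (by omega) p).mpr ?_⟩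
        simp only [Set.mem_setOf_eq] at hp
        tauto
    rw [e1, Set.ncard_image_of_injective _ (lvl_injective e hn)]
    have e2 : {p : Fˣ × (Fin n → F) | ¬ (p.1 = 1 ∧ p.2 ≠ 0)} =
        (((univ : Finset (Fˣ × (Fin n → F))) \
          (((univ : Finset (Fin n → F)).erase 0).image (fun b => ((1 : Fˣ), b))) : Finset _) :
          Set _) := by
      ext p
      rw [mem_coe, mem_sdiff, mem_image]
      simp only [Set.mem_setOf_eq, mem_univ, true_and, mem_erase, and_true]
      constructor
      · rintro h ⟨b, hb, rfl⟩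
        exact h ⟨rfl, hb⟩
      · rintro h ⟨h1, h2⟩
        exact h ⟨p.2, h2, by rw [← h1]⟩
    rw [e2, Set.ncard_coe_finset, card_sdiff_of_subset (subset_univ _), card_univ,
      card_image_of_injective, card_erase_of_mem (mem_univ _), card_univ, Fintype.card_prod, hU,
      Fintype.card_fun, hF, Fintype.card_fin]
    intro b b' h
    exact (Prod.mk.inj h).2
  unfold fixRatio
  rw [c1, c2]
  have hpow : 1 ≤ d ^ n := Nat.one_le_pow _ _ (by omega)
  have hle : d ^ n - 1 ≤ (d - 1) * d ^ n := by
    calc d ^ n - 1 ≤ 1 * d ^ n := by omega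
      _ ≤ (d - 1) * d ^ n := Nat.mul_le_mul_right _ (by omega)
  rw [Nat.cast_sub hle]
  push_cast [Nat.cast_sub (show 1 ≤ d by omega), Nat.cast_sub hpow]
  have hd' : (2 : ℝ) ≤ d := by exact_mod_cast hd
  have h1 : (d : ℝ) - 1 ≠ 0 := by linarith
  have h2 : (d : ℝ) ^ n ≠ 0 := by positivity
  field_simp
  ring

theorem aff_hasFPP [Fintype F] (hd : 2 ≤ d) : HasFPP (affGroup e) (((d : ℝ) - 2) / (d - 1)) := by
  unfold HasFPP
  have hd' : (2 : ℝ) ≤ d := by exact_mod_cast hd
  have h1 : Filter.Tendsto (fun n : ℕ => ((d : ℝ) - 2) / (d - 1) +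
      1 / (((d : ℝ) - 1) * (d : ℝ) ^ n)) Filter.atTop (nhds (((d : ℝ) - 2) / (d - 1) + 0)) := by
    apply Filter.Tendsto.add tendsto_const_nhds
    have h2 : Filter.Tendsto (fun n : ℕ => (1 / ((d : ℝ) - 1)) * (1 / (d : ℝ)) ^ n) Filter.atTop
        (nhds ((1 / ((d : ℝ) - 1)) * 0)) := by
      apply Filter.Tendsto.const_mul
      apply tendsto_pow_atTop_nhds_zero_of_lt_one
      · positivity
      · rw [div_lt_one (by linarith)]
        linarith
    rw [mul_zero] at h2
    refine h2.congr (fun n => ?_)
    rw [one_div, one_div, one_div, inv_pow, mul_inv]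
  rw [add_zero] at h1
  apply h1.congr'
  rw [Filter.EventuallyEq, Filter.eventually_atTop]
  exact ⟨1, fun n hn => (fixRatio_aff e hd hn).symm⟩

/-- prime powers -/
theorem mem_spectrum (d : ℕ) (hp : IsPrimePow d) : ((d : ℝ) - 2) / (d - 1) ∈ fppSpectrum d := by
  classical
  have hd : 2 ≤ d := hp.one_lt
  obtain ⟨p, k, hprime, hk, rfl⟩ := hp
  haveI : Fact p.Prime := ⟨hprime.nat_prime⟩
  haveI : Fintype (GaloisField p k) := Fintype.ofFinite _
  have hcard : Fintype.card (GaloisField p k) = p ^ k := by
    rw [← Nat.card_eq_fintype_card]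
    exact GaloisField.card p k hk.ne'
  let e : GaloisField p k ≃ Fin (p ^ k) := Fintype.equivFinOfCardEq hcard
  exact ⟨affGroup e, affGroup_le e, affGroup_transitive e, aff_hasFPP e hd⟩

end Pool.Agent.TreeFPP
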