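import Pool.Agent.TreeFPP.Tree4

open Finset

namespace Pool.Agent.TreeFPP

variable {d : ℕ}

/-- letterwise action -/
def letterPerm (σ : ℕ → Equiv.Perm (Fin d)) : Equiv.Perm (List (Fin d)) where
  toFun u := u.mapIdx (fun k i => σ k i)
  invFun u := u.mapIdx (fun k i => (σ k).symm i)
  left_inv u := by
    apply List.ext_getElem
    · simp
    · intro k h1 h2
      simp
  right_inv u := by
    apply List.ext_getElem
    · simp
    · intro k h1 h2
      simp

lemma letterPerm_apply (σ : ℕ → Equiv.Perm (Fin d)) (u : List (Fin d)) :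
    letterPerm σ u = u.mapIdx (fun k i => σ k i) := rfl

lemma letterPerm_mem (σ : ℕ → Equiv.Perm (Fin d)) : letterPerm σ ∈ TreeAut d := by
  intro u
  rw [letterPerm_apply, letterPerm_apply]
  apply List.ext_getElem
  · simp
  · intro k h1 h2
    simp

section Field

variable {F : Type} [Field F] (e : F ≃ Fin d)

/-- affine permutations of letters -/
def affPerm (a : Fˣ) (b : F) : Equiv.Perm (Fin d) where
  toFun i := e ((a : F) * e.symm i + b)
  invFun i := e ((a⁻¹ : Fˣ) * (e.symm i - b))
  left_inv i := by simp
  right_inv i := by simp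

lemma affPerm_apply (a : Fˣ) (b : F) (i : Fin d) :
    affPerm e a b i = e ((a : F) * e.symm i + b) := rfl

/-- the group of letterwise affine maps with constant linear part -/
def affGroup : Subgroup (Equiv.Perm (List (Fin d))) where
  carrier := {g | ∃ (a : Fˣ) (b : ℕ → F), g = letterPerm (fun k => affPerm e a (b k))}
  one_mem' := by
    refine ⟨1, 0, ?_⟩
    ext1 u
    rw [letterPerm_apply]
    apply List.ext_getElem
    · simp
    · intro k h1 h2
      simp [affPerm_apply]
  mul_mem' := by
    rintro _ _ ⟨a, b, rfl⟩ ⟨a', b', rfl⟩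
    refine ⟨a * a', fun k => a * b' k + b k, ?_⟩
    ext1 u
    rw [Equiv.Perm.mul_apply, letterPerm_apply, letterPerm_apply, letterPerm_apply]
    apply List.ext_getElem
    · simp
    · intro k h1 h2
      simp [affPerm_apply, mul_add, mul_assoc, add_assoc]
  inv_mem' := by
    rintro _ ⟨a, b, rfl⟩
    refine ⟨a⁻¹, fun k => -((a⁻¹ : Fˣ) : F) * b k, ?_⟩
    rw [inv_eq_iff_mul_eq_one]
    ext1 u
    rw [Equiv.Perm.mul_apply, letterPerm_apply, letterPerm_apply]
    apply List.ext_getElem
    · simp
    · intro k h1 h2
      simp [affPerm_apply, mul_add]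

lemma affGroup_le : affGroup e ≤ TreeAut d := by
  rintro _ ⟨a, b, rfl⟩
  exact letterPerm_mem _

lemma affGroup_transitive : LevelTransitive (affGroup e) := by
  intro u w h
  refine ⟨_, ⟨1, fun k => if hk : k < w.length then e.symm w[k] -
    (if hk' : k < u.length then e.symm u[k] else 0) else 0, rfl⟩, ?_⟩
  rw [letterPerm_apply]
  apply List.ext_getElem
  · simp [h]
  · intro k h1 h2
    have h3 : k < u.length := by rw [h]; exact h2
    simp [affPerm_apply, h2, h3]

end Field

end Pool.Agent.TreeFPP
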