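import Pool.Agent.TreeFPP.Tree4

/-!
# The group `AGL_1(F[[t]])` acting on the tree of `F[[t]]`
-/

open Finset PowerSeries

namespace Pool.Agent.TreeFPP

variable {d : ℕ} {F : Type} [Field F] (e : F ≃ Fin d)

/-- the power series of a word -/
noncomputable def Pw (w : List (Fin d)) : PowerSeries F :=
  PowerSeries.mk (fun i => if h : i < w.length then e.symm w[i] else 0)

/-- the word of length `n` of a power series -/
noncomputable def Wd (n : ℕ) (f : PowerSeries F) : List (Fin d) :=
  List.ofFn (fun i : Fin n => e (coeff (i : ℕ) f))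

@[simp] lemma length_Wd (n : ℕ) (f : PowerSeries F) : (Wd e n f).length = n := by
  simp [Wd]

lemma getElem_Wd (n : ℕ) (f : PowerSeries F) (i : ℕ) (h : i < (Wd e n f).length) :
    (Wd e n f)[i] = e (coeff i f) := by
  simp [Wd]

lemma coeff_Pw_Wd {n i : ℕ} (f : PowerSeries F) (h : i < n) :
    coeff i (Pw e (Wd e n f)) = coeff i f := by
  rw [Pw, coeff_mk]
  have h' : i < (Wd e n f).length := by simpa using h
  rw [dif_pos h', getElem_Wd, Equiv.symm_apply_apply]

lemma Wd_eq_iff {n : ℕ} {f g : PowerSeries F} : Wd e n f = Wd e n g ↔ X ^ n ∣ f - g := by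
  rw [X_pow_dvd_iff]
  constructor
  · intro h i hi
    have h1 : i < (Wd e n f).length := by simpa using hi
    have h2 := List.getElem_of_eq h h1
    rw [getElem_Wd, getElem_Wd] at h2
    rw [map_sub, e.injective h2, sub_self]
  · intro h
    apply List.ext_getElem
    · simp
    · intro i h1 h2
      rw [getElem_Wd, getElem_Wd]
      have := h i (by simpa using h1)
      rw [map_sub, sub_eq_zero] at this
      rw [this]

lemma Wd_Pw (w : List (Fin d)) : Wd e w.length (Pw e w) = w := by
  apply List.ext_getElem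
  · simp
  · intro i h1 h2
    rw [getElem_Wd, Pw, coeff_mk, dif_pos h2, Equiv.apply_symm_apply]

lemma Wd_Pw' {n : ℕ} {w : List (Fin d)} (h : w.length = n) : Wd e n (Pw e w) = w := by
  subst h; exact Wd_Pw e w

lemma dvd_Pw_Wd (n : ℕ) (f : PowerSeries F) : X ^ n ∣ Pw e (Wd e n f) - f := by
  rw [X_pow_dvd_iff]
  intro i hi
  rw [map_sub, coeff_Pw_Wd e f hi, sub_self]

lemma Wd_dropLast (n : ℕ) (f : PowerSeries F) : (Wd e n f).dropLast = Wd e (n - 1) f := by
  apply List.ext_getElem
  · simp
  · intro i h1 h2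
    rw [List.getElem_dropLast, getElem_Wd, getElem_Wd]

/-- the affine map on words -/
noncomputable def act (a b : PowerSeries F) (w : List (Fin d)) : List (Fin d) :=
  Wd e w.length (a * Pw e w + b)

@[simp] lemma length_act (a b : PowerSeries F) (w : List (Fin d)) :
    (act e a b w).length = w.length := by simp [act]

lemma act_Wd (a b : PowerSeries F) (n : ℕ) (f : PowerSeries F) :
    act e a b (Wd e n f) = Wd e n (a * f + b) := by
  rw [act, length_Wd, Wd_eq_iff]
  have h1 : a * Pw e (Wd e n f) + b - (a * f + b) = a * (Pw e (Wd e n f) - f) := by ring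
  rw [h1]
  exact Dvd.dvd.mul_left (dvd_Pw_Wd e n f) a

lemma act_act (a b a' b' : PowerSeries F) (w : List (Fin d)) :
    act e a b (act e a' b' w) = act e (a * a') (a * b' + b) w := by
  conv_lhs => rw [act.eq_def e a' b' w]
  rw [act_Wd, act]
  congr 1
  ring

lemma act_one (w : List (Fin d)) : act e 1 0 w = w := by
  rw [act, one_mul, add_zero, Wd_Pw]

lemma act_dropLast (a b : PowerSeries F) (w : List (Fin d)) :
    act e a b w.dropLast = (act e a b w).dropLast := by
  have h1 : w = Wd e w.length (Pw e w) := (Wd_Pw e w).symm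
  have h2 : w.dropLast = Wd e (w.length - 1) (Pw e w) := by
    conv_lhs => rw [h1]
    rw [Wd_dropLast]
  rw [h2, act_Wd, act, Wd_dropLast]

/-- the affine permutation -/
noncomputable def aglPerm (a : (PowerSeries F)ˣ) (b : PowerSeries F) :
    Equiv.Perm (List (Fin d)) where
  toFun := act e a b
  invFun := act e ((a⁻¹ : (PowerSeries F)ˣ) : PowerSeries F)
    (-((a⁻¹ : (PowerSeries F)ˣ) : PowerSeries F) * b)
  left_inv w := by
    rw [act_act]
    simp only [Units.inv_mul, neg_mul, add_neg_cancel]
    exact act_one e w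
  right_inv w := by
    rw [act_act]
    simp only [Units.mul_inv, neg_mul, mul_neg, Units.mul_inv_cancel_left, neg_add_cancel]
    exact act_one e w

lemma aglPerm_apply (a : (PowerSeries F)ˣ) (b : PowerSeries F) (w : List (Fin d)) :
    aglPerm e a b w = act e a b w := rfl

lemma aglPerm_mem (a : (PowerSeries F)ˣ) (b : PowerSeries F) : aglPerm e a b ∈ TreeAut d := by
  intro w
  exact act_dropLast e a b w

/-- the affine group -/
noncomputable def aglGroup : Subgroup (Equiv.Perm (List (Fin d))) where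
  carrier := {g | ∃ (a : (PowerSeries F)ˣ) (b : PowerSeries F), g = aglPerm e a b}
  one_mem' := by
    refine ⟨1, 0, ?_⟩
    ext1 w
    rw [aglPerm_apply, Units.val_one, act_one]
    rfl
  mul_mem' := by
    rintro _ _ ⟨a, b, rfl⟩ ⟨a', b', rfl⟩
    refine ⟨a * a', a * b' + b, ?_⟩
    ext1 w
    rw [Equiv.Perm.mul_apply, aglPerm_apply, aglPerm_apply, aglPerm_apply, act_act, Units.val_mul]
  inv_mem' := by
    rintro _ ⟨a, b, rfl⟩
    refine ⟨a⁻¹, -((a⁻¹ : (PowerSeries F)ˣ) : PowerSeries F) * b, ?_⟩
    ext1 w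
    rfl

lemma aglGroup_le : aglGroup e ≤ TreeAut d := by
  rintro _ ⟨a, b, rfl⟩
  exact aglPerm_mem e a b

lemma aglGroup_transitive : LevelTransitive (aglGroup e) := by
  intro u w h
  refine ⟨_, ⟨1, Pw e w - Pw e u, rfl⟩, ?_⟩
  rw [aglPerm_apply, act, Units.val_one, one_mul, add_sub_cancel, h, Wd_Pw]

end Pool.Agent.TreeFPP
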