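import Pool.Agent.TreeFPP.Agl

/-!
# The fixed-point proportion of `AGL_1(F[[t]])`
-/

open Finset PowerSeries

namespace Pool.Agent.TreeFPP

lemma ncard_image_eq {X Y Z : Type*} (f : X → Y) (g : X → Z) (s : Set X)
    (h : ∀ x ∈ s, ∀ y ∈ s, f x = f y ↔ g x = g y) : (f '' s).ncard = (g '' s).ncard := by
  classical
  have key : ∀ y ∈ f '' s, ∃ x ∈ s, f x = y := fun y hy => hy
  choose F hF1 hF2 using key
  refine Set.ncard_congr (fun y hy => g (F y hy)) ?_ ?_ ?_
  · intro y hy
    exact ⟨F y hy, hF1 y hy, rfl⟩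
  · intro y y' hy hy' hyy
    rw [← hF2 y hy, ← hF2 y' hy']
    exact (h _ (hF1 y hy) _ (hF1 y' hy')).mpr hyy
  · rintro _ ⟨x, hx, rfl⟩
    have h1 : f x ∈ f '' s := ⟨x, hx, rfl⟩
    exact ⟨f x, h1, (h _ (hF1 _ h1) _ hx).mp (hF2 _ h1)⟩

variable {d : ℕ} {F : Type} [Field F] (e : F ≃ Fin d)

/-- the permutation of level `n` -/
noncomputable def alvl (n : ℕ) (p : (PowerSeries F)ˣ × PowerSeries F) :
    Equiv.Perm {w : List (Fin d) // w.length = n} :=
  levelHom d n ⟨aglPerm e p.1 p.2, aglPerm_mem e p.1 p.2⟩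

lemma alvl_apply (n : ℕ) (p : (PowerSeries F)ˣ × PowerSeries F)
    (w : {w : List (Fin d) // w.length = n}) :
    (alvl e n p w : List (Fin d)) = act e p.1 p.2 w := rfl

lemma image_alvl (n : ℕ) : alvl e n '' Set.univ = levelPerms (aglGroup e) n := by
  ext σ
  constructor
  · rintro ⟨p, _, rfl⟩
    exact ⟨_, ⟨p.1, p.2, rfl⟩, fun w => rfl⟩
  · rintro ⟨g, ⟨a, b, rfl⟩, h⟩
    refine ⟨(a, b), trivial, ?_⟩
    ext1 w
    apply Subtype.ext
    rw [h w]
    rfl

lemma image_alvl_fix (n : ℕ) : alvl e n '' {p | ∃ w, alvl e n p w = w} =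
    {σ ∈ levelPerms (aglGroup e) n | ∃ w, σ w = w} := by
  rw [← image_alvl]
  ext σ
  constructor
  · rintro ⟨p, hp, rfl⟩
    exact ⟨⟨p, trivial, rfl⟩, hp⟩
  · rintro ⟨⟨p, _, rfl⟩, hp⟩
    exact ⟨p, hp, rfl⟩

/-- the coefficients below `n` of `a - 1` and `b` -/
noncomputable def cf (n : ℕ) (p : (PowerSeries F)ˣ × PowerSeries F) : (Fin n → F) × (Fin n → F) :=
  (fun i => coeff (i : ℕ) ((p.1 : PowerSeries F) - 1), fun i => coeff (i : ℕ) p.2)

lemma cf_eq_iff {n : ℕ} {p q : (PowerSeries F)ˣ × PowerSeries F} :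
    cf n p = cf n q ↔ X ^ n ∣ (p.1 : PowerSeries F) - (q.1 : PowerSeries F) ∧ X ^ n ∣ p.2 - q.2 := by
  rw [X_pow_dvd_iff, X_pow_dvd_iff, cf, cf, Prod.mk.injEq, funext_iff, funext_iff]
  constructor
  · rintro ⟨h1, h2⟩
    refine ⟨fun m hm => ?_, fun m hm => ?_⟩
    · have := h1 ⟨m, hm⟩
      simp only [map_sub] at this
      rw [map_sub]
      linear_combination this
    · have := h2 ⟨m, hm⟩
      rw [map_sub, this, sub_self]
  · rintro ⟨h1, h2⟩
    refine ⟨fun m => ?_, fun m => ?_⟩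
    · have := h1 m m.2
      rw [map_sub] at this
      simp only [map_sub]
      linear_combination this
    · have := h2 m m.2
      rw [map_sub] at this
      linear_combination this

lemma alvl_eq_iff {n : ℕ} {p q : (PowerSeries F)ˣ × PowerSeries F} :
    alvl e n p = alvl e n q ↔ cf n p = cf n q := by
  rw [cf_eq_iff]
  constructor
  · intro h
    have key : ∀ f : PowerSeries F, X ^ n ∣ ((p.1 : PowerSeries F) * f + p.2) -
        ((q.1 : PowerSeries F) * f + q.2) := by
      intro f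
      have h1 := congrArg (fun σ => ((σ ⟨Wd e n f, length_Wd e n f⟩ :
        {w : List (Fin d) // w.length = n}) : List (Fin d))) h
      simp only [alvl_apply, act_Wd] at h1
      exact (Wd_eq_iff e).mp h1
    have h0 := key 0
    simp only [mul_zero, zero_add] at h0
    refine ⟨?_, h0⟩
    have h1 := key 1
    have h2 := dvd_sub h1 h0
    have h3 : (p.1 : PowerSeries F) * 1 + p.2 - (q.1 * 1 + q.2) - (p.2 - q.2) = p.1 - q.1 := by
      ring
    rwa [h3] at h2
  · rintro ⟨h1, h2⟩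
    ext1 w
    apply Subtype.ext
    rw [alvl_apply, alvl_apply, act, act, Wd_eq_iff, w.2]
    have h3 : (p.1 : PowerSeries F) * Pw e w + p.2 - (q.1 * Pw e w + q.2) =
      (p.1 - q.1) * Pw e w + (p.2 - q.2) := by ring
    rw [h3]
    exact dvd_add (Dvd.dvd.mul_right h1 _) h2

/-- the condition for a fixed point -/
def FixC {n : ℕ} (p : (Fin n → F) × (Fin n → F)) : Prop :=
  ∀ i, (∀ j ≤ i, p.1 j = 0) → p.2 i = 0

lemma fix_iff {n : ℕ} (p : (PowerSeries F)ˣ × PowerSeries F) :
    (∃ w, alvl e n p w = w) ↔ FixC (cf n p) := by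
  constructor
  · rintro ⟨w, hw⟩ i hi
    have h1 := congrArg Subtype.val hw
    rw [alvl_apply] at h1
    have hw2 : (w : List (Fin d)) = Wd e n (Pw e w) := (Wd_Pw' e w.2).symm
    rw [hw2, act_Wd, Wd_eq_iff] at h1
    have h2 : X ^ ((i : ℕ) + 1) ∣ ((p.1 : PowerSeries F) - 1) := by
      rw [X_pow_dvd_iff]
      intro m hm
      exact hi ⟨m, lt_of_lt_of_le hm i.2⟩ (Fin.mk_le_of_le_val (Nat.lt_succ_iff.mp hm))
    have h3 : X ^ ((i : ℕ) + 1) ∣ (p.1 : PowerSeries F) * Pw e w + p.2 - Pw e w :=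
      dvd_trans (pow_dvd_pow X i.2) h1
    have h4 : (p.1 : PowerSeries F) * Pw e w + p.2 - Pw e w = (p.1 - 1) * Pw e w + p.2 := by ring
    rw [h4] at h3
    have h5 : X ^ ((i : ℕ) + 1) ∣ p.2 := (dvd_add_right (Dvd.dvd.mul_right h2 _)).mp h3
    rw [X_pow_dvd_iff] at h5
    exact h5 i (Nat.lt_succ_self _)
  · intro h
    by_cases ha : X ^ n ∣ (p.1 : PowerSeries F) - 1
    · refine ⟨⟨Wd e n 0, by simp⟩, ?_⟩
      apply Subtype.ext
      rw [alvl_apply, act_Wd, Wd_eq_iff, mul_zero, zero_add, sub_zero, X_pow_dvd_iff]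
      intro m hm
      refine h ⟨m, hm⟩ (fun j hj => ?_)
      rw [X_pow_dvd_iff] at ha
      exact ha j j.2
    · -- the first nonzero coefficient of `a - 1`
      classical
      have hex : ∃ m, m < n ∧ coeff m ((p.1 : PowerSeries F) - 1) ≠ 0 := by
        rw [X_pow_dvd_iff] at ha
        push Not at ha
        exact ha
      obtain ⟨hv1, hv2⟩ := Nat.find_spec hex
      set v := Nat.find hex with hv
      have hmin : ∀ m < v, coeff m ((p.1 : PowerSeries F) - 1) = 0 := by
        intro m hm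
        have := Nat.find_min hex hm
        push Not at this
        exact this (lt_trans hm hv1)
      have hd1 : X ^ v ∣ (p.1 : PowerSeries F) - 1 := by
        rw [X_pow_dvd_iff]; exact hmin
      obtain ⟨u, hu⟩ := hd1
      have hu0 : constantCoeff u ≠ 0 := by
        have h1 : coeff v ((p.1 : PowerSeries F) - 1) = coeff 0 u := by
          rw [hu]
          have := coeff_X_pow_mul u v 0
          simpa using this
        rw [h1] at hv2
        simpa using hv2
      have huu : IsUnit u := by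
        rw [isUnit_iff_constantCoeff]
        exact isUnit_iff_ne_zero.mpr hu0
      obtain ⟨u', rfl⟩ := huu
      have hd2 : X ^ v ∣ p.2 := by
        rw [X_pow_dvd_iff]
        intro m hm
        refine h ⟨m, lt_trans hm hv1⟩ (fun j hj => ?_)
        exact hmin j (lt_of_le_of_lt hj hm)
      obtain ⟨b', hb'⟩ := hd2
      refine ⟨⟨Wd e n (-(((u'⁻¹ : (PowerSeries F)ˣ)) : PowerSeries F) * b'), by simp⟩, ?_⟩
      apply Subtype.ext
      rw [alvl_apply, act_Wd]
      congr 1
      have ha' : (p.1 : PowerSeries F) = 1 + X ^ v * (u' : PowerSeries F) := by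
        rw [← hu]; ring
      rw [ha', hb']
      have h6 : (u' : PowerSeries F) * ((u'⁻¹ : (PowerSeries F)ˣ) : PowerSeries F) = 1 :=
        Units.mul_inv u'
      linear_combination (-(X ^ v * b')) * h6

end Pool.Agent.TreeFPP
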