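import Mathlib

namespace Pool.Agent.TreeFPP

/-- The automorphism group of the `d`-regular rooted tree. The vertices are the words over
`Fin d`, the root is the empty word, and the parent of a word is the word without its last letter
(the parent of the root is the root). An automorphism is a bijection of the vertices that commutes
with the parent map. -/
def TreeAut (d : ℕ) : Subgroup (Equiv.Perm (List (Fin d))) where
  carrier := {g | ∀ w, g w.dropLast = (g w).dropLast}
  one_mem' := fun _ => rfl
  mul_mem' := by
    intro a b ha hb w
    rw [Equiv.Perm.mul_apply, Equiv.Perm.mul_apply, hb, ha]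
  inv_mem' := by
    intro a ha w
    apply a.injective
    rw [ha]
    change a (a.symm _) = (a (a.symm _)).dropLast
    rw [Equiv.apply_symm_apply, Equiv.apply_symm_apply]

variable {d : ℕ}

/-- The group is transitive on every level: any two words of the same length are related. -/
def LevelTransitive (G : Subgroup (Equiv.Perm (List (Fin d)))) : Prop :=
  ∀ u w : List (Fin d), u.length = w.length → ∃ g ∈ G, g u = w

/-- The set `π_n(G)` of permutations of level `n` induced by `G`. -/
def levelPerms (G : Subgroup (Equiv.Perm (List (Fin d)))) (n : ℕ) :
    Set (Equiv.Perm {w : List (Fin d) // w.length = n}) :=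
  {σ | ∃ g ∈ G, ∀ w, (σ w : List (Fin d)) = g w}

/-- The proportion of elements of `π_n(G)` that fix at least one vertex of level `n`. -/
noncomputable def fixRatio (G : Subgroup (Equiv.Perm (List (Fin d)))) (n : ℕ) : ℝ :=
  ({σ ∈ levelPerms G n | ∃ w, σ w = w}.ncard : ℝ) / ((levelPerms G n).ncard : ℝ)

/-- The fixed-point proportion of `G` is `a`. -/
def HasFPP (G : Subgroup (Equiv.Perm (List (Fin d)))) (a : ℝ) : Prop :=
  Filter.Tendsto (fixRatio G) Filter.atTop (nhds a)

/-- The fixed-point proportions of the level-transitive groups of automorphisms. -/
def fppSpectrum (d : ℕ) : Set ℝ :=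
  {a | ∃ G : Subgroup (Equiv.Perm (List (Fin d))), G ≤ TreeAut d ∧ LevelTransitive G ∧ HasFPP G a}

end Pool.Agent.TreeFPP
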