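import Mathlib

open Finset

namespace Pool.Agent.TreeFPP

section Count

variable {S A : Type*} [Group S] [Fintype S] [MulAction S A] [DecidableEq A]

/-- stabiliser as a finset -/
def stb (S : Type*) {A : Type*} [Group S] [Fintype S] [MulAction S A] [DecidableEq A] (x : A) :
    Finset S := univ.filter (fun s => s • x = x)

/-- orbit as a finset -/
def orb (S : Type*) {A : Type*} [Group S] [Fintype S] [MulAction S A] [DecidableEq A] (x : A) :
    Finset A := univ.image (fun s : S => s • x)

lemma mem_stb {x : A} {s : S} : s ∈ stb S x ↔ s • x = x := by simp [stb]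

lemma mem_orb {x y : A} : y ∈ orb S x ↔ ∃ s : S, s • x = y := by simp [orb]

/-- fibre counting for the orbit map -/
lemma fib_card (x : A) (s₀ : S) :
    (univ.filter (fun s : S => s • x = s₀ • x)).card = (stb S x).card := by
  apply Finset.card_bij (fun s _ => s₀⁻¹ * s)
  · intro s hs
    rw [mem_filter] at hs
    rw [mem_stb, mul_smul, hs.2, inv_smul_smul]
  · intro a _ b _ h
    exact mul_left_cancel h
  · intro b hb
    rw [mem_stb] at hb
    refine ⟨s₀ * b, ?_, by simp⟩
    rw [mem_filter]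
    exact ⟨mem_univ _, by rw [mul_smul, hb]⟩

lemma orb_mul_stb (x : A) : (orb S x).card * (stb S x).card = Fintype.card S := by
  rw [← card_univ (α := S)]
  rw [Finset.card_eq_sum_card_image (fun s : S => s • x) univ]
  rw [Finset.sum_const_nat (m := (stb S x).card)]
  · rfl
  · intro y hy
    obtain ⟨s₀, _, rfl⟩ := mem_image.mp hy
    exact fib_card x s₀

/-- number of points of `X` fixed by `s` -/
def fx (X : Finset A) (s : S) : Finset A := X.filter (fun x => s • x = x)

lemma mem_fx {X : Finset A} {s : S} {x : A} : x ∈ fx X s ↔ x ∈ X ∧ s • x = x := by simp [fx]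

/-- double counting -/
lemma sum_fx (X : Finset A) : ∑ s : S, (fx X s).card = ∑ x ∈ X, (stb S x).card := by
  simp only [fx, stb, card_filter]
  rw [sum_comm]

lemma sum_fx_of_trans (X : Finset A) (hX : X.Nonempty) (h : ∀ x ∈ X, orb S x = X) :
    ∑ s : S, (fx X s).card = Fintype.card S := by
  rw [sum_fx]
  have h1 : ∀ x ∈ X, X.card * (stb S x).card = Fintype.card S := by
    intro x hx
    have := orb_mul_stb (S := S) x
    rwa [h x hx] at this
  obtain ⟨x₀, hx₀⟩ := hX
  have hpos : 0 < X.card := card_pos.mpr ⟨x₀, hx₀⟩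
  have h2 : ∀ x ∈ X, (stb S x).card = (stb S x₀).card := by
    intro x hx
    have e := (h1 x hx).trans (h1 x₀ hx₀).symm
    exact Nat.eq_of_mul_eq_mul_left hpos e
  rw [sum_congr rfl h2, sum_const, smul_eq_mul]
  exact h1 x₀ hx₀

/-- two different orbits -/
lemma two_card_le (Z : Finset A) {p q : A} (hp : orb S p ⊆ Z) (hq : orb S q ⊆ Z)
    (hpq : q ∉ orb S p) : 2 * Fintype.card S ≤ ∑ z ∈ Z, (stb S z).card := by
  have horb : ∀ p : A, ∑ z ∈ orb S p, (stb S z).card = Fintype.card S := by
    intro p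
    rw [← sum_fx, sum_fx_of_trans]
    · exact ⟨p, mem_orb.mpr ⟨1, one_smul _ _⟩⟩
    · intro x hx
      obtain ⟨s, rfl⟩ := mem_orb.mp hx
      ext y
      rw [mem_orb, mem_orb]
      constructor
      · rintro ⟨t, rfl⟩
        exact ⟨t * s, by rw [mul_smul]⟩
      · rintro ⟨t, rfl⟩
        exact ⟨t * s⁻¹, by rw [mul_smul, inv_smul_smul]⟩
  have hdisj : Disjoint (orb S p) (orb S q) := by
    rw [Finset.disjoint_left]
    intro y h1 h2
    obtain ⟨s, hs⟩ := mem_orb.mp h1
    obtain ⟨t, ht⟩ := mem_orb.mp h2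
    apply hpq
    rw [mem_orb]
    exact ⟨t⁻¹ * s, by rw [mul_smul, hs, ← ht, inv_smul_smul]⟩
  calc 2 * Fintype.card S = ∑ z ∈ orb S p, (stb S z).card + ∑ z ∈ orb S q, (stb S z).card := by
        rw [horb, horb]; ring
    _ = ∑ z ∈ orb S p ∪ orb S q, (stb S z).card := (sum_union hdisj).symm
    _ ≤ _ := sum_le_sum_of_subset (union_subset hp hq)

end Count

end Pool.Agent.TreeFPP
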