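import Pool.Agent.TreeFPP.Fin1

open Finset

namespace Pool.Agent.TreeFPP

section One

variable {S A : Type*} [Group S] [Fintype S] [MulAction S A] [DecidableEq A]

/-- derangements of `X` -/
def der (S : Type*) {A : Type*} [Group S] [Fintype S] [MulAction S A] [DecidableEq A]
    (X : Finset A) : Finset S := univ.filter (fun s => ∀ x ∈ X, s • x ≠ x)

/-- pointwise stabiliser of `X` -/
def ker (S : Type*) {A : Type*} [Group S] [Fintype S] [MulAction S A] [DecidableEq A]
    (X : Finset A) : Finset S := univ.filter (fun s => ∀ x ∈ X, s • x = x)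

lemma mem_der {X : Finset A} {s : S} : s ∈ der S X ↔ ∀ x ∈ X, s • x ≠ x := by simp [der]
lemma mem_ker {X : Finset A} {s : S} : s ∈ ker S X ↔ ∀ x ∈ X, s • x = x := by simp [ker]

/-- sharply two-transitive modulo the kernel -/
structure Sharp (S : Type*) {A : Type*} [Group S] [MulAction S A] (X : Finset A) : Prop where
  two : ∀ x ∈ X, ∀ x' ∈ X, ∀ y ∈ X, ∀ y' ∈ X, x ≠ x' → y ≠ y' → ∃ s : S, s • x = y ∧ s • x' = y'
  triv : ∀ s : S, ∀ x ∈ X, ∀ x' ∈ X, x ≠ x' → s • x = x → s • x' = x' → ∀ z ∈ X, s • z = z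

lemma der_iff {X : Finset A} {s : S} : s ∈ der S X ↔ (fx X s).card = 0 := by
  rw [mem_der, card_eq_zero, fx, filter_eq_empty_iff]

lemma ker_iff {X : Finset A} {s : S} : s ∈ ker S X ↔ (fx X s).card = X.card := by
  rw [mem_ker]
  constructor
  · intro h
    rw [fx, filter_true_of_mem h]
  · intro h
    have : fx X s = X := eq_of_subset_of_card_le (filter_subset _ _) h.ge
    intro x hx
    rw [← this, mem_fx] at hx
    exact hx.2

lemma fx_le (X : Finset A) (s : S) : (fx X s).card ≤ X.card := card_le_card (filter_subset _ _)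

lemma fx_le_sub_two {X : Finset A} (hinv : ∀ s : S, ∀ x ∈ X, s • x ∈ X) {s : S}
    (hs : s ∉ ker S X) : (fx X s).card + 2 ≤ X.card := by
  rw [mem_ker] at hs
  push Not at hs
  obtain ⟨z, hz, hsz⟩ := hs
  have h1 : s • z ∈ X := hinv s z hz
  have h2 : s • (s • z) ≠ s • z := fun h => hsz (MulAction.injective s h)
  have h3 : fx X s ⊆ (X.erase z).erase (s • z) := by
    intro x hx
    rw [mem_fx] at hx
    rw [mem_erase, mem_erase]
    refine ⟨?_, ?_, hx.1⟩
    · rintro rfl
      exact h2 hx.2
    · rintro rfl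
      exact hsz hx.2
  have h4 := card_le_card h3
  have h5 : (s • z) ∈ X.erase z := mem_erase.mpr ⟨hsz, h1⟩
  rw [card_erase_of_mem h5, card_erase_of_mem hz] at h4
  have h6 : 1 < X.card := one_lt_card.mpr ⟨s • z, h1, z, hz, hsz⟩
  omega

lemma fx_offDiag (X : Finset A) (s : S) : fx X.offDiag s = (fx X s).offDiag := by
  ext ⟨x, y⟩
  simp only [mem_fx, mem_offDiag, Prod.smul_mk, Prod.mk.injEq]
  tauto

lemma orb_pair_subset {X : Finset A} (hinv : ∀ s : S, ∀ x ∈ X, s • x ∈ X) {p : A × A}
    (hp : p ∈ X.offDiag) : orb S p ⊆ X.offDiag := by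
  intro q hq
  obtain ⟨s, rfl⟩ := mem_orb.mp hq
  obtain ⟨x, y⟩ := p
  rw [mem_offDiag] at hp
  rw [Prod.smul_mk, mem_offDiag]
  exact ⟨hinv _ _ hp.1, hinv _ _ hp.2.1, fun h => hp.2.2 (MulAction.injective s h)⟩

/-- the local bound -/
theorem lemma_one {X : Finset A} (hinv : ∀ s : S, ∀ x ∈ X, s • x ∈ X)
    (htr : ∀ x ∈ X, ∀ y ∈ X, ∃ s : S, s • x = y) (h3 : 3 ≤ X.card) :
    (X.card - 1) * Fintype.card S ≤ X.card * (X.card - 2) * (der S X).card ∨ Sharp S X := by
  classical
  by_cases hsh : Sharp S X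
  · exact Or.inr hsh
  left
  set d := X.card with hd
  have hne : X.Nonempty := card_pos.mp (by omega)
  have horb : ∀ x ∈ X, orb S x = X := by
    intro x hx
    ext y
    rw [mem_orb]
    constructor
    · rintro ⟨s, rfl⟩
      exact hinv s x hx
    · intro hy
      exact htr x hx y hy
  have B1 := sum_fx_of_trans (S := S) X hne horb
  -- integer version
  have B1' : ∑ s : S, ((fx X s).card : ℤ) = (Fintype.card S : ℤ) := by
    exact_mod_cast B1
  let T : ℤ := ∑ s : S, ((fx X s).card : ℤ) * ((fx X s).card - 1)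
  have hT : T = ((∑ z ∈ X.offDiag, (stb S z).card : ℕ) : ℤ) := by
    rw [← sum_fx]
    push_cast
    apply sum_congr rfl
    intro s _
    rw [fx_offDiag, offDiag_card]
    have : (fx X s).card ≤ (fx X s).card * (fx X s).card := Nat.le_mul_self _
    push_cast [Nat.cast_sub this]
    ring
  have hid : ∑ s : S, (((fx X s).card : ℤ) - 1) * ((d : ℤ) - (fx X s).card) = - T := by
    have : ∀ s : S, (((fx X s).card : ℤ) - 1) * ((d : ℤ) - (fx X s).card) =
        (d : ℤ) * ((fx X s).card : ℤ) - d - ((fx X s).card : ℤ) * ((fx X s).card - 1) := by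
      intro s; ring
    rw [sum_congr rfl (fun s _ => this s), sum_sub_distrib, sum_sub_distrib, ← mul_sum, B1',
      sum_const, card_univ, nsmul_eq_mul]
    ring
  have hder : ∑ s : S, (if s ∈ der S X then (1 : ℤ) else 0) = ((der S X).card : ℤ) := by
    rw [sum_ite_mem, univ_inter, sum_const, nsmul_eq_mul, mul_one]
  have hker : ∑ s : S, (if s ∈ ker S X then (1 : ℤ) else 0) = ((ker S X).card : ℤ) := by
    rw [sum_ite_mem, univ_inter, sum_const, nsmul_eq_mul, mul_one]
  have hd3 : (3 : ℤ) ≤ d := by exact_mod_cast h3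
  by_cases h2 : ∀ x ∈ X, ∀ x' ∈ X, ∀ y ∈ X, ∀ y' ∈ X, x ≠ x' → y ≠ y' →
      ∃ s : S, s • x = y ∧ s • x' = y'
  · -- two-transitive, some nontrivial element fixes two points
    have hnt : ∃ s : S, ∃ x ∈ X, ∃ x' ∈ X, x ≠ x' ∧ s • x = x ∧ s • x' = x' ∧ s ∉ ker S X := by
      by_contra hcon
      push Not at hcon
      apply hsh
      refine ⟨h2, ?_⟩
      intro s x hx x' hx' hne h1 h2
      exact mem_ker.mp (hcon s x hx x' hx' hne h1 h2)
    obtain ⟨s₀, x, hx, x', hx', hxx, hs1, hs2, hs3⟩ := hnt
    have hp : (x, x') ∈ X.offDiag := mem_offDiag.mpr ⟨hx, hx', hxx⟩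
    have horb2 : ∀ p ∈ X.offDiag, orb S p = X.offDiag := by
      intro p hp
      apply subset_antisymm (orb_pair_subset hinv hp)
      intro q hq
      obtain ⟨a, b⟩ := p
      obtain ⟨a', b'⟩ := q
      rw [mem_offDiag] at hp hq
      obtain ⟨s, hs, hs'⟩ := h2 a hp.1 b hp.2.1 a' hq.1 b' hq.2.1 hp.2.2 hq.2.2
      rw [mem_orb]
      exact ⟨s, by rw [Prod.smul_mk, hs, hs']⟩
    have hTS : T = (Fintype.card S : ℤ) := by
      rw [hT, ← sum_fx, sum_fx_of_trans X.offDiag ⟨_, hp⟩ horb2]
    have hcard : d * (d - 1) * (stb S (x, x')).card = Fintype.card S := by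
      have := orb_mul_stb (S := S) (x, x')
      rw [horb2 _ hp, offDiag_card, ← hd] at this
      rw [← this]
      congr 1
      rw [Nat.mul_sub, mul_one]
    have hk2 : 2 * (ker S X).card ≤ (stb S (x, x')).card := by
      have hsub1 : ker S X ⊆ stb S (x, x') := by
        intro s hs
        rw [mem_ker] at hs
        rw [mem_stb, Prod.smul_mk, hs x hx, hs x' hx']
      have hsub2 : (ker S X).image (fun t => s₀ * t) ⊆ stb S (x, x') := by
        intro s hs
        obtain ⟨t, ht, rfl⟩ := mem_image.mp hs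
        rw [mem_ker] at ht
        rw [mem_stb, Prod.smul_mk, mul_smul, mul_smul, ht x hx, ht x' hx', hs1, hs2]
      have hdis : Disjoint (ker S X) ((ker S X).image (fun t => s₀ * t)) := by
        rw [Finset.disjoint_left]
        intro s hs hs'
        obtain ⟨t, ht, rfl⟩ := mem_image.mp hs'
        apply hs3
        rw [mem_ker] at hs ht ⊢
        intro z hz
        have := hs z hz
        rwa [mul_smul, ht z hz] at this
      have h4 := card_le_card (union_subset hsub1 hsub2)
      rw [card_union_of_disjoint hdis, card_image_of_injective _ (mul_right_injective s₀)] at h4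
      omega
    have hpt : ∀ s : S, 2 * (((fx X s).card : ℤ) * ((fx X s).card - 1)) -
        2 * (d * (d - 1)) * (if s ∈ ker S X then (1 : ℤ) else 0) ≤
        (d : ℤ) * (d - 2) * (if s ∈ der S X then (1 : ℤ) else 0) +
        (d - 2) * ((((fx X s).card : ℤ) - 1) * ((d : ℤ) - (fx X s).card)) := by
      intro s
      by_cases hk : s ∈ ker S X
      · have e1 := ker_iff.mp hk
        have hnd : s ∉ der S X := by
          intro h
          rw [der_iff, e1] at h
          omega
        rw [if_pos hk, if_neg hnd, e1, ← hd]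
        have : (0 : ℤ) ≤ 0 := le_rfl
        nlinarith
      · have e1 := fx_le_sub_two hinv hk
        rw [← hd] at e1
        by_cases hdr : s ∈ der S X
        · rw [if_neg hk, if_pos hdr, der_iff.mp hdr]
          simp
          nlinarith
        · rw [if_neg hk, if_neg hdr]
          have e2 : 1 ≤ (fx X s).card := by
            rw [Nat.one_le_iff_ne_zero]
            intro h
            exact hdr (der_iff.mpr h)
          have e3 : (1 : ℤ) ≤ ((fx X s).card : ℤ) := by exact_mod_cast e2
          have e4 : ((fx X s).card : ℤ) + 2 ≤ d := by exact_mod_cast e1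
          set F : ℤ := ((fx X s).card : ℤ)
          have e5 : (0 : ℤ) ≤ (F - 1) * (d * (d - 2 - F)) :=
            mul_nonneg (by linarith) (mul_nonneg (by linarith) (by linarith))
          nlinarith
    have hsum := sum_le_sum (fun s (_ : s ∈ (univ : Finset S)) => hpt s)
    rw [sum_sub_distrib, sum_add_distrib, ← mul_sum, ← mul_sum, ← mul_sum, ← mul_sum, hid, hder,
      hker] at hsum
    change 2 * T - _ ≤ _ at hsum
    rw [hTS] at hsum
    have hk3 : 2 * (d * (d - 1)) * (ker S X).card ≤ Fintype.card S := by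
      calc 2 * (d * (d - 1)) * (ker S X).card = d * (d - 1) * (2 * (ker S X).card) := by ring
        _ ≤ d * (d - 1) * (stb S (x, x')).card := Nat.mul_le_mul_left _ hk2
        _ = _ := hcard
    have hk4 : 2 * ((d : ℤ) * (d - 1)) * (ker S X).card ≤ Fintype.card S := by
      have : ((2 * (d * (d - 1)) * (ker S X).card : ℕ) : ℤ) ≤ (Fintype.card S : ℤ) := by
        exact_mod_cast hk3
      push_cast [Nat.cast_sub (show 1 ≤ d by omega)] at this
      exact this
    have hfin : ((d : ℤ) - 1) * Fintype.card S ≤ d * (d - 2) * (der S X).card := by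
      nlinarith
    have : (((d - 1) * Fintype.card S : ℕ) : ℤ) ≤ ((d * (d - 2) * (der S X).card : ℕ) : ℤ) := by
      push_cast [Nat.cast_sub (show 1 ≤ d by omega), Nat.cast_sub (show 2 ≤ d by omega)]
      exact hfin
    exact_mod_cast this
  · push Not at h2
    obtain ⟨x, hx, x', hx', y, hy, y', hy', hxx, hyy, hno⟩ := h2
    have hp : (x, x') ∈ X.offDiag := mem_offDiag.mpr ⟨hx, hx', hxx⟩
    have hq : (y, y') ∈ X.offDiag := mem_offDiag.mpr ⟨hy, hy', hyy⟩
    have hTS : 2 * (Fintype.card S : ℤ) ≤ T := by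
      rw [hT]
      have := two_card_le (S := S) X.offDiag (orb_pair_subset hinv hp) (orb_pair_subset hinv hq)
        (by
          rw [mem_orb]
          rintro ⟨s, hs⟩
          rw [Prod.smul_mk, Prod.mk.injEq] at hs
          exact hno s hs.1 hs.2)
      exact_mod_cast this
    have hpt : ∀ s : S, 0 ≤ (d : ℤ) * (if s ∈ der S X then (1 : ℤ) else 0) +
        ((((fx X s).card : ℤ) - 1) * ((d : ℤ) - (fx X s).card)) := by
      intro s
      by_cases hdr : s ∈ der S X
      · rw [if_pos hdr, der_iff.mp hdr]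
        simp
      · rw [if_neg hdr]
        have e2 : 1 ≤ (fx X s).card := by
          rw [Nat.one_le_iff_ne_zero]
          intro h
          exact hdr (der_iff.mpr h)
        have e1 := fx_le X s
        rw [← hd] at e1
        have e3 : (1 : ℤ) ≤ ((fx X s).card : ℤ) := by exact_mod_cast e2
        have e4 : ((fx X s).card : ℤ) ≤ d := by exact_mod_cast e1
        have := mul_nonneg (sub_nonneg.mpr e3) (sub_nonneg.mpr e4)
        linarith
    have hsum := sum_nonneg (fun s (_ : s ∈ (univ : Finset S)) => hpt s)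
    rw [sum_add_distrib, ← mul_sum, hid, hder] at hsum
    have hcS : (0 : ℤ) ≤ Fintype.card S := by positivity
    have hfin : ((d : ℤ) - 1) * Fintype.card S ≤ d * (d - 2) * (der S X).card := by
      have h5 : 2 * (Fintype.card S : ℤ) ≤ d * (der S X).card := by linarith
      have h6 := mul_le_mul_of_nonneg_left h5 (show (0 : ℤ) ≤ d - 2 by linarith)
      nlinarith
    have : (((d - 1) * Fintype.card S : ℕ) : ℤ) ≤ ((d * (d - 2) * (der S X).card : ℕ) : ℤ) := by
      push_cast [Nat.cast_sub (show 1 ≤ d by omega), Nat.cast_sub (show 2 ≤ d by omega)]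
      exact hfin
    exact_mod_cast this

end One

end Pool.Agent.TreeFPP
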