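import Pool.Agent.TreeFPP.Fin2

open Finset

namespace Pool.Agent.TreeFPP

section Sub

variable {S A : Type*} [Group S] [Fintype S] [MulAction S A] [DecidableEq A]

/-- derangements of `X` in a subgroup -/
noncomputable def derH (H : Subgroup S) (X : Finset A) : Finset S := by
  classical
  exact univ.filter (fun s => s ∈ H ∧ ∀ x ∈ X, s • x ≠ x)

/-- pointwise stabiliser of `X` in a subgroup -/
noncomputable def kerH (H : Subgroup S) (X : Finset A) : Finset S := by
  classical
  exact univ.filter (fun s => s ∈ H ∧ ∀ x ∈ X, s • x = x)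

lemma mem_derH {H : Subgroup S} {X : Finset A} {s : S} :
    s ∈ derH H X ↔ s ∈ H ∧ ∀ x ∈ X, s • x ≠ x := by simp [derH]

lemma mem_kerH {H : Subgroup S} {X : Finset A} {s : S} :
    s ∈ kerH H X ↔ s ∈ H ∧ ∀ x ∈ X, s • x = x := by simp [kerH]

/-- number of derangements when nontrivial elements fix at most one point -/
lemma count_der {X : Finset A} (hne : X.Nonempty) (hinv : ∀ s : S, ∀ x ∈ X, s • x ∈ X)
    (htr : ∀ x ∈ X, ∀ y ∈ X, ∃ s : S, s • x = y)
    (htriv : ∀ s : S, ∀ x ∈ X, ∀ x' ∈ X, x ≠ x' → s • x = x → s • x' = x' → ∀ z ∈ X, s • z = z) :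
    (der S X).card = (X.card - 1) * (ker S X).card := by
  classical
  have horb : ∀ x ∈ X, orb S x = X := by
    intro x hx
    ext y
    rw [mem_orb]
    constructor
    · rintro ⟨s, rfl⟩
      exact hinv s x hx
    · intro hy
      exact htr x hx y hy
  have B1 := sum_fx_of_trans (S := S) X hne horb
  have hpos : 1 ≤ X.card := card_pos.mpr hne
  have B1' : ∑ s : S, ((fx X s).card : ℤ) = (Fintype.card S : ℤ) := by
    exact_mod_cast B1
  have hder : ∑ s : S, (if s ∈ der S X then (1 : ℤ) else 0) = ((der S X).card : ℤ) := by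
    rw [sum_ite_mem, univ_inter, sum_const, nsmul_eq_mul, mul_one]
  have hker : ∑ s : S, (if s ∈ ker S X then (1 : ℤ) else 0) = ((ker S X).card : ℤ) := by
    rw [sum_ite_mem, univ_inter, sum_const, nsmul_eq_mul, mul_one]
  have hpt : ∀ s : S, ((fx X s).card : ℤ) = 1 - (if s ∈ der S X then (1 : ℤ) else 0) +
      ((X.card : ℤ) - 1) * (if s ∈ ker S X then (1 : ℤ) else 0) := by
    intro s
    by_cases hk : s ∈ ker S X
    · have e1 := ker_iff.mp hk
      have hnd : s ∉ der S X := by
        intro h
        rw [der_iff, e1] at h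
        omega
      rw [if_pos hk, if_neg hnd, e1]
      ring
    · by_cases hdr : s ∈ der S X
      · rw [if_neg hk, if_pos hdr, der_iff.mp hdr]
        simp
      · rw [if_neg hk, if_neg hdr]
        have e2 : 1 ≤ (fx X s).card := by
          rw [Nat.one_le_iff_ne_zero]
          intro h
          exact hdr (der_iff.mpr h)
        have e3 : (fx X s).card ≤ 1 := by
          rw [card_le_one]
          intro a ha b hb
          by_contra hab
          apply hk
          rw [mem_ker]
          rw [mem_fx] at ha hb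
          exact htriv s a ha.1 b hb.1 hab ha.2 hb.2
        have e4 : (fx X s).card = 1 := le_antisymm e3 e2
        rw [e4]
        simp
  have h5 : (Fintype.card S : ℤ) = Fintype.card S - (der S X).card +
      ((X.card : ℤ) - 1) * (ker S X).card := by
    conv_lhs => rw [← B1']
    rw [sum_congr rfl (fun s _ => hpt s), sum_add_distrib, sum_sub_distrib, ← mul_sum, hder, hker]
    simp
  have h6 : ((der S X).card : ℤ) = (((X.card - 1) * (ker S X).card : ℕ) : ℤ) := by
    push_cast [Nat.cast_sub hpos]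
    linarith
  exact_mod_cast h6

/-- transfer to a subgroup -/
lemma card_sub {H : Subgroup S} [Fintype H] (p : S → Prop) [DecidablePred p]
    [DecidablePred (fun s => s ∈ H ∧ p s)] :
    (univ.filter (fun s : H => p s)).card = (univ.filter (fun s : S => s ∈ H ∧ p s)).card := by
  apply Finset.card_bij (fun (s : H) _ => (s : S))
  · intro s hs
    rw [mem_filter] at hs ⊢
    exact ⟨mem_univ _, s.2, hs.2⟩
  · intro a _ b _ h
    exact Subtype.ext h
  · intro b hb
    rw [mem_filter] at hb
    exact ⟨⟨b, hb.2.1⟩, by rw [mem_filter]; exact ⟨mem_univ _, hb.2.2⟩, rfl⟩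

lemma card_der_sub (H : Subgroup S) [Fintype H] (X : Finset A) :
    (der H X).card = (derH H X).card := by
  classical
  unfold der derH
  convert! card_sub (H := H) (fun s : S => ∀ x ∈ X, s • x ≠ x)

lemma card_ker_sub (H : Subgroup S) [Fintype H] (X : Finset A) :
    (ker H X).card = (kerH H X).card := by
  classical
  unfold ker kerH
  convert! card_sub (H := H) (fun s : S => ∀ x ∈ X, s • x = x)

lemma count_derH (H : Subgroup S) {X : Finset A} (hne : X.Nonempty)
    (hinv : ∀ s ∈ H, ∀ x ∈ X, s • x ∈ X)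
    (htr : ∀ x ∈ X, ∀ y ∈ X, ∃ s ∈ H, s • x = y)
    (htriv : ∀ s ∈ H, ∀ x ∈ X, ∀ x' ∈ X, x ≠ x' → s • x = x → s • x' = x' → ∀ z ∈ X, s • z = z) :
    (derH H X).card = (X.card - 1) * (kerH H X).card := by
  classical
  rw [← card_der_sub, ← card_ker_sub]
  apply count_der hne
  · intro s x hx
    exact hinv s s.2 x hx
  · intro x hx y hy
    obtain ⟨s, hs, h⟩ := htr x hx y hy
    exact ⟨⟨s, hs⟩, h⟩
  · intro s x hx x' hx' hne h1 h2 z hz
    exact htriv s s.2 x hx x' hx' hne h1 h2 z hz

/-- order of a sharply two-transitive group modulo the kernel -/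
lemma card_sharp {X : Finset A} (hinv : ∀ s : S, ∀ x ∈ X, s • x ∈ X) (h2 : 2 ≤ X.card)
    (h : Sharp S X) : Fintype.card S = X.card * (X.card - 1) * (ker S X).card := by
  classical
  obtain ⟨x, hx, x', hx', hne⟩ := one_lt_card.mp (show 1 < X.card by omega)
  have hp : (x, x') ∈ X.offDiag := mem_offDiag.mpr ⟨hx, hx', hne⟩
  have ho : orb S (x, x') = X.offDiag := by
    apply subset_antisymm (orb_pair_subset hinv hp)
    intro q hq
    obtain ⟨a', b'⟩ := q
    rw [mem_offDiag] at hq
    obtain ⟨s, hs, hs'⟩ := h.two x hx x' hx' a' hq.1 b' hq.2.1 hne hq.2.2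
    rw [mem_orb]
    exact ⟨s, by rw [Prod.smul_mk, hs, hs']⟩
  have hs : stb S (x, x') = ker S X := by
    ext s
    rw [mem_stb, mem_ker, Prod.smul_mk, Prod.mk.injEq]
    constructor
    · rintro ⟨h1, h2⟩
      exact h.triv s x hx x' hx' hne h1 h2
    · intro hk
      exact ⟨hk x hx, hk x' hx'⟩
  have := orb_mul_stb (S := S) (x, x')
  rw [ho, hs, offDiag_card] at this
  rw [← this, Nat.mul_sub, mul_one]

end Sub

end Pool.Agent.TreeFPP
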