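import Pool.Agent.TreeFPP.Fin3

open Finset

namespace Pool.Agent.TreeFPP

section Three

lemma coe_orb {S A : Type*} [Group S] [Fintype S] [MulAction S A] [DecidableEq A] (x : A) :
    ((orb S x : Finset A) : Set A) = MulAction.orbit S x := by
  ext y
  rw [mem_coe, mem_orb, MulAction.mem_orbit_iff]

lemma orb_card_eq {S A : Type*} [Group S] [Fintype S] [MulAction S A] [DecidableEq A] (x : A) :
    (orb S x).card = Nat.card (MulAction.orbit S x) := by
  rw [← coe_orb, Nat.card_coe_set_eq, Set.ncard_coe_finset]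

/-- orbits of a 3-group in a small set -/
lemma orb_three {Q A : Type*} [Group Q] [Fintype Q] [MulAction Q A] [DecidableEq A]
    (hQ : IsPGroup 3 Q) (x : A) (F : Finset A) (hF : orb Q x ⊆ F) :
    (F.card ≤ 2 → ∀ q : Q, q • x = x) ∧ (F.card = 3 → (∃ q : Q, q • x ≠ x) → orb Q x = F) := by
  haveI : Fact (Nat.Prime 3) := ⟨Nat.prime_three⟩
  haveI : Finite (MulAction.orbit Q x) := by
    rw [← coe_orb]
    exact Finset.finite_toSet _
  obtain ⟨n, hn⟩ := hQ.card_orbit x
  rw [← orb_card_eq] at hn
  have hle := card_le_card hF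
  constructor
  · intro h2 q
    have h3 : 3 ^ n ≤ 2 := by omega
    have h4 : n = 0 := by
      rcases Nat.eq_zero_or_pos n with h | h
      · exact h
      · exfalso
        have : 3 ^ 1 ≤ 3 ^ n := Nat.pow_le_pow_right (by norm_num) h
        omega
    rw [h4, pow_zero, card_eq_one] at hn
    obtain ⟨a, ha⟩ := hn
    have h5 : x ∈ orb Q x := mem_orb.mpr ⟨1, one_smul _ _⟩
    have h6 : q • x ∈ orb Q x := mem_orb.mpr ⟨q, rfl⟩
    rw [ha, mem_singleton] at h5 h6
    rw [h6, ← h5]
  · rintro h3 ⟨q, hq⟩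
    apply eq_of_subset_of_card_le hF
    rcases Nat.eq_zero_or_pos n with h | h
    · exfalso
      rw [h, pow_zero, card_eq_one] at hn
      obtain ⟨a, ha⟩ := hn
      have h5 : x ∈ orb Q x := mem_orb.mpr ⟨1, one_smul _ _⟩
      have h6 : q • x ∈ orb Q x := mem_orb.mpr ⟨q, rfl⟩
      rw [ha, mem_singleton] at h5 h6
      exact hq (h6.trans h5.symm)
    · have : 3 ^ 1 ≤ 3 ^ n := Nat.pow_le_pow_right (by norm_num) h
      omega

/-- a group acting transitively on three sets of size three has an element without fixed points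
on all of them -/
theorem three_sets {S A B : Type*} [Group S] [Fintype S] [MulAction S A] [DecidableEq A]
    [DecidableEq B] (X : Finset B) (F : B → Finset A) (hX : X.card = 3)
    (hF : ∀ x ∈ X, (F x).card = 3) (hinv : ∀ x ∈ X, ∀ s : S, ∀ y ∈ F x, s • y ∈ F x)
    (htr : ∀ x ∈ X, ∀ y ∈ F x, ∀ z ∈ F x, ∃ s : S, s • y = z) :
    ∃ s : S, ∀ x ∈ X, ∀ y ∈ F x, s • y ≠ y := by
  classical
  haveI : Fact (Nat.Prime 3) := ⟨Nat.prime_three⟩
  let P : Sylow 3 S := default
  let Q : Subgroup S := P
  have hQ : IsPGroup 3 Q := P.isPGroup'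
  -- `Q` is transitive on each set
  have horb : ∀ x ∈ X, ∀ y ∈ F x, orb Q y = F x := by
    intro x hx y hy
    have hsub : orb Q y ⊆ F x := by
      intro z hz
      obtain ⟨q, rfl⟩ := mem_orb.mp hz
      exact hinv x hx q y hy
    apply (orb_three hQ y (F x) hsub).2 (hF x hx)
    by_contra hcon
    push Not at hcon
    have hle : Q ≤ MulAction.stabilizer S y := by
      intro q hq
      rw [MulAction.mem_stabilizer_iff]
      exact hcon ⟨q, hq⟩
    have hdvd := Subgroup.index_dvd_of_le hle
    rw [MulAction.index_stabilizer] at hdvd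
    have h3 : (MulAction.orbit S y).ncard = 3 := by
      rw [← coe_orb, Set.ncard_coe_finset, ← hF x hx]
      congr 1
      ext z
      rw [mem_orb]
      constructor
      · rintro ⟨s, rfl⟩
        exact hinv x hx s y hy
      · intro hz
        exact htr x hx y hy z hz
    rw [h3] at hdvd
    exact P.not_dvd_index hdvd
  -- an element of `Q` fixing one point of `F x` fixes all
  have hfix : ∀ x ∈ X, ∀ q : Q, ∀ y ∈ F x, q • y = y → ∀ z ∈ F x, q • z = z := by
    intro x hx q y hy hqy z hz
    by_cases hzy : z = y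
    · rw [hzy]; exact hqy
    let C : Subgroup Q := Subgroup.zpowers q
    have hC : IsPGroup 3 C := hQ.to_subgroup C
    have hy' : ∀ c : C, c • y = y := by
      intro c
      obtain ⟨c, hc⟩ := c
      have : c ∈ MulAction.stabilizer Q y := by
        have h1 : Subgroup.zpowers q ≤ MulAction.stabilizer Q y := by
          rw [Subgroup.zpowers_le, MulAction.mem_stabilizer_iff]
          exact hqy
        exact h1 hc
      rw [MulAction.mem_stabilizer_iff] at this
      exact this
    have hsub : orb C z ⊆ (F x).erase y := by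
      intro w hw
      obtain ⟨c, rfl⟩ := mem_orb.mp hw
      rw [mem_erase]
      refine ⟨?_, hinv x hx (c : Q) z hz⟩
      intro h
      apply hzy
      have h1 : c • z = c • y := by rw [h, hy']
      exact MulAction.injective c h1
    have hcard : ((F x).erase y).card ≤ 2 := by
      rw [card_erase_of_mem hy, hF x hx]
    exact (orb_three hC z _ hsub).1 hcard ⟨q, Subgroup.mem_zpowers q⟩
  -- choose base points
  have hne : ∀ x : B, ∃ y : A, x ∈ X → y ∈ F x := by
    intro x
    by_cases hx : x ∈ X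
    · obtain ⟨y, hy⟩ := card_pos.mp (show 0 < (F x).card by rw [hF x hx]; norm_num)
      exact ⟨y, fun _ => hy⟩
    · by_cases hA : Nonempty A
      · exact ⟨hA.some, fun h => absurd h hx⟩
      · exfalso
        obtain ⟨x', hx'⟩ := card_pos.mp (show 0 < X.card by rw [hX]; norm_num)
        obtain ⟨y, hy⟩ := card_pos.mp (show 0 < (F x').card by rw [hF x' hx']; norm_num)
        exact hA ⟨y⟩
  choose y₀ hy₀ using hne
  have hst : ∀ x ∈ X, 3 * (stb Q (y₀ x)).card = Fintype.card Q := by
    intro x hx
    have := orb_mul_stb (S := Q) (y₀ x)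
    rw [horb x hx _ (hy₀ x hx), hF x hx] at this
    exact this
  -- union bound
  have hunion : (X.biUnion (fun x => (stb Q (y₀ x)).erase 1)).card < Fintype.card Q - 1 := by
    have h1 : (X.biUnion (fun x => (stb Q (y₀ x)).erase 1)).card ≤
        ∑ x ∈ X, ((stb Q (y₀ x)).erase 1).card := card_biUnion_le
    have h2 : ∀ x ∈ X, 3 * ((stb Q (y₀ x)).erase 1).card = Fintype.card Q - 3 := by
      intro x hx
      have h3 : (1 : Q) ∈ stb Q (y₀ x) := by rw [mem_stb, one_smul]
      rw [card_erase_of_mem h3]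
      have := hst x hx
      have h4 : 0 < (stb Q (y₀ x)).card := card_pos.mpr ⟨_, h3⟩
      omega
    obtain ⟨x', hx'⟩ := card_pos.mp (show 0 < X.card by rw [hX]; norm_num)
    have h5 : ∀ x ∈ X, ((stb Q (y₀ x)).erase 1).card = ((stb Q (y₀ x')).erase 1).card := by
      intro x hx
      have := h2 x hx
      have := h2 x' hx'
      omega
    rw [sum_congr rfl h5, sum_const, hX, smul_eq_mul] at h1
    have h6 := h2 x' hx'
    have h7 := hst x' hx'
    have h8 : 0 < (stb Q (y₀ x')).card := card_pos.mpr ⟨1, by rw [mem_stb, one_smul]⟩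
    omega
  have hex : ∃ q : Q, q ∉ insert 1 (X.biUnion (fun x => (stb Q (y₀ x)).erase 1)) := by
    by_contra hcon
    push Not at hcon
    have h1 : (univ : Finset Q) ⊆ insert 1 (X.biUnion (fun x => (stb Q (y₀ x)).erase 1)) :=
      fun q _ => hcon q
    have h2 := card_le_card h1
    have h3 := card_insert_le (1 : Q) (X.biUnion (fun x => (stb Q (y₀ x)).erase 1))
    rw [card_univ] at h2
    omega
  obtain ⟨q, hq⟩ := hex
  refine ⟨q, ?_⟩
  intro x hx y hy hqy
  have h1 : q • y₀ x = y₀ x := hfix x hx q y hy hqy _ (hy₀ x hx)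
  apply hq
  rw [mem_insert, mem_biUnion]
  by_cases hq1 : q = 1
  · left; exact hq1
  · right
    exact ⟨x, hx, by rw [mem_erase, mem_stb]; exact ⟨hq1, h1⟩⟩

end Three

end Pool.Agent.TreeFPP
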