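import Pool.Agent.TreeFPP.Fin4

open Finset

namespace Pool.Agent.TreeFPP

section TwoLevel

variable {S A : Type*} [Group S] [Fintype S] [MulAction S A] [DecidableEq A]

/-- fibres -/
def Fb (Y : Finset A) (f : A → A) (x : A) : Finset A := Y.filter (fun y => f y = x)

lemma mem_Fb {Y : Finset A} {f : A → A} {x y : A} : y ∈ Fb Y f x ↔ y ∈ Y ∧ f y = x := by
  simp [Fb]

/-- a two-level tree with an action -/
structure Two (S : Type*) {A : Type*} [Group S] [MulAction S A] [DecidableEq A]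
    (X Y : Finset A) (f : A → A) (d : ℕ) : Prop where
  invX : ∀ s : S, ∀ x ∈ X, s • x ∈ X
  invY : ∀ s : S, ∀ y ∈ Y, s • y ∈ Y
  trY : ∀ y ∈ Y, ∀ y' ∈ Y, ∃ s : S, s • y = y'
  fX : ∀ y ∈ Y, f y ∈ X
  feq : ∀ s : S, ∀ y ∈ Y, f (s • y) = s • f y
  cX : X.card = d
  cF : ∀ x ∈ X, (Fb Y f x).card = d

variable {X Y : Finset A} {f : A → A} {d : ℕ}

lemma Two.trX (h : Two S X Y f d) (hd : 3 ≤ d) : ∀ x ∈ X, ∀ x' ∈ X, ∃ s : S, s • x = x' := by
  intro x hx x' hx'
  obtain ⟨y, hy⟩ := card_pos.mp (show 0 < (Fb Y f x).card by rw [h.cF x hx]; omega)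
  obtain ⟨y', hy'⟩ := card_pos.mp (show 0 < (Fb Y f x').card by rw [h.cF x' hx']; omega)
  rw [mem_Fb] at hy hy'
  obtain ⟨s, hs⟩ := h.trY y hy.1 y' hy'.1
  refine ⟨s, ?_⟩
  rw [← hy.2, ← h.feq s y hy.1, hs, hy'.2]

lemma Two.smul_Fb (h : Two S X Y f d) {s : S} {x y : A} (hy : y ∈ Fb Y f x) :
    s • y ∈ Fb Y f (s • x) := by
  rw [mem_Fb] at hy ⊢
  exact ⟨h.invY s y hy.1, by rw [h.feq s y hy.1, hy.2]⟩

lemma Two.inv_stab (h : Two S X Y f d) {x : A} : ∀ s ∈ MulAction.stabilizer S x,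
    ∀ y ∈ Fb Y f x, s • y ∈ Fb Y f x := by
  intro s hs y hy
  have := h.smul_Fb (s := s) hy
  rwa [MulAction.mem_stabilizer_iff.mp hs] at this

lemma Two.tr_stab (h : Two S X Y f d) {x : A} : ∀ y ∈ Fb Y f x, ∀ y' ∈ Fb Y f x,
    ∃ s ∈ MulAction.stabilizer S x, s • y = y' := by
  intro y hy y' hy'
  rw [mem_Fb] at hy hy'
  obtain ⟨s, hs⟩ := h.trY y hy.1 y' hy'.1
  refine ⟨s, ?_, hs⟩
  rw [MulAction.mem_stabilizer_iff]
  have := h.feq s y hy.1
  rw [hs, hy'.2, hy.2] at this
  exact this.symm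

/-- elements with a fixed point in `Y` -/
def EE (S : Type*) {A : Type*} [Group S] [Fintype S] [MulAction S A] [DecidableEq A]
    (Y : Finset A) : Finset S := univ.filter (fun s => ∃ y ∈ Y, s • y = y)

lemma mem_EE {s : S} : s ∈ EE S Y ↔ ∃ y ∈ Y, s • y = y := by simp [EE]

/-- the stabiliser as finset -/
lemma card_stab_eq (x : A) [Fintype (MulAction.stabilizer S x)] :
    Fintype.card (MulAction.stabilizer S x) = (stb S x).card := by
  classical
  rw [← card_univ]
  apply Finset.card_bij (fun (s : MulAction.stabilizer S x) _ => (s : S))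
  · intro s _
    rw [mem_stb]
    exact s.2
  · intro a _ b _ hab
    exact Subtype.ext hab
  · intro b hb
    rw [mem_stb] at hb
    exact ⟨⟨b, hb⟩, mem_univ _, rfl⟩

lemma Two.card_stb (h : Two S X Y f d) (hd : 3 ≤ d) {x : A} (hx : x ∈ X) :
    d * (stb S x).card = Fintype.card S := by
  rw [← orb_mul_stb (S := S) x, ← h.cX]
  congr 2
  ext y
  rw [mem_orb]
  constructor
  · intro hy
    exact h.trX hd x hx y hy
  · rintro ⟨s, rfl⟩
    exact h.invX s x hx

/-- conjugation of derangement sets -/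
lemma Two.der_conj (h : Two S X Y f d) (hd : 3 ≤ d) {x x' : A} (hx : x ∈ X) (hx' : x' ∈ X) :
    (derH (MulAction.stabilizer S x) (Fb Y f x)).card ≤
      (derH (MulAction.stabilizer S x') (Fb Y f x')).card := by
  obtain ⟨t, ht⟩ := h.trX hd x hx x' hx'
  apply Finset.card_le_card_of_injOn (fun s => t * s * t⁻¹)
  · intro s hs
    rw [mem_coe, mem_derH] at hs ⊢
    obtain ⟨hs1, hs2⟩ := hs
    rw [MulAction.mem_stabilizer_iff] at hs1
    constructor
    · rw [MulAction.mem_stabilizer_iff, mul_smul, mul_smul, ← ht, inv_smul_smul, hs1]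
    · intro y hy hsy
      have h1 : t⁻¹ • y ∈ Fb Y f x := by
        have := h.smul_Fb (s := t⁻¹) hy
        rwa [← ht, inv_smul_smul] at this
      apply hs2 _ h1
      rw [mul_smul, mul_smul] at hsy
      rw [eq_inv_smul_iff]
      exact hsy
  · intro a _ b _ hab
    simpa using hab

/-- part A: not sharp on the first level -/
lemma Two.partA0 (h : Two S X Y f d) (hd : 3 ≤ d)
    (hb : (d - 1) * Fintype.card S ≤ d * (d - 2) * (der S X).card) :
    d * (d - 2) * (EE S Y).card + (d - 1) * Fintype.card S ≤ d * (d - 2) * Fintype.card S := by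
  classical
  have hdis : Disjoint (EE S Y) (der S X) := by
    rw [Finset.disjoint_left]
    intro s hs hs'
    obtain ⟨y, hy, hsy⟩ := mem_EE.mp hs
    rw [mem_der] at hs'
    apply hs' (f y) (h.fX y hy)
    rw [← h.feq s y hy, hsy]
  have h1 : (EE S Y).card + (der S X).card ≤ Fintype.card S := by
    rw [← card_union_of_disjoint hdis]
    exact card_le_univ _
  calc d * (d - 2) * (EE S Y).card + (d - 1) * Fintype.card S
      ≤ d * (d - 2) * (EE S Y).card + d * (d - 2) * (der S X).card := Nat.add_le_add_left hb _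
    _ = d * (d - 2) * ((EE S Y).card + (der S X).card) := by ring
    _ ≤ _ := Nat.mul_le_mul_left _ h1

/-- part A: not sharp on the second level -/
lemma Two.partA1 (h : Two S X Y f d) (hd : 3 ≤ d) {x₀ : A} (hx₀ : x₀ ∈ X)
    (hb : (d - 1) * (stb S x₀).card ≤ d * (d - 2) *
      (derH (MulAction.stabilizer S x₀) (Fb Y f x₀)).card) :
    d * (d - 2) * (EE S Y).card + (d - 1) * Fintype.card S ≤ d * (d - 2) * Fintype.card S := by
  classical
  set D := fun x => derH (MulAction.stabilizer S x) (Fb Y f x) with hD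
  have hDsub : ∀ x, D x ⊆ stb S x := by
    intro x s hs
    rw [hD, mem_derH] at hs
    rw [mem_stb]
    exact hs.1
  have hsub : EE S Y ⊆ X.biUnion (fun x => stb S x \ D x) := by
    intro s hs
    obtain ⟨y, hy, hsy⟩ := mem_EE.mp hs
    rw [mem_biUnion]
    refine ⟨f y, h.fX y hy, ?_⟩
    rw [mem_sdiff, mem_stb]
    refine ⟨by rw [← h.feq s y hy, hsy], ?_⟩
    intro hs'
    rw [hD, mem_derH] at hs'
    exact hs'.2 y (mem_Fb.mpr ⟨hy, rfl⟩) hsy
  have h1 : (EE S Y).card ≤ ∑ x ∈ X, (stb S x \ D x).card :=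
    (card_le_card hsub).trans card_biUnion_le
  have h2 : ∀ x ∈ X, (stb S x \ D x).card = (stb S x₀).card - (D x₀).card := by
    intro x hx
    rw [card_sdiff_of_subset (hDsub x)]
    have e1 : (D x).card = (D x₀).card :=
      le_antisymm (h.der_conj hd hx hx₀) (h.der_conj hd hx₀ hx)
    have e2 : (stb S x).card = (stb S x₀).card := by
      have a := h.card_stb hd hx
      have b := h.card_stb hd hx₀
      exact Nat.eq_of_mul_eq_mul_left (show 0 < d by omega) (a.trans b.symm)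
    rw [e1, e2]
  rw [sum_congr rfl h2, sum_const, h.cX, smul_eq_mul] at h1
  have h3 := h.card_stb hd hx₀
  have h4 : (D x₀).card ≤ (stb S x₀).card := card_le_card (hDsub x₀)
  obtain ⟨r, hr⟩ := Nat.exists_eq_add_of_le h4
  have h5 : (EE S Y).card ≤ d * r := by
    rw [hr] at h1
    simpa using h1
  have h6 : Fintype.card S = d * (D x₀).card + d * r := by
    rw [← h3, hr]; ring
  change (d - 1) * (stb S x₀).card ≤ d * (d - 2) * (D x₀).card at hb
  calc d * (d - 2) * (EE S Y).card + (d - 1) * Fintype.card S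
      = d * (d - 2) * (EE S Y).card + d * ((d - 1) * (stb S x₀).card) := by rw [← h3]; ring
    _ ≤ d * (d - 2) * (d * r) + d * (d * (d - 2) * (D x₀).card) :=
        Nat.add_le_add (Nat.mul_le_mul_left _ h5) (Nat.mul_le_mul_left _ hb)
    _ = d * (d - 2) * (d * (D x₀).card + d * r) := by ring
    _ = _ := by rw [← h6]

end TwoLevel

end Pool.Agent.TreeFPP
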