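import Pool.Agent.TreeFPP.Fin5

open Finset

namespace Pool.Agent.TreeFPP

section PartB

variable {S A : Type*} [Group S] [Fintype S] [MulAction S A] [DecidableEq A]
variable {X Y : Finset A} {f : A → A} {d : ℕ}

/-- the never-lose property -/
def NeverLose (S : Type*) {A : Type*} [Group S] [MulAction S A] [DecidableEq A]
    (X Y : Finset A) (f : A → A) : Prop :=
  ∀ s : S, ∀ x ∈ X, s • x = x → (∃ x' ∈ X, s • x' ≠ x') →
    (∃ y ∈ Fb Y f x, s • y = y) ∧ (∃ y ∈ Fb Y f x, s • y ≠ y)

/-- the kernel of the action on `X` -/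
def Kg (S : Type*) {A : Type*} [Group S] [MulAction S A] (X : Finset A) : Subgroup S where
  carrier := {s | ∀ x ∈ X, s • x = x}
  one_mem' := fun x _ => one_smul S x
  mul_mem' := by
    intro a b ha hb x hx
    rw [mul_smul, hb x hx, ha x hx]
  inv_mem' := by
    intro a ha x hx
    rw [inv_smul_eq_iff, ha x hx]

lemma mem_Kg {s : S} : s ∈ Kg S X ↔ ∀ x ∈ X, s • x = x := Iff.rfl

lemma ker_eq_Kg {s : S} : s ∈ ker S X ↔ s ∈ Kg S X := by rw [mem_ker, mem_Kg]

lemma Kg_conj (hinv : ∀ s : S, ∀ x ∈ X, s • x ∈ X) {k : S} (hk : k ∈ Kg S X) (t : S) :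
    t * k * t⁻¹ ∈ Kg S X := by
  intro x hx
  rw [mul_smul, mul_smul, hk _ (hinv _ x hx), smul_inv_smul]

/-- `K` is nontrivial on some fibre -/
lemma Two.K_nontriv (h : Two S X Y f d) (hd : 3 ≤ d) (hS : Sharp S X) :
    ∃ x ∈ X, ∃ k ∈ Kg S X, ∃ y ∈ Fb Y f x, k • y ≠ y := by
  classical
  by_contra hcon
  push Not at hcon
  have hX : 0 < X.card := by rw [h.cX]; omega
  obtain ⟨x, hx⟩ := card_pos.mp hX
  obtain ⟨y, hy⟩ := card_pos.mp (show 0 < (Fb Y f x).card by rw [h.cF x hx]; omega)
  have hyY := (mem_Fb.mp hy).1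
  have hle : Kg S X ≤ MulAction.stabilizer S y := by
    intro k hk
    rw [MulAction.mem_stabilizer_iff]
    exact hcon x hx k hk y hy
  have hdvd := Subgroup.card_dvd_of_le hle
  have e1 : Nat.card (Kg S X) = (ker S X).card := by
    refine (Nat.card_coe_set_eq (Kg S X : Set S)).trans ?_
    rw [← Set.ncard_coe_finset]
    congr 1
    ext s
    rw [mem_coe, ker_eq_Kg]
    rfl
  have e2 : Nat.card (MulAction.stabilizer S y) = (stb S y).card := by
    refine (Nat.card_coe_set_eq (MulAction.stabilizer S y : Set S)).trans ?_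
    rw [← Set.ncard_coe_finset]
    congr 1
    ext s
    rw [mem_coe, mem_stb]
    rfl
  rw [e1, e2] at hdvd
  obtain ⟨j, hj⟩ := hdvd
  have hY : Y.card = d * d := by
    have : Y = X.biUnion (fun x => Fb Y f x) := by
      ext y
      rw [mem_biUnion]
      constructor
      · intro hy
        exact ⟨f y, h.fX y hy, mem_Fb.mpr ⟨hy, rfl⟩⟩
      · rintro ⟨x, _, hy⟩
        exact (mem_Fb.mp hy).1
    rw [this, card_biUnion]
    · rw [sum_congr rfl (fun x hx => h.cF x hx), sum_const, h.cX, smul_eq_mul]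
    · intro a _ b _ hab
      rw [Function.onFun, Finset.disjoint_left]
      intro y h1 h2
      exact hab ((mem_Fb.mp h1).2.symm.trans (mem_Fb.mp h2).2)
  have horb : orb S y = Y := by
    ext z
    rw [mem_orb]
    constructor
    · rintro ⟨s, rfl⟩
      exact h.invY s y hyY
    · intro hz
      exact h.trY y hyY z hz
  have h1 := orb_mul_stb (S := S) y
  rw [horb, hY, hj, card_sharp h.invX (by rw [h.cX]; omega) hS, h.cX] at h1
  have hk : 0 < (ker S X).card := card_pos.mpr ⟨1, by rw [mem_ker]; intro x _; exact one_smul _ x⟩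
  have h2 : d * j = d - 1 := by
    have h3 : (d * (ker S X).card) * (d * j) = (d * (ker S X).card) * (d - 1) := by
      calc (d * (ker S X).card) * (d * j) = d * d * ((ker S X).card * j) := by ring
        _ = d * (d - 1) * (ker S X).card := h1
        _ = _ := by ring
    exact Nat.eq_of_mul_eq_mul_left (Nat.mul_pos (by omega) hk) h3
  rcases Nat.eq_zero_or_pos j with h4 | h4
  · rw [h4] at h2; omega
  · have : d * 1 ≤ d * j := Nat.mul_le_mul_left d h4
    omega

lemma Two.K_trans (h : Two S X Y f d) (hd : 3 ≤ d) (hS : Sharp S X)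
    (hF : ∀ x ∈ X, Sharp (MulAction.stabilizer S x) (Fb Y f x)) :
    ∀ x ∈ X, ∀ y ∈ Fb Y f x, ∀ z ∈ Fb Y f x, ∃ k ∈ Kg S X, k • y = z := by
  obtain ⟨x₀, hx₀, k₀, hk₀, y₀, hy₀, hky₀⟩ := h.K_nontriv hd hS
  intro x hx y hy z hz
  by_cases hyz : y = z
  · exact ⟨1, (Kg S X).one_mem, by rw [one_smul, hyz]⟩
  -- transport to x
  obtain ⟨t, ht⟩ := h.trX hd x₀ hx₀ x hx
  have hk₁ := Kg_conj h.invX hk₀ t
  have hy₁ : t • y₀ ∈ Fb Y f x := by
    have := h.smul_Fb (s := t) hy₀
    rwa [ht] at this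
  have hne : (t * k₀ * t⁻¹) • (t • y₀) ≠ t • y₀ := by
    rw [mul_smul, mul_smul, inv_smul_smul]
    intro hh
    exact hky₀ (MulAction.injective t hh)
  have hmem : (t * k₀ * t⁻¹) • (t • y₀) ∈ Fb Y f x := by
    have := h.smul_Fb (s := t * k₀ * t⁻¹) hy₁
    rwa [hk₁ x hx] at this
  obtain ⟨s, hs1, hs2⟩ := (hF x hx).two _ hy₁ _ hmem _ hy _ hz hne.symm hyz
  refine ⟨(s : S) * (t * k₀ * t⁻¹) * (s : S)⁻¹, Kg_conj h.invX hk₁ _, ?_⟩
  have e1 : (s : S)⁻¹ • y = t • y₀ := by
    rw [inv_smul_eq_iff]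
    exact hs1.symm
  rw [mul_smul, mul_smul, e1]
  exact hs2

/-- part B -/
theorem Two.partB (h : Two S X Y f d) (hd : 3 ≤ d) (hS : Sharp S X)
    (hF : ∀ x ∈ X, Sharp (MulAction.stabilizer S x) (Fb Y f x)) (hn : ¬ NeverLose S X Y f) :
    2 * d * (EE S Y).card + 3 * Fintype.card S ≤ 2 * d * Fintype.card S ∧
    (d = 3 → 2 * d * (EE S Y).card + 3 * Fintype.card S + 2 * d * (ker S Y).card ≤
      2 * d * Fintype.card S) := by
  classical
  have hKt := h.K_trans hd hS hF
  have hXne : X.Nonempty := card_pos.mp (by rw [h.cX]; omega)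
  have hFne : ∀ x ∈ X, (Fb Y f x).Nonempty := fun x hx => card_pos.mp (by rw [h.cF x hx]; omega)
  -- the sets
  set L := fun x => kerH (MulAction.stabilizer S x) (Fb Y f x) with hL
  set D := fun x => derH (MulAction.stabilizer S x) (Fb Y f x) with hD
  set KL := fun x => kerH (Kg S X) (Fb Y f x) with hKL
  set KD := fun x => derH (Kg S X) (Fb Y f x) with hKD
  have memL : ∀ x s, s ∈ L x ↔ s • x = x ∧ ∀ y ∈ Fb Y f x, s • y = y := by
    intro x s; rw [hL, mem_kerH, MulAction.mem_stabilizer_iff]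
  have memD : ∀ x s, s ∈ D x ↔ s • x = x ∧ ∀ y ∈ Fb Y f x, s • y ≠ y := by
    intro x s; rw [hD, mem_derH, MulAction.mem_stabilizer_iff]
  have memKL : ∀ x s, s ∈ KL x ↔ s ∈ Kg S X ∧ ∀ y ∈ Fb Y f x, s • y = y := by
    intro x s; rw [hKL, mem_kerH]
  have memKD : ∀ x s, s ∈ KD x ↔ s ∈ Kg S X ∧ ∀ y ∈ Fb Y f x, s • y ≠ y := by
    intro x s; rw [hKD, mem_derH]
  have cD : ∀ x ∈ X, (D x).card = (d - 1) * (L x).card := by
    intro x hx
    have := count_derH (MulAction.stabilizer S x) (X := Fb Y f x) (hFne x hx) h.inv_stab h.tr_stab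
      (by
        intro s hs a ha b hb hab h1 h2 z hz
        exact (hF x hx).triv ⟨s, hs⟩ a ha b hb hab h1 h2 z hz)
    rw [h.cF x hx] at this
    exact this
  have cKD : ∀ x ∈ X, (KD x).card = (d - 1) * (KL x).card := by
    intro x hx
    have := count_derH (Kg S X) (X := Fb Y f x) (hFne x hx)
      (by
        intro s hs y hy
        exact h.inv_stab s (MulAction.mem_stabilizer_iff.mpr (hs x hx)) y hy)
      (by
        intro y hy z hz
        obtain ⟨k, hk, hk'⟩ := hKt x hx y hy z hz
        exact ⟨k, hk, hk'⟩)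
      (by
        intro s hs a ha b hb hab h1 h2 z hz
        exact (hF x hx).triv ⟨s, MulAction.mem_stabilizer_iff.mpr (hs x hx)⟩ a ha b hb hab h1 h2
          z hz)
    rw [h.cF x hx] at this
    exact this
  have hKLsub : ∀ x ∈ X, KL x ⊆ L x := by
    intro x hx s hs
    rw [memKL] at hs
    rw [memL]
    exact ⟨hs.1 x hx, hs.2⟩
  have hKDsub : ∀ x ∈ X, KD x ⊆ D x := by
    intro x hx s hs
    rw [memKD] at hs
    rw [memD]
    exact ⟨hs.1 x hx, hs.2⟩
  -- order relations
  have cS : Fintype.card S = d * (d - 1) * (ker S X).card := by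
    have := card_sharp h.invX (by rw [h.cX]; omega) hS
    rwa [h.cX] at this
  have cSx : ∀ x ∈ X, (stb S x).card = d * (d - 1) * (L x).card := by
    intro x hx
    have := card_sharp (S := MulAction.stabilizer S x) (X := Fb Y f x)
      (fun s y hy => h.inv_stab s s.2 y hy) (by rw [h.cF x hx]; omega) (hF x hx)
    rw [h.cF x hx, card_stab_eq, card_ker_sub] at this
    exact this
  have cK : ∀ x ∈ X, (ker S X).card = d * (L x).card := by
    intro x hx
    have h1 := h.card_stb hd hx
    rw [cSx x hx, cS] at h1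
    have hpos : 0 < d * (d - 1) := Nat.mul_pos (by omega) (by omega)
    apply Nat.eq_of_mul_eq_mul_left hpos
    rw [← h1]; ring
  -- a bad element
  have hbad : ∃ x₀ ∈ X, ∃ l ∈ L x₀, l ∉ Kg S X := by
    by_contra hcon
    push Not at hcon
    apply hn
    intro s x hx hsx hmov
    have hsK : s ∉ Kg S X := by
      intro hk
      obtain ⟨x', hx', hne⟩ := hmov
      exact hne (hk x' hx')
    constructor
    · by_contra hno
      push Not at hno
      have hsD : s ∈ D x := (memD x s).mpr ⟨hsx, hno⟩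
      have hLK : KL x = L x := by
        apply subset_antisymm (hKLsub x hx)
        intro l hl
        rw [memKL]
        exact ⟨hcon x hx l hl, ((memL x l).mp hl).2⟩
      have hDK : KD x = D x := by
        apply eq_of_subset_of_card_le (hKDsub x hx)
        rw [cD x hx, cKD x hx, hLK]
      rw [← hDK, memKD] at hsD
      exact hsK hsD.1
    · by_contra hno
      push Not at hno
      exact hsK (hcon x hx s ((memL x s).mpr ⟨hsx, hno⟩))
  obtain ⟨x₀, hx₀, l₀, hl₀, hl₀K⟩ := hbad
  have hbadall : ∀ x ∈ X, ∃ l ∈ L x, l ∉ Kg S X := by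
    intro x hx
    obtain ⟨t, ht⟩ := h.trX hd x₀ hx₀ x hx
    refine ⟨t * l₀ * t⁻¹, ?_, ?_⟩
    · rw [memL] at hl₀ ⊢
      constructor
      · rw [mul_smul, mul_smul, ← ht, inv_smul_smul, hl₀.1]
      · intro y hy
        have h1 : t⁻¹ • y ∈ Fb Y f x₀ := by
          have := h.smul_Fb (s := t⁻¹) hy
          rwa [← ht, inv_smul_smul] at this
        rw [mul_smul, mul_smul, hl₀.2 _ h1, smul_inv_smul]
    · intro hk
      apply hl₀K
      have := Kg_conj h.invX hk t⁻¹
      have e : t⁻¹ * (t * l₀ * t⁻¹) * t⁻¹⁻¹ = l₀ := by group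
      rwa [e] at this
  have hhalf : ∀ x ∈ X, 2 * (KL x).card ≤ (L x).card := by
    intro x hx
    obtain ⟨l, hl, hlK⟩ := hbadall x hx
    have hsub2 : (KL x).image (fun k => l * k) ⊆ L x := by
      intro s hs
      obtain ⟨k, hk, rfl⟩ := mem_image.mp hs
      rw [memKL] at hk
      rw [memL] at hl ⊢
      constructor
      · rw [mul_smul, hk.1 x hx, hl.1]
      · intro y hy
        rw [mul_smul, hk.2 y hy, hl.2 y hy]
    have hdis : Disjoint (KL x) ((KL x).image (fun k => l * k)) := by
      rw [Finset.disjoint_left]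
      intro s hs hs'
      obtain ⟨k, hk, rfl⟩ := mem_image.mp hs'
      rw [memKL] at hs hk
      apply hlK
      have := (Kg S X).mul_mem hs.1 ((Kg S X).inv_mem hk.1)
      rwa [mul_inv_cancel_right] at this
    have h4 := card_le_card (union_subset (hKLsub x hx) hsub2)
    rw [card_union_of_disjoint hdis, card_image_of_injective _ (mul_right_injective l)] at h4
    omega
  -- lost elements
  set D' := fun x => D x \ KD x with hD'
  have cD' : ∀ x ∈ X, (d - 1) * (L x).card ≤ 2 * (D' x).card := by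
    intro x hx
    rw [hD']
    simp only
    rw [card_sdiff_of_subset (hKDsub x hx), cD x hx, cKD x hx, ← Nat.mul_sub]
    have := hhalf x hx
    have h5 : (L x).card ≤ 2 * ((L x).card - (KL x).card) := by omega
    calc (d - 1) * (L x).card ≤ (d - 1) * (2 * ((L x).card - (KL x).card)) :=
          Nat.mul_le_mul_left _ h5
      _ = _ := by ring
  have memD' : ∀ x ∈ X, ∀ s, s ∈ D' x → s • x = x ∧ (∀ y ∈ Fb Y f x, s • y ≠ y) ∧ s ∉ Kg S X := by
    intro x hx s hs
    rw [hD', mem_sdiff, memD, memKD] at hs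
    exact ⟨hs.1.1, hs.1.2, fun hk => hs.2 ⟨hk, hs.1.2⟩⟩
  have uniq : ∀ s, s ∉ Kg S X → ∀ x ∈ X, ∀ x' ∈ X, s • x = x → s • x' = x' → x = x' := by
    intro s hs x hx x' hx' h1 h2
    by_contra hne
    exact hs (hS.triv s x hx x' hx' hne h1 h2)
  have hdisj : (X : Set A).PairwiseDisjoint D' := by
    intro a ha b hb hab
    rw [Function.onFun, Finset.disjoint_left]
    intro s hs hs'
    have h1 := memD' a ha s hs
    have h2 := memD' b hb s hs'
    exact hab (uniq s h1.2.2 a ha b hb h1.1 h2.1)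
  have cU : d * ((d - 1) * (L x₀).card) ≤ 2 * (X.biUnion D').card := by
    rw [card_biUnion hdisj, mul_sum]
    have h6 : ∀ x ∈ X, (L x).card = (L x₀).card := by
      intro x hx
      have := (cK x hx).symm.trans (cK x₀ hx₀)
      exact Nat.eq_of_mul_eq_mul_left (show 0 < d by omega) this
    calc d * ((d - 1) * (L x₀).card) = ∑ x ∈ X, (d - 1) * (L x₀).card := by
          rw [sum_const, h.cX, smul_eq_mul]
      _ = ∑ x ∈ X, (d - 1) * (L x).card := sum_congr rfl (fun x hx => by rw [h6 x hx])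
      _ ≤ _ := sum_le_sum (fun x hx => cD' x hx)
  have cDer : (der S X).card = (d - 1) * (ker S X).card := by
    have := count_der (S := S) hXne h.invX (h.trX hd) hS.triv
    rwa [h.cX] at this
  have dis1 : Disjoint (EE S Y) (der S X) := by
    rw [Finset.disjoint_left]
    intro s hs hs'
    obtain ⟨y, hy, hsy⟩ := mem_EE.mp hs
    rw [mem_der] at hs'
    apply hs' (f y) (h.fX y hy)
    rw [← h.feq s y hy, hsy]
  have dis2 : Disjoint (EE S Y ∪ der S X) (X.biUnion D') := by
    rw [Finset.disjoint_left]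
    intro s hs hs'
    obtain ⟨x, hx, hsx⟩ := mem_biUnion.mp hs'
    have h1 := memD' x hx s hsx
    rw [mem_union] at hs
    rcases hs with hs | hs
    · obtain ⟨y, hy, hsy⟩ := mem_EE.mp hs
      have h2 : s • f y = f y := by rw [← h.feq s y hy, hsy]
      have h3 := uniq s h1.2.2 x hx (f y) (h.fX y hy) h1.1 h2
      exact h1.2.1 y (mem_Fb.mpr ⟨hy, h3.symm⟩) hsy
    · rw [mem_der] at hs
      exact hs x hx h1.1
  have tot : (EE S Y).card + (der S X).card + (X.biUnion D').card ≤ Fintype.card S := by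
    rw [← card_union_of_disjoint dis1, ← card_union_of_disjoint dis2]
    exact card_le_univ _
  have hKL0 := cK x₀ hx₀
  constructor
  · have e1 : d * (2 * (EE S Y).card + 2 * (der S X).card + d * ((d - 1) * (L x₀).card)) ≤
        d * (2 * Fintype.card S) := by
      apply Nat.mul_le_mul_left
      linarith
    have e2 : d * (2 * (EE S Y).card + 2 * (der S X).card + d * ((d - 1) * (L x₀).card)) =
        2 * d * (EE S Y).card + 3 * (d * (d - 1) * (ker S X).card) := by
      rw [cDer, hKL0]; ring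
    rw [e2, ← cS] at e1
    linarith
  · intro hd3
    subst hd3
    -- an element of `K` without fixed points
    obtain ⟨k, hk⟩ := three_sets (S := Kg S X) X (fun x => Fb Y f x) h.cX h.cF
      (by
        intro x hx s y hy
        exact h.inv_stab s (MulAction.mem_stabilizer_iff.mpr (s.2 x hx)) y hy)
      (by
        intro x hx y hy z hz
        obtain ⟨k, hk, hk'⟩ := hKt x hx y hy z hz
        exact ⟨⟨k, hk⟩, hk'⟩)
    set M : Finset S := (ker S Y).image (fun u => (k : S) * u) with hM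
    have cM : M.card = (ker S Y).card := card_image_of_injective _ (mul_right_injective (k : S))
    have memM : ∀ s ∈ M, s ∈ Kg S X ∧ ∀ y ∈ Y, s • y ≠ y := by
      intro s hs
      obtain ⟨u, hu, rfl⟩ := mem_image.mp hs
      rw [mem_ker] at hu
      constructor
      · apply (Kg S X).mul_mem k.2
        intro x hx
        obtain ⟨y, hy⟩ := hFne x hx
        rw [mem_Fb] at hy
        rw [← hy.2, ← h.feq u y hy.1, hu y hy.1]
      · intro y hy
        rw [mul_smul, hu y hy]
        exact hk (f y) (h.fX y hy) y (mem_Fb.mpr ⟨hy, rfl⟩)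
    have dis3 : Disjoint (EE S Y ∪ der S X ∪ X.biUnion D') M := by
      rw [Finset.disjoint_left]
      intro s hs hs'
      obtain ⟨hm1, hm2⟩ := memM s hs'
      rw [mem_union, mem_union] at hs
      rcases hs with (hs | hs) | hs
      · obtain ⟨y, hy, hsy⟩ := mem_EE.mp hs
        exact hm2 y hy hsy
      · rw [mem_der] at hs
        obtain ⟨x, hx⟩ := hXne
        exact hs x hx (hm1 x hx)
      · obtain ⟨x, hx, hsx⟩ := mem_biUnion.mp hs
        exact (memD' x hx s hsx).2.2 hm1
    have tot' : (EE S Y).card + (der S X).card + (X.biUnion D').card + M.card ≤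
        Fintype.card S := by
      rw [← card_union_of_disjoint dis1, ← card_union_of_disjoint dis2,
        ← card_union_of_disjoint dis3]
      exact card_le_univ _
    rw [cM] at tot'
    omega

end PartB

end Pool.Agent.TreeFPP
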