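import Pool.Agent.TreeFPP.Fin6

open Finset

namespace Pool.Agent.TreeFPP

section Combined

variable {S A : Type*} [Group S] [Fintype S] [MulAction S A] [DecidableEq A]
variable {X Y : Finset A} {f : A → A} {d : ℕ}

/-- the group modulo the kernel has bounded order -/
lemma card_le_ker (hinv : ∀ s : S, ∀ y ∈ Y, s • y ∈ Y) :
    Fintype.card S ≤ (ker S Y).card * Y.card ^ Y.card := by
  classical
  let F : S → (Y → Y) := fun s y => ⟨s • (y : A), hinv s y y.2⟩
  have h1 := Finset.card_le_mul_card_image (f := F) (univ : Finset S) (ker S Y).card (by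
    intro a ha
    obtain ⟨s, _, rfl⟩ := mem_image.mp ha
    apply Finset.card_le_card_of_injOn (fun t => s⁻¹ * t)
    · intro t ht
      rw [mem_coe, mem_filter] at ht
      rw [mem_coe, mem_ker]
      intro y hy
      have h2 := congrFun ht.2 ⟨y, hy⟩
      have h3 : t • y = s • y := congrArg Subtype.val h2
      rw [mul_smul, h3, inv_smul_smul]
    · intro a _ b _ hab
      exact mul_left_cancel hab)
  rw [card_univ] at h1
  refine h1.trans (Nat.mul_le_mul_left _ ?_)
  calc (univ.image F).card ≤ Fintype.card (Y → Y) := card_le_univ _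
    _ = Y.card ^ Y.card := by rw [Fintype.card_fun, Fintype.card_coe]

/-- the gap length -/
noncomputable def gapEps (d : ℕ) : ℝ :=
  if d = 3 then 1 / (9 : ℝ) ^ 9 else 1 / ((d : ℝ) * (d - 1) * (d - 2))

lemma gapEps_pos (hd : 3 ≤ d) : 0 < gapEps d := by
  unfold gapEps
  split_ifs
  · positivity
  · have : (3 : ℝ) ≤ d := by exact_mod_cast hd
    apply div_pos one_pos
    apply mul_pos (mul_pos _ _) _ <;> linarith

/-- the two-level dichotomy -/
theorem two_level (h : Two S X Y f d) (hd : 3 ≤ d) :
    ((EE S Y).card : ℝ) ≤ (((d : ℝ) - 2) / (d - 1) - gapEps d) * Fintype.card S ∨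
    (Sharp S X ∧ NeverLose S X Y f) := by
  classical
  have hd' : (3 : ℝ) ≤ d := by exact_mod_cast hd
  have hcS : (0 : ℝ) ≤ Fintype.card S := by positivity
  have e1 : ((d - 1 : ℕ) : ℝ) = (d : ℝ) - 1 := by
    rw [Nat.cast_sub (by omega)]; simp
  have e2 : ((d - 2 : ℕ) : ℝ) = (d : ℝ) - 2 := by
    rw [Nat.cast_sub (by omega)]; simp
  have hne1 : (d : ℝ) - 1 ≠ 0 := by linarith
  have hne2 : (d : ℝ) - 2 ≠ 0 := by linarith
  have hne0 : (d : ℝ) ≠ 0 := by linarith
  have heps : gapEps d ≤ 1 / ((d : ℝ) * (d - 1) * (d - 2)) := by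
    unfold gapEps
    split_ifs with h3
    · subst h3
      norm_num
    · exact le_rfl
  have convA : d * (d - 2) * (EE S Y).card + (d - 1) * Fintype.card S ≤
      d * (d - 2) * Fintype.card S →
      ((EE S Y).card : ℝ) ≤ (((d : ℝ) - 2) / (d - 1) - gapEps d) * Fintype.card S := by
    intro hA
    have hA' : (d : ℝ) * (d - 2) * (EE S Y).card + (d - 1) * Fintype.card S ≤
        d * (d - 2) * Fintype.card S := by
      rw [← e1, ← e2]
      exact_mod_cast hA
    have hpos : (0 : ℝ) < d * (d - 2) := by nlinarith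
    have h1 : ((EE S Y).card : ℝ) ≤ (1 - ((d : ℝ) - 1) / (d * (d - 2))) * Fintype.card S := by
      have : (1 - ((d : ℝ) - 1) / (d * (d - 2))) * Fintype.card S =
          (d * (d - 2) * Fintype.card S - (d - 1) * Fintype.card S) / (d * (d - 2)) := by
        field_simp
      rw [this, le_div_iff₀ hpos]
      linarith
    refine h1.trans (mul_le_mul_of_nonneg_right ?_ hcS)
    have : 1 - ((d : ℝ) - 1) / (d * (d - 2)) =
        ((d : ℝ) - 2) / (d - 1) - 1 / (d * (d - 1) * (d - 2)) := by
      field_simp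
      ring
    rw [this]
    linarith
  -- the first level
  rcases lemma_one h.invX (h.trX hd) (by rw [h.cX]; exact hd) with hb | hS
  · left
    rw [h.cX] at hb
    exact convA (h.partA0 hd hb)
  -- the second level
  by_cases hF : ∀ x ∈ X, Sharp (MulAction.stabilizer S x) (Fb Y f x)
  swap
  · left
    push Not at hF
    obtain ⟨x, hx, hnot⟩ := hF
    rcases lemma_one (S := MulAction.stabilizer S x) (X := Fb Y f x)
      (fun s y hy => h.inv_stab s s.2 y hy)
      (by
        intro y hy y' hy'
        obtain ⟨s, hs, hs'⟩ := h.tr_stab y hy y' hy'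
        exact ⟨⟨s, hs⟩, hs'⟩)
      (by rw [h.cF x hx]; exact hd) with hb | hS'
    · rw [h.cF x hx, card_stab_eq, card_der_sub] at hb
      exact convA (h.partA1 hd hx hb)
    · exact absurd hS' hnot
  by_cases hn : NeverLose S X Y f
  · exact Or.inr ⟨hS, hn⟩
  left
  obtain ⟨hB, hB3⟩ := h.partB hd hS hF hn
  by_cases h3 : d = 3
  · have hB4 := hB3 h3
    have hk := card_le_ker (S := S) (Y := Y) h.invY
    have hY : Y.card = 9 := by
      have : Y = X.biUnion (fun x => Fb Y f x) := by
        ext y
        rw [mem_biUnion]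
        constructor
        · intro hy
          exact ⟨f y, h.fX y hy, mem_Fb.mpr ⟨hy, rfl⟩⟩
        · rintro ⟨x, _, hy⟩
          exact (mem_Fb.mp hy).1
      rw [this, card_biUnion]
      · rw [sum_congr rfl (fun x hx => h.cF x hx), sum_const, h.cX, smul_eq_mul, h3]
      · intro a _ b _ hab
        rw [Function.onFun, Finset.disjoint_left]
        intro y h1 h2
        exact hab ((mem_Fb.mp h1).2.symm.trans (mem_Fb.mp h2).2)
    rw [hY] at hk
    subst h3
    have hB5 : (6 : ℝ) * (EE S Y).card + 3 * Fintype.card S + 6 * (ker S Y).card ≤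
        6 * Fintype.card S := by exact_mod_cast hB4
    have hk' : (Fintype.card S : ℝ) ≤ (ker S Y).card * 9 ^ 9 := by exact_mod_cast hk
    have : gapEps 3 = 1 / (9 : ℝ) ^ 9 := by simp [gapEps]
    rw [this]
    have h9 : (Fintype.card S : ℝ) / 9 ^ 9 ≤ (ker S Y).card := by
      rw [div_le_iff₀ (by positivity)]
      exact hk'
    push_cast
    have e5 : (((3 : ℝ) - 2) / (3 - 1) - 1 / 9 ^ 9) * Fintype.card S =
        (Fintype.card S : ℝ) / 2 - Fintype.card S / 9 ^ 9 := by ring
    rw [e5]
    linarith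
  · have hd4 : (4 : ℝ) ≤ d := by
      have : 4 ≤ d := by omega
      exact_mod_cast this
    have hB' : (2 : ℝ) * d * (EE S Y).card + 3 * Fintype.card S ≤ 2 * d * Fintype.card S := by
      exact_mod_cast hB
    have hpos : (0 : ℝ) < 2 * d := by linarith
    have h1 : ((EE S Y).card : ℝ) ≤ (1 - 3 / (2 * d)) * Fintype.card S := by
      have : (1 - 3 / (2 * (d : ℝ))) * Fintype.card S =
          (2 * d * Fintype.card S - 3 * Fintype.card S) / (2 * d) := by
        field_simp
      rw [this, le_div_iff₀ hpos]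
      linarith
    refine h1.trans (mul_le_mul_of_nonneg_right ?_ hcS)
    have hpos2 : (0 : ℝ) < 2 * d * (d - 1) * (d - 2) := by
      apply mul_pos (mul_pos (by linarith) (by linarith)) (by linarith)
    have : ((d : ℝ) - 2) / (d - 1) - 1 / (d * (d - 1) * (d - 2)) - (1 - 3 / (2 * d)) =
        ((d - 1) * (d - 4)) / (2 * d * (d - 1) * (d - 2)) := by
      field_simp
      ring
    have h2 : 0 ≤ (((d : ℝ) - 1) * (d - 4)) / (2 * d * (d - 1) * (d - 2)) :=
      div_nonneg (mul_nonneg (by linarith) (by linarith)) hpos2.le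
    linarith

end Combined

end Pool.Agent.TreeFPP
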