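import Pool.Agent.TreeFPP.Fin3

open Finset

namespace Pool.Agent.TreeFPP

section Faithful

variable {Q Y : Type*} [Group Q] [Fintype Q] [MulAction Q Y] [Fintype Y] [DecidableEq Y]

/-- a conjugate of a derangement is a derangement -/
lemma conj_der {s u : Q} (hs : s ∈ der Q (univ : Finset Y)) :
    u * s * u⁻¹ ∈ der Q (univ : Finset Y) := by
  rw [mem_der] at hs ⊢
  intro y _ h
  apply hs (u⁻¹ • y) (mem_univ _)
  rw [mul_smul, mul_smul] at h
  have h1 := congrArg (fun z => u⁻¹ • z) h
  simpa using h1

lemma ker_eq_one (hf : ∀ s : Q, (∀ y : Y, s • y = y) → s = 1) :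
    ker Q (univ : Finset Y) = {1} := by
  ext s
  rw [mem_ker, mem_singleton]
  constructor
  · intro h
    exact hf s (fun y => h y (mem_univ _))
  · rintro rfl y _
    exact one_smul _ _

/-- transitivity -/
lemma sharp_trans (h2 : 2 ≤ Fintype.card Y) (hS : Sharp Q (univ : Finset Y)) (x y : Y) :
    ∃ s : Q, s • x = y := by
  classical
  obtain ⟨x', hx'⟩ : ∃ x' : Y, x' ≠ x := by
    by_contra h
    push Not at h
    have : Fintype.card Y ≤ 1 := Fintype.card_le_one_iff.mpr (fun a b => (h a).trans (h b).symm)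
    omega
  obtain ⟨y', hy'⟩ : ∃ y' : Y, y' ≠ y := by
    by_contra h
    push Not at h
    have : Fintype.card Y ≤ 1 := Fintype.card_le_one_iff.mpr (fun a b => (h a).trans (h b).symm)
    omega
  obtain ⟨s, hs, _⟩ := hS.two x (mem_univ _) x' (mem_univ _) y (mem_univ _) y' (mem_univ _)
    hx'.symm hy'.symm
  exact ⟨s, hs⟩

lemma card_der_eq (h2 : 2 ≤ Fintype.card Y) (hS : Sharp Q (univ : Finset Y))
    (hf : ∀ s : Q, (∀ y : Y, s • y = y) → s = 1) :
    (der Q (univ : Finset Y)).card = Fintype.card Y - 1 := by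
  have hne : (univ : Finset Y).Nonempty := by
    rw [← card_pos, card_univ]
    omega
  rw [count_der hne (fun _ _ _ => mem_univ _) (fun x _ y _ => sharp_trans h2 hS x y) hS.triv,
    ker_eq_one hf, card_singleton, mul_one, card_univ]

/-- there is a derangement mapping `x` to `y` -/
lemma exists_der (h2 : 2 ≤ Fintype.card Y) (hS : Sharp Q (univ : Finset Y))
    (hf : ∀ s : Q, (∀ y : Y, s • y = y) → s = 1) {x y : Y} (hxy : y ≠ x) :
    ∃ s ∈ der Q (univ : Finset Y), s • x = y := by
  have hpos : 0 < (der Q (univ : Finset Y)).card := by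
    rw [card_der_eq h2 hS hf]
    omega
  obtain ⟨s, hs⟩ := card_pos.mp hpos
  have hsx : s • x ≠ x := mem_der.mp hs x (mem_univ _)
  obtain ⟨u, hu, hu'⟩ := hS.two x (mem_univ _) (s • x) (mem_univ _) x (mem_univ _) y (mem_univ _)
    hsx.symm hxy.symm
  refine ⟨u * s * u⁻¹, conj_der hs, ?_⟩
  have hux : u⁻¹ • x = x := by rw [inv_smul_eq_iff, hu]
  rw [mul_smul, mul_smul, hux, hu']

/-- a derangement is determined by one value -/
lemma der_unique (h2 : 2 ≤ Fintype.card Y) (hS : Sharp Q (univ : Finset Y))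
    (hf : ∀ s : Q, (∀ y : Y, s • y = y) → s = 1) {x : Y} {s t : Q}
    (hs : s ∈ der Q (univ : Finset Y)) (ht : t ∈ der Q (univ : Finset Y))
    (h : s • x = t • x) : s = t := by
  have key := Finset.inj_on_of_surj_on_of_card_le (s := der Q (univ : Finset Y))
    (t := (univ : Finset Y).erase x) (fun s _ => s • x)
    (fun s hs => mem_erase.mpr ⟨mem_der.mp hs x (mem_univ _), mem_univ _⟩)
    (fun y hy => by
      obtain ⟨s, hs, hsy⟩ := exists_der h2 hS hf (mem_erase.mp hy).1
      exact ⟨s, hs, hsy⟩)
    (by rw [card_der_eq h2 hS hf, card_erase_of_mem (mem_univ _), card_univ])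
  exact key hs ht h

/-- the translations -/
def transl (h2 : 2 ≤ Fintype.card Y) (hS : Sharp Q (univ : Finset Y))
    (hf : ∀ s : Q, (∀ y : Y, s • y = y) → s = 1) : Subgroup Q where
  carrier := {s | s = 1 ∨ s ∈ der Q (univ : Finset Y)}
  one_mem' := Or.inl rfl
  mul_mem' := by
    rintro s t (rfl | hs) (rfl | ht)
    · left; simp
    · right; simpa using ht
    · right; simpa using hs
    · by_cases h : s * t ∈ der Q (univ : Finset Y)
      · exact Or.inr h
      left
      rw [mem_der] at h
      push Not at h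
      obtain ⟨x, _, hx⟩ := h
      rw [mul_smul] at hx
      have htx : t⁻¹ ∈ der Q (univ : Finset Y) := by
        rw [mem_der] at ht ⊢
        intro y _ hy
        apply ht y (mem_univ _)
        rw [inv_smul_eq_iff] at hy
        exact hy.symm
      have e : s • (t • x) = t⁻¹ • (t • x) := by rw [hx, inv_smul_smul]
      have := der_unique h2 hS hf hs htx e
      rw [this, inv_mul_cancel]
  inv_mem' := by
    rintro s (rfl | hs)
    · left; simp
    · right
      rw [mem_der] at hs ⊢
      intro y _ hy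
      apply hs y (mem_univ _)
      rw [inv_smul_eq_iff] at hy
      exact hy.symm

lemma mem_transl (h2 : 2 ≤ Fintype.card Y) (hS : Sharp Q (univ : Finset Y))
    (hf : ∀ s : Q, (∀ y : Y, s • y = y) → s = 1) {s : Q} :
    s ∈ transl h2 hS hf ↔ s = 1 ∨ s ∈ der Q (univ : Finset Y) := Iff.rfl

lemma card_transl (h2 : 2 ≤ Fintype.card Y) (hS : Sharp Q (univ : Finset Y))
    (hf : ∀ s : Q, (∀ y : Y, s • y = y) → s = 1) :
    Nat.card (transl h2 hS hf) = Fintype.card Y := by
  classical
  have h1 : (1 : Q) ∉ der Q (univ : Finset Y) := by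
    rw [mem_der]
    intro h
    have : 0 < Fintype.card Y := by omega
    obtain ⟨y⟩ := Fintype.card_pos_iff.mp this
    exact h y (mem_univ _) (one_smul _ _)
  have h3 : ((transl h2 hS hf : Subgroup Q) : Set Q) =
      ((insert 1 (der Q (univ : Finset Y)) : Finset Q) : Set Q) := by
    ext s
    rw [SetLike.mem_coe, mem_transl, Finset.coe_insert, Set.mem_insert_iff, Finset.mem_coe]
  have h4 : Nat.card (transl h2 hS hf) = ((transl h2 hS hf : Subgroup Q) : Set Q).ncard := rfl
  rw [h4, h3, Set.ncard_coe_finset, card_insert_of_notMem h1, card_der_eq h2 hS hf]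
  omega

theorem prime_pow_faithful (h2 : 2 ≤ Fintype.card Y) (hS : Sharp Q (univ : Finset Y))
    (hf : ∀ s : Q, (∀ y : Y, s • y = y) → s = 1) : IsPrimePow (Fintype.card Y) := by
  classical
  set T := transl h2 hS hf with hT
  have hcard : Nat.card T = Fintype.card Y := card_transl h2 hS hf
  set p := (Fintype.card Y).minFac with hp
  have hpp : p.Prime := Nat.minFac_prime (by omega)
  haveI : Fact p.Prime := ⟨hpp⟩
  have hdvd : p ∣ Nat.card T := by rw [hcard]; exact Nat.minFac_dvd _
  obtain ⟨t, ht⟩ := exists_prime_orderOf_dvd_card' p hdvd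
  have ht1 : (t : Q) ≠ 1 := by
    intro h
    have : t = 1 := Subtype.ext h
    rw [this, orderOf_one] at ht
    exact hpp.one_lt.ne ht
  have htd : (t : Q) ∈ der Q (univ : Finset Y) := by
    rcases (mem_transl h2 hS hf).mp t.2 with h | h
    · exact absurd h ht1
    · exact h
  have htp : (t : Q) ^ p = 1 := by
    have := pow_orderOf_eq_one t
    rw [ht] at this
    exact congrArg Subtype.val this
  obtain ⟨x⟩ : Nonempty Y := Fintype.card_pos_iff.mp (by omega)
  have hPG : IsPGroup p T := by
    intro s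
    refine ⟨1, ?_⟩
    rw [pow_one]
    apply Subtype.ext
    rw [Subgroup.coe_pow, Subgroup.coe_one]
    rcases (mem_transl h2 hS hf).mp s.2 with h | h
    · rw [h, one_pow]
    · obtain ⟨u, hu, hu'⟩ := hS.two x (mem_univ _) ((s : Q) • x) (mem_univ _) x (mem_univ _)
        ((t : Q) • x) (mem_univ _) (mem_der.mp h x (mem_univ _)).symm
        (mem_der.mp htd x (mem_univ _)).symm
      have hux : u⁻¹ • x = x := by rw [inv_smul_eq_iff, hu]
      have e : (u * s * u⁻¹) • x = (t : Q) • x := by
        rw [mul_smul, mul_smul, hux, hu']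
      have e2 := der_unique h2 hS hf (conj_der (u := u) h) htd e
      have e3 : (u * s * u⁻¹) ^ p = 1 := by rw [e2, htp]
      rw [conj_pow] at e3
      have e4 : u * (s : Q) ^ p = u := by
        have := congrArg (fun z => z * u) e3
        simpa using this
      exact mul_eq_left.mp e4
  obtain ⟨n, hn⟩ := IsPGroup.iff_card.mp hPG
  rw [hcard] at hn
  rw [hn]
  apply hpp.isPrimePow.pow
  rintro rfl
  rw [pow_zero] at hn
  omega

end Faithful

section General

variable {S A : Type*} [Group S] [Fintype S] [MulAction S A] [DecidableEq A]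

/-- the permutation of `X` induced by `s` -/
def indPerm {X : Finset A} (hinv : ∀ s : S, ∀ x ∈ X, s • x ∈ X) :
    S →* Equiv.Perm {x // x ∈ X} where
  toFun s :=
    { toFun := fun y => ⟨s • (y : A), hinv s y y.2⟩
      invFun := fun y => ⟨s⁻¹ • (y : A), hinv s⁻¹ y y.2⟩
      left_inv := fun y => Subtype.ext (by simp)
      right_inv := fun y => Subtype.ext (by simp) }
  map_one' := by
    ext y
    simp
  map_mul' s t := by
    ext y
    simp [mul_smul]

lemma indPerm_apply {X : Finset A} (hinv : ∀ s : S, ∀ x ∈ X, s • x ∈ X) (s : S)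
    (y : {x // x ∈ X}) : ((indPerm hinv s y : {x // x ∈ X}) : A) = s • (y : A) := rfl

/-- the degree of a sharply two-transitive finite group is a prime power -/
theorem prime_pow_of_sharp {X : Finset A} (hinv : ∀ s : S, ∀ x ∈ X, s • x ∈ X) (h2 : 2 ≤ X.card)
    (hS : Sharp S X) : IsPrimePow X.card := by
  classical
  haveI : Finite (indPerm hinv).range := inferInstance
  letI : Fintype (indPerm hinv).range := Fintype.ofFinite _
  rw [← Fintype.card_coe X]
  apply prime_pow_faithful (Q := (indPerm hinv).range) (Y := {x // x ∈ X})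
  · rw [Fintype.card_coe]; exact h2
  · constructor
    · intro x _ x' _ y _ y' _ hx hy
      obtain ⟨s, hs, hs'⟩ := hS.two x x.2 x' x'.2 y y.2 y' y'.2 (fun h => hx (Subtype.ext h))
        (fun h => hy (Subtype.ext h))
      exact ⟨⟨indPerm hinv s, s, rfl⟩, Subtype.ext hs, Subtype.ext hs'⟩
    · rintro ⟨_, s, rfl⟩ x _ x' _ hx h1 h2 z _
      have h1' : s • (x : A) = x := congrArg Subtype.val h1
      have h2' : s • (x' : A) = x' := congrArg Subtype.val h2
      exact Subtype.ext (hS.triv s x x.2 x' x'.2 (fun h => hx (Subtype.ext h)) h1' h2' z z.2)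
  · rintro ⟨q, hq⟩ h
    apply Subtype.ext
    show q = 1
    ext y
    have := h y
    exact congrArg Subtype.val this

end General

end Pool.Agent.TreeFPP
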