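import Pool.Agent.TreeFPP.Defs
import Pool.Agent.TreeFPP.Fin7

namespace Pool.Agent.TreeFPP

variable {d : ℕ}

lemma mem_TreeAut {g : Equiv.Perm (List (Fin d))} :
    g ∈ TreeAut d ↔ ∀ w, g w.dropLast = (g w).dropLast := Iff.rfl

lemma aut_nil {g : Equiv.Perm (List (Fin d))} (hg : g ∈ TreeAut d) : g [] = [] := by
  have h := hg []
  rw [List.dropLast_nil] at h
  have h1 := congrArg List.length h
  rw [List.length_dropLast] at h1
  apply List.eq_nil_of_length_eq_zero
  omega

lemma aut_length {g : Equiv.Perm (List (Fin d))} (hg : g ∈ TreeAut d) (w : List (Fin d)) :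
    (g w).length = w.length := by
  induction w using List.reverseRecOn with
  | nil => rw [aut_nil hg]
  | append_singleton u i ih =>
    have h1 := hg (u ++ [i])
    rw [List.dropLast_concat] at h1
    have hne : g (u ++ [i]) ≠ [] := by
      intro h
      have h2 : g (u ++ [i]) = g [] := by rw [h, aut_nil hg]
      have h3 := g.injective h2
      simp at h3
    have h4 : (g (u ++ [i])).dropLast.length = (g (u ++ [i])).length - 1 := List.length_dropLast
    rw [← h1, ih] at h4
    have h5 : 0 < (g (u ++ [i])).length := List.length_pos_iff.mpr hne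
    rw [List.length_append, List.length_singleton]
    omega

lemma aut_take {g : Equiv.Perm (List (Fin d))} (hg : g ∈ TreeAut d) (w : List (Fin d)) (n : ℕ) :
    g (w.take n) = (g w).take n := by
  induction w using List.reverseRecOn with
  | nil => rw [List.take_nil, aut_nil hg, List.take_nil]
  | append_singleton u i ih =>
    rcases Nat.lt_or_ge u.length n with h | h
    · rw [List.take_of_length_le, List.take_of_length_le]
      · rw [aut_length hg]
        simp
        omega
      · simp
        omega
    · rw [List.take_append_of_le_length h, ih]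
      have h1 := hg (u ++ [i])
      rw [List.dropLast_concat] at h1
      rw [h1, List.dropLast_eq_take, List.take_take, aut_length hg]
      congr 1
      simp
      omega

/-- truncation of an automorphism -/
def truncFun (N : ℕ) (g : Equiv.Perm (List (Fin d))) (u : List (Fin d)) : List (Fin d) :=
  g (u.take N) ++ u.drop N

lemma truncFun_take {g : Equiv.Perm (List (Fin d))} (hg : g ∈ TreeAut d) (N : ℕ)
    (u : List (Fin d)) : (truncFun N g u).take N = g (u.take N) := by
  unfold truncFun
  rcases Nat.lt_or_ge u.length N with h | h
  · rw [List.drop_eq_nil_of_le h.le, List.append_nil, List.take_of_length_le]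
    rw [aut_length hg, List.length_take]
    omega
  · have : (g (u.take N)).length = N := by rw [aut_length hg, List.length_take]; omega
    rw [List.take_append_of_le_length this.ge, List.take_of_length_le this.le]

lemma truncFun_drop {g : Equiv.Perm (List (Fin d))} (hg : g ∈ TreeAut d) (N : ℕ)
    (u : List (Fin d)) : (truncFun N g u).drop N = u.drop N := by
  unfold truncFun
  rcases Nat.lt_or_ge u.length N with h | h
  · rw [List.drop_eq_nil_of_le h.le, List.append_nil, List.drop_eq_nil_of_le]
    rw [aut_length hg, List.length_take]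
    omega
  · have : (g (u.take N)).length = N := by rw [aut_length hg, List.length_take]; omega
    rw [List.drop_append_of_le_length this.ge, List.drop_eq_nil_of_le this.le, List.nil_append]

lemma truncFun_comp {g h : Equiv.Perm (List (Fin d))} (hh : h ∈ TreeAut d) (N : ℕ)
    (u : List (Fin d)) : truncFun N g (truncFun N h u) = truncFun N (g * h) u := by
  show g ((truncFun N h u).take N) ++ (truncFun N h u).drop N = _
  rw [truncFun_take hh, truncFun_drop hh]
  rfl

/-- truncation as a permutation -/
def truncPerm (N : ℕ) (g : TreeAut d) : Equiv.Perm (List (Fin d)) where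
  toFun := truncFun N g
  invFun := truncFun N (g⁻¹ : TreeAut d)
  left_inv u := by
    rw [truncFun_comp g.2]
    rw [← Subgroup.coe_mul, inv_mul_cancel]
    simp [truncFun]
  right_inv u := by
    rw [truncFun_comp (g⁻¹ : TreeAut d).2]
    rw [← Subgroup.coe_mul, mul_inv_cancel]
    simp [truncFun]

/-- truncation as a homomorphism -/
def truncHom (d N : ℕ) : TreeAut d →* Equiv.Perm (List (Fin d)) where
  toFun := truncPerm N
  map_one' := by
    ext1 u
    show truncFun N _ u = u
    simp [truncFun]
  map_mul' g h := by
    ext1 u
    show truncFun N _ u = truncFun N _ (truncFun N _ u)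
    rw [truncFun_comp h.2]
    rfl

lemma truncHom_apply (N : ℕ) (g : TreeAut d) (u : List (Fin d)) :
    truncHom d N g u = (g : Equiv.Perm (List (Fin d))) (u.take N) ++ u.drop N := rfl

lemma truncHom_of_le {N : ℕ} (g : TreeAut d) {u : List (Fin d)} (hu : u.length ≤ N) :
    truncHom d N g u = (g : Equiv.Perm (List (Fin d))) u := by
  rw [truncHom_apply, List.take_of_length_le hu, List.drop_eq_nil_of_le hu, List.append_nil]

lemma truncHom_mem (N : ℕ) (g : TreeAut d) : truncHom d N g ∈ TreeAut d := by
  intro u
  rcases Nat.lt_or_ge N u.length with h | h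
  · rw [truncHom_apply, truncHom_apply]
    have hne : u.drop N ≠ [] := by
      intro h0
      rw [List.drop_eq_nil_iff] at h0
      omega
    rw [List.dropLast_append_of_ne_nil hne]
    have e1 : u.dropLast.take N = u.take N := by
      rw [List.dropLast_eq_take, List.take_take]
      congr 1
      omega
    have e2 : u.dropLast.drop N = (u.drop N).dropLast := by
      rw [List.dropLast_eq_take, List.dropLast_eq_take, List.drop_take, List.length_drop]
      congr 1
      omega
    rw [e1, e2]
  · rw [truncHom_of_le g h, truncHom_of_le g (by rw [List.length_dropLast]; omega)]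
    exact g.2 u

/-- the truncated group -/
def truncGroup (G : Subgroup (Equiv.Perm (List (Fin d)))) (N : ℕ) :
    Subgroup (Equiv.Perm (List (Fin d))) :=
  (G.subgroupOf (TreeAut d)).map (truncHom d N)

lemma mem_truncGroup {G : Subgroup (Equiv.Perm (List (Fin d)))} {N : ℕ}
    {γ : Equiv.Perm (List (Fin d))} : γ ∈ truncGroup G N ↔
      ∃ g : TreeAut d, (g : Equiv.Perm (List (Fin d))) ∈ G ∧ truncHom d N g = γ := by
  unfold truncGroup
  rw [Subgroup.mem_map]
  rfl

lemma truncGroup_le (G : Subgroup (Equiv.Perm (List (Fin d)))) (N : ℕ) :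
    truncGroup G N ≤ TreeAut d := by
  intro γ hγ
  obtain ⟨g, _, rfl⟩ := mem_truncGroup.mp hγ
  exact truncHom_mem N g

instance truncGroup_finite (G : Subgroup (Equiv.Perm (List (Fin d)))) (N : ℕ) :
    Finite (truncGroup G N) := by
  have hfin : Finite {w : List (Fin d) // w.length ≤ N} :=
    (List.finite_length_le (Fin d) N).to_subtype
  let F : truncGroup G N → ({w : List (Fin d) // w.length ≤ N} →
      {w : List (Fin d) // w.length ≤ N}) := fun γ w =>
    ⟨(γ : Equiv.Perm (List (Fin d))) w, by rw [aut_length (truncGroup_le G N γ.2)]; exact w.2⟩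
  apply Finite.of_injective F
  rintro ⟨γ, hγ⟩ ⟨δ, hδ⟩ h
  obtain ⟨g, hg, rfl⟩ := mem_truncGroup.mp hγ
  obtain ⟨g', hg', rfl⟩ := mem_truncGroup.mp hδ
  rw [Subtype.mk.injEq]
  ext1 u
  rw [truncHom_apply, truncHom_apply]
  have h1 := congrFun h ⟨u.take N, by rw [List.length_take]; omega⟩
  have h2 : truncHom d N g (u.take N) = truncHom d N g' (u.take N) := congrArg Subtype.val h1
  rw [truncHom_of_le g (by rw [List.length_take]; omega),
    truncHom_of_le g' (by rw [List.length_take]; omega)] at h2
  rw [h2]

end Pool.Agent.TreeFPP
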