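import Pool.Agent.TreeFPP.Tree1

open Finset

namespace Pool.Agent.TreeFPP

/-- proportions in an image of a homomorphism -/
lemma ratio_image {Γ H : Type*} [Group Γ] [Fintype Γ] [Group H] [DecidableEq H] (r : Γ →* H)
    (Q : H → Prop) [DecidablePred Q] :
    ((univ.filter (fun γ : Γ => Q (r γ))).card : ℝ) / (Fintype.card Γ : ℝ) =
      (((univ.image r).filter Q).card : ℝ) / ((univ.image r).card : ℝ) := by
  classical
  set c := (univ.filter (fun γ : Γ => r γ = 1)).card with hc
  have hfib : ∀ h ∈ univ.image r, (univ.filter (fun γ : Γ => r γ = h)).card = c := by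
    intro h hh
    obtain ⟨γ₀, _, rfl⟩ := mem_image.mp hh
    apply Finset.card_bij (fun γ _ => γ₀⁻¹ * γ)
    · intro γ hγ
      rw [mem_filter] at hγ ⊢
      refine ⟨mem_univ _, ?_⟩
      rw [map_mul, map_inv, hγ.2, inv_mul_cancel]
    · intro a _ b _ hab
      exact mul_left_cancel hab
    · intro b hb
      rw [mem_filter] at hb
      refine ⟨γ₀ * b, ?_, by simp⟩
      rw [mem_filter]
      exact ⟨mem_univ _, by rw [map_mul, hb.2, mul_one]⟩
  have hcpos : 0 < c := card_pos.mpr ⟨1, by rw [mem_filter]; exact ⟨mem_univ _, map_one r⟩⟩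
  have h1 : Fintype.card Γ = (univ.image r).card * c := by
    rw [← card_univ, Finset.card_eq_sum_card_image r univ, Finset.sum_const_nat hfib]
  have h2 : (univ.filter (fun γ : Γ => Q (r γ))).card = ((univ.image r).filter Q).card * c := by
    have e : (univ.filter (fun γ : Γ => Q (r γ))).card =
        ∑ h ∈ (univ.image r).filter Q, ((univ.filter (fun γ : Γ => Q (r γ))).filter
          (fun γ => r γ = h)).card := by
      apply Finset.card_eq_sum_card_fiberwise
      intro γ hγ
      rw [mem_coe, mem_filter] at hγ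
      rw [mem_coe, mem_filter, mem_image]
      exact ⟨⟨γ, mem_univ _, rfl⟩, hγ.2⟩
    rw [e]
    apply Finset.sum_const_nat
    intro h hh
    rw [mem_filter] at hh
    rw [← hfib h hh.1]
    congr 1
    ext γ
    simp only [mem_filter, mem_univ, true_and]
    constructor
    · exact fun h => h.2
    · intro h
      exact ⟨by rw [h]; exact hh.2, h⟩
  rw [h1, h2]
  push_cast
  have : (c : ℝ) ≠ 0 := by exact_mod_cast hcpos.ne'
  rw [mul_div_mul_right _ _ this]

variable {d : ℕ}

/-- restriction to a level -/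
def levelHom (d n : ℕ) : TreeAut d →* Equiv.Perm {w : List (Fin d) // w.length = n} where
  toFun g := (g : Equiv.Perm (List (Fin d))).subtypePerm (fun w => by rw [aut_length g.2])
  map_one' := by
    ext1 w
    rfl
  map_mul' g h := by
    ext1 w
    rfl

lemma levelHom_apply (n : ℕ) (g : TreeAut d) (w : {w : List (Fin d) // w.length = n}) :
    (levelHom d n g w : List (Fin d)) = (g : Equiv.Perm (List (Fin d))) w := rfl

lemma levelPerms_eq {G : Subgroup (Equiv.Perm (List (Fin d)))} (hG : G ≤ TreeAut d) {n N : ℕ}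
    (hn : n ≤ N) (σ : Equiv.Perm {w : List (Fin d) // w.length = n}) :
    σ ∈ levelPerms G n ↔ ∃ γ : truncGroup G N, levelHom d n ⟨γ, truncGroup_le G N γ.2⟩ = σ := by
  constructor
  · rintro ⟨g, hg, h⟩
    refine ⟨⟨truncHom d N ⟨g, hG hg⟩, mem_truncGroup.mpr ⟨⟨g, hG hg⟩, hg, rfl⟩⟩, ?_⟩
    ext1 w
    apply Subtype.ext
    rw [levelHom_apply, h w]
    exact truncHom_of_le _ (by rw [w.2]; exact hn)
  · rintro ⟨⟨γ, hγ⟩, rfl⟩
    obtain ⟨g, hg, rfl⟩ := mem_truncGroup.mp hγ
    refine ⟨g, hg, fun w => ?_⟩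
    rw [levelHom_apply]
    exact truncHom_of_le _ (by rw [w.2]; exact hn)

/-- the fixed point proportion through the truncated group -/
lemma fixRatio_eq {G : Subgroup (Equiv.Perm (List (Fin d)))} (hG : G ≤ TreeAut d) {n N : ℕ}
    (hn : n ≤ N) [Fintype (truncGroup G N)]
    [DecidablePred (fun γ : truncGroup G N => ∃ u : List (Fin d), u.length = n ∧
      (γ : Equiv.Perm (List (Fin d))) u = u)] :
    fixRatio G n = ((univ.filter (fun γ : truncGroup G N => ∃ u : List (Fin d), u.length = n ∧
      (γ : Equiv.Perm (List (Fin d))) u = u)).card : ℝ) / (Fintype.card (truncGroup G N) : ℝ) := by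
  classical
  let r : truncGroup G N →* Equiv.Perm {w : List (Fin d) // w.length = n} :=
    (levelHom d n).comp (Subgroup.inclusion (truncGroup_le G N))
  have hr : ∀ γ : truncGroup G N, r γ = levelHom d n ⟨γ, truncGroup_le G N γ.2⟩ := fun _ => rfl
  have h1 : levelPerms G n = ((univ.image r : Finset _) : Set _) := by
    ext σ
    rw [levelPerms_eq hG hn, mem_coe, mem_image]
    simp [hr]
  have h2 : {σ ∈ levelPerms G n | ∃ w, σ w = w} =
      (((univ.image r).filter (fun σ => ∃ w, σ w = w) : Finset _) : Set _) := by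
    ext σ
    rw [Set.mem_setOf_eq, h1, mem_coe, mem_coe, mem_filter]
  unfold fixRatio
  rw [h2, h1, Set.ncard_coe_finset, Set.ncard_coe_finset, ← ratio_image r]
  congr 2
  apply congrArg
  ext γ
  simp only [mem_filter, mem_univ, true_and]
  constructor
  · rintro ⟨w, hw⟩
    exact ⟨w, w.2, congrArg Subtype.val hw⟩
  · rintro ⟨u, hu, h⟩
    exact ⟨⟨u, hu⟩, Subtype.ext h⟩

end Pool.Agent.TreeFPP
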