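import Pool.Agent.TreeFPP.Tree3

open Finset

namespace Pool.Agent.TreeFPP

variable {d : ℕ}

/-- good local structure when the proportion is large -/
lemma local_good {G : Subgroup (Equiv.Perm (List (Fin d)))} (hG : G ≤ TreeAut d)
    (ht : LevelTransitive G) (hd : 3 ≤ d) (w : List (Fin d))
    (hbig : ((d : ℝ) - 2) / (d - 1) - gapEps d < fixRatio G (w.length + 2)) :
    Sharp (MulAction.stabilizer (truncGroup G (w.length + 2)) w) (Xw w) ∧
    NeverLose (MulAction.stabilizer (truncGroup G (w.length + 2)) w) (Xw w) (Yw w)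
      List.dropLast := by
  classical
  have : Fintype (truncGroup G (w.length + 2)) := Fintype.ofFinite _
  have : Fintype (MulAction.stabilizer (truncGroup G (w.length + 2)) w) := Fintype.ofFinite _
  rcases two_level (two_at hG ht (N := w.length + 2) w le_rfl) hd with h | h
  · exfalso
    have hu := union_bound hG ht (N := w.length + 2) w le_rfl
    rw [fixRatio_eq hG (le_refl (w.length + 2))] at hbig
    have hS : (0 : ℝ) < Fintype.card (MulAction.stabilizer (truncGroup G (w.length + 2)) w) := by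
      exact_mod_cast Fintype.card_pos
    have hΓ : (0 : ℝ) < Fintype.card (truncGroup G (w.length + 2)) := by
      exact_mod_cast Fintype.card_pos
    rw [lt_div_iff₀ hΓ] at hbig
    have hu' : ((univ.filter (fun γ : truncGroup G (w.length + 2) =>
        ∃ u : List (Fin d), u.length = w.length + 2 ∧
        (γ : Equiv.Perm (List (Fin d))) u = u)).card : ℝ) *
        Fintype.card (MulAction.stabilizer (truncGroup G (w.length + 2)) w) ≤
        Fintype.card (truncGroup G (w.length + 2)) *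
        (EE (MulAction.stabilizer (truncGroup G (w.length + 2)) w) (Yw w)).card := by
      exact_mod_cast hu
    have h1 := mul_lt_mul_of_pos_right hbig hS
    have h2 := mul_le_mul_of_nonneg_left h hΓ.le
    have h3 := lt_of_lt_of_le (lt_of_lt_of_le h1 hu') h2
    apply lt_irrefl _ (lt_of_lt_of_le h3 (le_of_eq _))
    ring
  · exact h

/-- consequences for the group itself: never lose -/
lemma never_lose {G : Subgroup (Equiv.Perm (List (Fin d)))} (hG : G ≤ TreeAut d)
    (ht : LevelTransitive G) (hd : 3 ≤ d) (w : List (Fin d))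
    (hbig : ((d : ℝ) - 2) / (d - 1) - gapEps d < fixRatio G (w.length + 2))
    {g : Equiv.Perm (List (Fin d))} (hg : g ∈ G) (hgw : g w = w) {x : List (Fin d)}
    (hx : x ∈ Xw w) (hgx : g x = x) (hmov : ∃ x' ∈ Xw w, g x' ≠ x') :
    (∃ y ∈ Xw x, g y = y) ∧ (∃ y ∈ Xw x, g y ≠ y) := by
  have h := (local_good hG ht hd w hbig).2
  let γ : truncGroup G (w.length + 2) := ⟨truncHom d _ ⟨g, hG hg⟩,
    mem_truncGroup.mpr ⟨⟨g, hG hg⟩, hg, rfl⟩⟩
  have hγ : ∀ u : List (Fin d), u.length ≤ w.length + 2 → γ • u = g u := by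
    intro u hu
    exact truncHom_of_le _ hu
  have hγw : γ • w = w := by rw [hγ w (by omega), hgw]
  let s : MulAction.stabilizer (truncGroup G (w.length + 2)) w := ⟨γ, hγw⟩
  have hs : ∀ u : List (Fin d), s • u = γ • u := fun _ => rfl
  have hxl := (mem_Xw.mp hx).2
  obtain ⟨h1, h2⟩ := h s x hx (by rw [hs, hγ x (by omega), hgx]) (by
    obtain ⟨x', hx', hne⟩ := hmov
    refine ⟨x', hx', ?_⟩
    rw [hs, hγ x' (by have := (mem_Xw.mp hx').2; omega)]
    exact hne)
  rw [Fb_eq hx] at h1 h2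
  constructor
  · obtain ⟨y, hy, hsy⟩ := h1
    refine ⟨y, hy, ?_⟩
    rw [hs, hγ y (by have := (mem_Xw.mp hy).2; omega)] at hsy
    exact hsy
  · obtain ⟨y, hy, hsy⟩ := h2
    refine ⟨y, hy, ?_⟩
    rw [hs, hγ y (by have := (mem_Xw.mp hy).2; omega)] at hsy
    exact hsy

/-- sharpness at the root, for the group itself -/
lemma sharp_root {G : Subgroup (Equiv.Perm (List (Fin d)))} (hG : G ≤ TreeAut d)
    (ht : LevelTransitive G) (hd : 3 ≤ d)
    (hbig : ((d : ℝ) - 2) / (d - 1) - gapEps d < fixRatio G 2) {N : ℕ} (hN : 1 ≤ N) :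
    Sharp (truncGroup G N) (Xw ([] : List (Fin d))) := by
  have h := (local_good hG ht hd [] hbig).1
  have key : ∀ (M : ℕ) (g : TreeAut d) (u : List (Fin d)), 1 ≤ M → u ∈ Xw ([] : List (Fin d)) →
      truncHom d M g u = (g : Equiv.Perm (List (Fin d))) u := by
    intro M g u hM hu
    rw [mem_Xw] at hu
    exact truncHom_of_le g (by rw [hu.2]; exact hM)
  constructor
  · intro x hx x' hx' y hy y' hy' h1 h2
    obtain ⟨s, hs1, hs2⟩ := h.two x hx x' hx' y hy y' hy' h1 h2
    obtain ⟨⟨γ, hγ⟩, _⟩ := s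
    obtain ⟨g, hg, rfl⟩ := mem_truncGroup.mp hγ
    have e1 : truncHom d _ g x = y := hs1
    have e2 : truncHom d _ g x' = y' := hs2
    rw [key _ g x (by simp) hx] at e1
    rw [key _ g x' (by simp) hx'] at e2
    refine ⟨⟨truncHom d N g, mem_truncGroup.mpr ⟨g, hg, rfl⟩⟩, ?_, ?_⟩
    · show truncHom d N g x = y
      rw [key _ g x hN hx, e1]
    · show truncHom d N g x' = y'
      rw [key _ g x' hN hx', e2]
  · intro s x hx x' hx' hne h1 h2 z hz
    obtain ⟨γ, hγ⟩ := s
    obtain ⟨g, hg, rfl⟩ := mem_truncGroup.mp hγ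
    have e1 : truncHom d N g x = x := h1
    have e2 : truncHom d N g x' = x' := h2
    rw [key _ g x hN hx] at e1
    rw [key _ g x' hN hx'] at e2
    let γ2 : truncGroup G (([] : List (Fin d)).length + 2) :=
      ⟨truncHom d _ g, mem_truncGroup.mpr ⟨g, hg, rfl⟩⟩
    have hnil : γ2 • ([] : List (Fin d)) = [] := aut_nil (truncGroup_le G _ γ2.2)
    have h3 := h.triv ⟨γ2, hnil⟩ x hx x' hx' hne
      (by show truncHom d _ g x = x; rw [key _ g x (by simp) hx, e1])
      (by show truncHom d _ g x' = x'; rw [key _ g x' (by simp) hx', e2]) z hz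
    have h4 : truncHom d _ g z = z := h3
    rw [key _ g z (by simp) hz] at h4
    show truncHom d N g z = z
    rw [key _ g z hN hz, h4]

/-- persistence of fixed points -/
lemma persist {G : Subgroup (Equiv.Perm (List (Fin d)))} (hG : G ≤ TreeAut d)
    (ht : LevelTransitive G) (hd : 3 ≤ d)
    (hbig : ∀ n, ((d : ℝ) - 2) / (d - 1) - gapEps d < fixRatio G n)
    {g : Equiv.Perm (List (Fin d))} (hg : g ∈ G) (h1 : ∃ x ∈ Xw ([] : List (Fin d)), g x = x)
    (h2 : ∃ x ∈ Xw ([] : List (Fin d)), g x ≠ x) (n : ℕ) :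
    ∃ u : List (Fin d), u.length = n ∧ g u = u ∧ (∃ x ∈ Xw u, g x = x) ∧ (∃ x ∈ Xw u, g x ≠ x) := by
  induction n with
  | zero => exact ⟨[], rfl, aut_nil (hG hg), h1, h2⟩
  | succ n ih =>
    obtain ⟨u, hu, hgu, ⟨x, hx, hgx⟩, hmov⟩ := ih
    refine ⟨x, by rw [(mem_Xw.mp hx).2, hu], hgx, ?_⟩
    exact never_lose hG ht hd u (hbig _) hg hgu hx hgx hmov

/-- the lower bound -/
theorem ratio_ge {G : Subgroup (Equiv.Perm (List (Fin d)))} (hG : G ≤ TreeAut d)
    (ht : LevelTransitive G) (hd : 3 ≤ d)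
    (hbig : ∀ n, ((d : ℝ) - 2) / (d - 1) - gapEps d < fixRatio G n) (n : ℕ) (hn : 1 ≤ n) :
    ((d : ℝ) - 2) / (d - 1) ≤ fixRatio G n := by
  classical
  have : Fintype (truncGroup G n) := Fintype.ofFinite _
  set X := Xw ([] : List (Fin d)) with hX
  have hsh := sharp_root hG ht hd (hbig 2) hn
  have hinv : ∀ γ : truncGroup G n, ∀ x ∈ X, γ • x ∈ X := by
    intro γ x hx
    rw [hX, mem_Xw] at hx ⊢
    rw [← smul_dropLast, hx.1, smul_length, hx.2]
    exact ⟨aut_nil (truncGroup_le G n γ.2), rfl⟩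
  have htr : ∀ x ∈ X, ∀ y ∈ X, ∃ γ : truncGroup G n, γ • x = y := by
    intro x hx y hy
    rw [hX, mem_Xw] at hx hy
    exact trunc_trans hG ht (by rw [hx.2, hy.2]) (by rw [hx.2]; exact hn)
  have hcX : X.card = d := card_Xw _
  have c1 := card_sharp hinv (by rw [hcX]; omega) hsh
  have c2 := count_der (S := truncGroup G n) (X := X) (card_pos.mp (by rw [hcX]; omega)) hinv htr
    hsh.triv
  rw [hcX] at c1 c2
  rw [fixRatio_eq hG (le_refl n)]
  set E := univ.filter (fun γ : truncGroup G n => ∃ u : List (Fin d), u.length = n ∧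
      (γ : Equiv.Perm (List (Fin d))) u = u) with hE
  have hcover : (univ : Finset (truncGroup G n)) ⊆
      E ∪ (der (truncGroup G n) X ∪ ker (truncGroup G n) X) := by
    intro γ _
    rw [mem_union, mem_union]
    by_cases h1 : γ ∈ der (truncGroup G n) X
    · exact Or.inr (Or.inl h1)
    by_cases h2 : γ ∈ ker (truncGroup G n) X
    · exact Or.inr (Or.inr h2)
    left
    rw [mem_der] at h1
    rw [mem_ker] at h2
    push Not at h1 h2
    obtain ⟨x, hx, hγx⟩ := h1
    obtain ⟨x', hx', hγx'⟩ := h2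
    obtain ⟨g, hg, hgγ⟩ := mem_truncGroup.mp γ.2
    have hact : ∀ u : List (Fin d), u.length ≤ n → γ • u = (g : Equiv.Perm (List (Fin d))) u := by
      intro u hu
      show (γ : Equiv.Perm (List (Fin d))) u = _
      rw [← hgγ]
      exact truncHom_of_le g hu
    have hl : ∀ x ∈ X, x.length ≤ n := by
      intro x hx
      rw [hX, mem_Xw] at hx
      rw [hx.2]
      exact hn
    obtain ⟨u, hu, hgu, _⟩ := persist hG ht hd hbig hg
      ⟨x, hx, by rw [← hact x (hl x hx)]; exact hγx⟩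
      ⟨x', hx', by rw [← hact x' (hl x' hx')]; exact hγx'⟩ n
    rw [hE, mem_filter]
    refine ⟨mem_univ _, u, hu, ?_⟩
    have := hact u hu.le
    rw [hgu] at this
    exact this
  have hc := (card_le_card hcover).trans ((card_union_le _ _).trans
    (Nat.add_le_add_left (card_union_le _ _) _))
  rw [card_univ, c2] at hc
  have hd' : (3 : ℝ) ≤ d := by exact_mod_cast hd
  have hΓ : (0 : ℝ) < Fintype.card (truncGroup G n) := by exact_mod_cast Fintype.card_pos
  rw [le_div_iff₀ hΓ]
  have e1 : ((d - 1 : ℕ) : ℝ) = (d : ℝ) - 1 := by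
    rw [Nat.cast_sub (by omega)]; simp
  have c1' : (Fintype.card (truncGroup G n) : ℝ) = d * (d - 1) * (ker (truncGroup G n) X).card := by
    rw [c1]
    push_cast
    rw [e1]
  have hc' : (Fintype.card (truncGroup G n) : ℝ) ≤ (E.card : ℝ) +
      ((d - 1) * (ker (truncGroup G n) X).card + (ker (truncGroup G n) X).card) := by
    rw [← e1]
    exact_mod_cast hc
  have hne : (d : ℝ) - 1 ≠ 0 := by linarith
  have e2 : ((d : ℝ) - 2) / (d - 1) * Fintype.card (truncGroup G n) =
      d * (d - 2) * (ker (truncGroup G n) X).card := by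
    rw [c1']
    field_simp
  rw [e2]
  rw [c1'] at hc'
  linarith

/-- the gap -/
theorem gap {G : Subgroup (Equiv.Perm (List (Fin d)))} (hG : G ≤ TreeAut d)
    (ht : LevelTransitive G) (hd : 3 ≤ d) {a : ℝ} (ha : HasFPP G a)
    (hbig : ((d : ℝ) - 2) / (d - 1) - gapEps d < a) : ((d : ℝ) - 2) / (d - 1) ≤ a := by
  have h1 : ∀ n, a ≤ fixRatio G n := fun n => (fixRatio_antitone hG).le_of_tendsto ha n
  have h2 : ∀ n, ((d : ℝ) - 2) / (d - 1) - gapEps d < fixRatio G n :=
    fun n => lt_of_lt_of_le hbig (h1 n)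
  apply ge_of_tendsto ha
  rw [Filter.eventually_atTop]
  exact ⟨1, fun n hn => ratio_ge hG ht hd h2 n hn⟩

end Pool.Agent.TreeFPP
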